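import Pool.Agent.Lib.MP_651af7_nt.Vj.Ser

/-! From inequalities at all places to height inequalities. -/

namespace Pool.Agent.Lib.MP_651af7_nt.Vj

open MvPolynomial Finset Height Pool.Agent.Lib.Common.Subspace

variable {K : Type*} [Field K] [AdmissibleAbsValues K]

theorem pf_of_le {f g : AbsoluteValue K ℝ → ℝ} (hg : FinS g) (h : ∀ v, g v = 0 → f v = 0) :
    FinS f :=
  Set.Finite.subset hg fun v hv h0 => hv (h v.val h0)

theorem pf_finS_zero : FinS fun _ : AbsoluteValue K ℝ => (0 : ℝ) := by
  simp [FinS]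

theorem pf_gsum_zero : gsum (fun _ : AbsoluteValue K ℝ => (0 : ℝ)) = 0 := by
  simp [gsum]

theorem pf_log_prod (F : AbsoluteValue K ℝ → ℝ) (hF : ∀ v, 0 < F v) :
    Real.log ((AdmissibleAbsValues.archAbsVal.map F).prod *
      ∏ᶠ v : AdmissibleAbsValues.nonarchAbsVal (K := K), F v.val) =
      gsum fun v => Real.log (F v) := by
  have h1 : ∀ a ∈ (AdmissibleAbsValues.archAbsVal (K := K)).map F, a ≠ 0 := fun a ha => by
    obtain ⟨v, -, rfl⟩ := Multiset.mem_map.mp ha
    exact (hF v).ne'
  have h2 : 0 < ∏ᶠ v : AdmissibleAbsValues.nonarchAbsVal (K := K), F v.val :=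
    finprod_induction (fun x : ℝ => 0 < x) one_pos (fun _ _ => mul_pos) fun v => hF v.val
  rw [Real.log_mul (Multiset.prod_ne_zero fun h => h1 0 h rfl) h2.ne', Real.log_multiset_prod h1,
    Multiset.map_map,
    Real.log_finprod fun v : AdmissibleAbsValues.nonarchAbsVal (K := K) => hF v.val]
  rfl

theorem FinS.add {f g : AbsoluteValue K ℝ → ℝ} (hf : FinS f) (hg : FinS g) :
    FinS fun v => f v + g v := by
  refine (Set.Finite.union hf hg).subset fun v hv => ?_
  by_contra hc
  simp only [Set.mem_union, Function.mem_support, not_or, not_not] at hc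
  exact hv (by simp only [hc.1, hc.2, add_zero])

theorem FinS.const_mul {f : AbsoluteValue K ℝ → ℝ} (hf : FinS f) (c : ℝ) :
    FinS fun v => c * f v := by
  exact pf_of_le hf fun v hv => by rw [hv, mul_zero]

theorem finS_sum {I : Type*} (s : Finset I) {f : I → AbsoluteValue K ℝ → ℝ}
    (hf : ∀ i ∈ s, FinS (f i)) : FinS fun v => ∑ i ∈ s, f i v := by
  classical
  induction s using Finset.induction_on with
  | empty => simpa only [sum_empty] using pf_finS_zero
  | insert a s ha ih =>
    simp only [sum_insert ha]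
    exact (hf a (mem_insert_self a s)).add (ih fun i hi => hf i (mem_insert_of_mem hi))

theorem gsum_add {f g : AbsoluteValue K ℝ → ℝ} (hf : FinS f) (hg : FinS g) :
    gsum (fun v => f v + g v) = gsum f + gsum g := by
  unfold gsum
  rw [Multiset.sum_map_add, finsum_add_distrib hf hg]
  ring

theorem gsum_const_mul {f : AbsoluteValue K ℝ → ℝ} (hf : FinS f) (c : ℝ) :
    gsum (fun v => c * f v) = c * gsum f := by
  unfold gsum
  rw [Multiset.sum_map_mul_left, mul_add, mul_finsum' _ _ hf]

theorem gsum_sum {I : Type*} (s : Finset I) {f : I → AbsoluteValue K ℝ → ℝ}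
    (hf : ∀ i ∈ s, FinS (f i)) : gsum (fun v => ∑ i ∈ s, f i v) = ∑ i ∈ s, gsum (f i) := by
  classical
  induction s using Finset.induction_on with
  | empty => simpa only [sum_empty] using pf_gsum_zero
  | insert a s ha ih =>
    simp only [sum_insert ha]
    rw [gsum_add (hf a (mem_insert_self a s)) (finS_sum s fun i hi => hf i (mem_insert_of_mem hi)),
      ih fun i hi => hf i (mem_insert_of_mem hi)]

/-- Apply `h` to `⟨v, 1, _⟩` for `v` in `archAbsVal`, to `⟨v, 0, _⟩` for `v` in `nonarchAbsVal`. -/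
theorem gsum_le {f g : AbsoluteValue K ℝ → ℝ} (hf : FinS f) (hg : FinS g) (c : ℝ)
    (h : ∀ L : Loc K, f L.v ≤ g L.v + L.e * c) : gsum f ≤ gsum g + totalWeight K * c := by
  have h1 : (AdmissibleAbsValues.archAbsVal.map f).sum ≤
      ((AdmissibleAbsValues.archAbsVal (K := K)).map fun v => g v + c).sum :=
    Multiset.sum_map_le_sum_map _ _ fun v _ => by simpa using h ⟨v, 1, Or.inl rfl⟩
  have h2 : ∑ᶠ v : AdmissibleAbsValues.nonarchAbsVal (K := K), f v.val ≤
      ∑ᶠ v : AdmissibleAbsValues.nonarchAbsVal (K := K), g v.val :=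
    finsum_le_finsum' hf hg fun v => by
      simpa using h ⟨v.val, 0, Or.inr ⟨rfl, AdmissibleAbsValues.isNonarchimedean _ v.2⟩⟩
  rw [Multiset.sum_map_add, Multiset.map_const', Multiset.sum_replicate, nsmul_eq_mul] at h1
  unfold gsum totalWeight
  linarith

theorem pf_log_max_nonneg (a : ℝ) : 0 ≤ Real.log (max a 1) := Real.log_nonneg (le_max_right _ _)

theorem pf_finS_of_le {f g : AbsoluteValue K ℝ → ℝ} (hg : FinS g) (h0 : ∀ v, 0 ≤ f v)
    (h : ∀ v, f v ≤ g v) : FinS f :=
  pf_of_le hg fun v hv => le_antisymm (hv ▸ h v) (h0 v)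

theorem pf_log_max_mono {a b : ℝ} (h : a ≤ b) : Real.log (max a 1) ≤ Real.log (max b 1) :=
  Real.log_le_log (by positivity) (max_le_max_right _ h)

theorem pf_log_min_max (a b : ℝ) : Real.log (max (min a b) 1) + Real.log (max (max a b) 1) =
    Real.log (max a 1) + Real.log (max b 1) := by
  rcases le_total a b with h | h
  · rw [min_eq_left h, max_eq_right h]
  · rw [min_eq_right h, max_eq_left h, add_comm]

theorem pf_gsum_mono {f g : AbsoluteValue K ℝ → ℝ} (hf : FinS f) (hg : FinS g)
    (h : ∀ v, f v ≤ g v) : gsum f ≤ gsum g := by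
  simpa using gsum_le hf hg 0 fun L => by simpa using h L.v

theorem finS_log (x : K) : FinS fun v : AbsoluteValue K ℝ => Real.log (v x) := by
  rcases eq_or_ne x 0 with rfl | hx
  · simpa only [map_zero, Real.log_zero] using pf_finS_zero
  · exact Set.Finite.subset (AdmissibleAbsValues.hasFiniteMulSupport hx) fun v hv h0 =>
      hv (by simp only [h0, Real.log_one])

/-- The product formula. -/
theorem gsum_log {x : K} (hx : x ≠ 0) : gsum (fun v : AbsoluteValue K ℝ => Real.log (v x)) = 0 := by
  rw [← pf_log_prod (fun v => v x) fun v => v.pos hx, AdmissibleAbsValues.product_formula hx,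
    Real.log_one]

theorem finS_max (x : K) : FinS fun v : AbsoluteValue K ℝ => Real.log (max (v x) 1) := by
  rcases eq_or_ne x 0 with rfl | hx
  · simpa only [map_zero, max_eq_right (zero_le_one' ℝ), Real.log_one] using pf_finS_zero
  · exact Set.Finite.subset (AdmissibleAbsValues.hasFiniteMulSupport hx) fun v hv h0 =>
      hv (by simp only [h0, max_self, Real.log_one])

/-- `logHeight₁_eq`. -/
theorem gsum_max (x : K) :
    gsum (fun v : AbsoluteValue K ℝ => Real.log (max (v x) 1)) = logHeight₁ x := by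
  exact (pf_log_prod (fun v => max (v x) 1) fun v => by positivity).symm

theorem finS_min (x x' : K) :
    FinS fun v : AbsoluteValue K ℝ => Real.log (max (min (v x) (v x')) 1) := by
  exact pf_finS_of_le (finS_max x) (fun _ => pf_log_max_nonneg _)
    fun _ => pf_log_max_mono (min_le_left _ _)

/-- `logHeight ![1, x, x']` is the sum of `log (max 1 (max (v x) (v x')))`, and
`max a 1 * max b 1 = max (min a b) 1 * max 1 (max a b)`. -/
theorem hE_eq (x x' : K) : hE x x' = logHeight₁ x + logHeight₁ x' - logHeight ![1, x, x'] := by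
  have h1 : ∀ v : AbsoluteValue K ℝ, ⨆ i, v (![1, x, x'] i) = max (max (v x) (v x')) 1 :=
    fun v => eq_of_forall_ge_iff fun c => by
      simp only [ciSup_le_iff (Finite.bddAbove_range _), Fin.forall_fin_succ, Matrix.cons_val_zero,
        Matrix.cons_val_succ, map_one, max_le_iff, IsEmpty.forall_iff, and_true]
      exact and_comm
  have h2 : logHeight ![1, x, x'] = gsum fun v => Real.log (max (max (v x) (v x')) 1) := by
    rw [logHeight_eq_log_mulHeight, mulHeight_eq fun h => one_ne_zero (congrFun h 0)]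
    simp only [h1]
    exact pf_log_prod (fun v => max (max (v x) (v x')) 1) fun v => by positivity
  have h3 : FinS fun v : AbsoluteValue K ℝ => Real.log (max (max (v x) (v x')) 1) :=
    pf_finS_of_le ((finS_max x).add (finS_max x')) (fun _ => pf_log_max_nonneg _) fun v => by
      rw [← pf_log_min_max]
      exact le_add_of_nonneg_left (pf_log_max_nonneg _)
  have h4 := gsum_add (finS_min x x') h3
  simp only [pf_log_min_max] at h4
  rw [gsum_add (finS_max x) (finS_max x'), gsum_max, gsum_max] at h4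
  rw [h2, h4, hE, add_sub_cancel_right]

/-- Multiplicative form: take logarithms, then `gsum_le`, `gsum_log`. -/
theorem pf_gen {I J : Type*} [Fintype I] [Fintype J] {g : K} (hg : g ≠ 0)
    (f : I → AbsoluteValue K ℝ → ℝ) (hf : ∀ i, FinS fun v => Real.log (f i v))
    (hf0 : ∀ i v, 0 < f i v) (n : I → ℕ)
    (f' : J → AbsoluteValue K ℝ → ℝ) (hf' : ∀ j, FinS fun v => Real.log (f' j v))
    (hf0' : ∀ j v, 0 < f' j v) (m : J → ℕ) {C : ℝ} (hC : 0 < C)
    (h : ∀ L : Loc K, L.v g * ∏ i, f i L.v ^ n i ≤ C ^ L.e * ∏ j, f' j L.v ^ m j) :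
    ∑ i, n i * gsum (fun v => Real.log (f i v)) ≤
      totalWeight K * Real.log C + ∑ j, m j * gsum (fun v => Real.log (f' j v)) := by
  have a1 : ∀ i ∈ (univ : Finset I), FinS fun v => (n i : ℝ) * Real.log (f i v) :=
    fun i _ => (hf i).const_mul _
  have a2 : ∀ j ∈ (univ : Finset J), FinS fun v => (m j : ℝ) * Real.log (f' j v) :=
    fun j _ => (hf' j).const_mul _
  have h1 := gsum_le ((finS_log g).add (finS_sum univ a1)) (finS_sum univ a2) (Real.log C)
    fun L => ?_
  · rw [gsum_add (finS_log g) (finS_sum univ a1), gsum_log hg, gsum_sum univ a1, gsum_sum univ a2,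
      zero_add, add_comm] at h1
    simpa only [gsum_const_mul (hf _), gsum_const_mul (hf' _)] using h1
  · have b1 : ∀ i ∈ (univ : Finset I), 0 < f i L.v ^ n i := fun i _ => pow_pos (hf0 i _) _
    have b2 : ∀ j ∈ (univ : Finset J), 0 < f' j L.v ^ m j := fun j _ => pow_pos (hf0' j _) _
    have h2 := Real.log_le_log (mul_pos (L.v.pos hg) (prod_pos b1)) (h L)
    rw [Real.log_mul (L.v.pos hg).ne' (prod_pos b1).ne',
      Real.log_mul (pow_pos hC _).ne' (prod_pos b2).ne', Real.log_prod fun i hi => (b1 i hi).ne',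
      Real.log_prod fun j hj => (b2 j hj).ne', add_comm (Real.log (C ^ L.e))] at h2
    simpa only [Real.log_pow] using h2

theorem pf {I J : Type*} [Fintype I] [Fintype J] {g : K} (hg : g ≠ 0) (α : I → K) (n : I → ℕ)
    (β : J → K) (m : J → ℕ) {C : ℝ} (hC : 0 < C)
    (h : ∀ L : Loc K, L.v g * ∏ i, max (L.v (α i)) 1 ^ n i ≤
      C ^ L.e * ∏ j, max (L.v (β j)) 1 ^ m j) :
    ∑ i, n i * logHeight₁ (α i) ≤ totalWeight K * Real.log C + ∑ j, m j * logHeight₁ (β j) := by
  simpa only [gsum_max] using pf_gen hg (fun i v => max (v (α i)) 1) (fun i => finS_max _)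
    (fun i v => by positivity) n (fun j v => max (v (β j)) 1) (fun j => finS_max _)
    (fun j v => by positivity) m hC h

theorem hE_nonneg (x x' : K) : 0 ≤ hE x x' := by
  rw [← pf_gsum_zero (K := K)]
  exact pf_gsum_mono pf_finS_zero (finS_min x x') fun _ => pf_log_max_nonneg _

theorem hE_le_left (x x' : K) : hE x x' ≤ logHeight₁ x := by
  rw [← gsum_max]
  exact pf_gsum_mono (finS_min x x') (finS_max x) fun _ => pf_log_max_mono (min_le_left _ _)

theorem hE_le_right (x x' : K) : hE x x' ≤ logHeight₁ x' := by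
  rw [← gsum_max]
  exact pf_gsum_mono (finS_min x x') (finS_max x') fun _ => pf_log_max_mono (min_le_right _ _)

end Pool.Agent.Lib.MP_651af7_nt.Vj
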