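import Pool.Agent.Lib.MP_651af7_nt.Vj.Defs

/-! Closure properties of `WD` and `IL`. -/

namespace Pool.Agent.Lib.MP_651af7_nt.Vj

open MvPolynomial Finset Pool.Agent.Lib.Common.Subspace

variable {σ τ : Type*} {w : σ → ℕ} {p q : MvPolynomial σ ℚ} {D D' : ℕ} {T T' : ℝ}

theorem WD.mono (h : WD w p D) (hD : D ≤ D') : WD w p D' := fun μ hμ => (h μ hμ).trans hD

theorem WD.of_subset (h : WD w p D) (hq : q.support ⊆ p.support) : WD w q D :=
  fun μ hμ => h μ (hq hμ)

theorem wd_zero (w : σ → ℕ) (D : ℕ) : WD w 0 D := by simp [WD]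

theorem wd_monomial {μ : σ →₀ ℕ} (h : Finsupp.weight w μ ≤ D) (c : ℚ) : WD w (monomial μ c) D := by
  intro ν hν
  rw [mem_singleton.1 (support_monomial_subset hν)]
  exact h

theorem wd_C (w : σ → ℕ) (c : ℚ) : WD w (C c) 0 := wd_monomial (μ := 0) (by simp) c

theorem wd_one (w : σ → ℕ) : WD w 1 0 := wd_C w 1

theorem wd_natCast (w : σ → ℕ) (n : ℕ) : WD w (n : MvPolynomial σ ℚ) 0 := by
  simpa using wd_C w (n : ℚ)

theorem wd_ofNat (w : σ → ℕ) (n : ℕ) [n.AtLeastTwo] :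
    WD w (ofNat(n) : MvPolynomial σ ℚ) 0 := wd_natCast w n

theorem wd_X (w : σ → ℕ) (s : σ) : WD w (X s) (w s) :=
  wd_monomial (μ := Finsupp.single s 1) (by simp [Finsupp.weight_single]) 1

theorem WD.add (h : WD w p D) (h' : WD w q D) : WD w (p + q) D := by
  classical
  intro μ hμ
  rcases mem_union.1 (support_add hμ) with h1 | h1
  exacts [h μ h1, h' μ h1]

theorem WD.neg (h : WD w p D) : WD w (-p) D := fun μ hμ => h μ (by simpa using hμ)

theorem WD.sub (h : WD w p D) (h' : WD w q D) : WD w (p - q) D := by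
  rw [sub_eq_add_neg]
  exact h.add h'.neg

theorem WD.mul (h : WD w p D) (h' : WD w q D') : WD w (p * q) (D + D') := by
  classical
  intro μ hμ
  obtain ⟨ν, hν, ν', hν', rfl⟩ := Finset.mem_add.1 (support_mul p q hμ)
  rw [map_add]
  exact add_le_add (h ν hν) (h' ν' hν')

theorem WD.pow (h : WD w p D) (k : ℕ) : WD w (p ^ k) (k * D) := by
  induction k with
  | zero => simpa using wd_one w
  | succ k ih => rw [pow_succ, Nat.succ_mul]; exact ih.mul h

theorem WD.smul (h : WD w p D) (c : ℚ) : WD w (c • p) D := h.of_subset support_smul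

theorem WD.zsmul (h : WD w p D) (c : ℤ) : WD w (c • p) D := by
  rw [← Int.cast_smul_eq_zsmul ℚ]
  exact h.smul _

theorem wd_sum {I : Type*} (s : Finset I) {f : I → MvPolynomial σ ℚ} (h : ∀ i ∈ s, WD w (f i) D) :
    WD w (∑ i ∈ s, f i) D :=
  Finset.sum_induction _ (fun p => WD w p D) (fun _ _ => WD.add) (wd_zero w D) h

theorem wd_prod {I : Type*} (s : Finset I) {f : I → MvPolynomial σ ℚ} {d : I → ℕ}
    (h : ∀ i ∈ s, WD w (f i) (d i)) : WD w (∏ i ∈ s, f i) (∑ i ∈ s, d i) := by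
  classical
  induction s using Finset.induction_on with
  | empty => simpa using wd_one w
  | insert i s hi ih =>
    rw [prod_insert hi, sum_insert hi]
    exact (h i (mem_insert_self _ _)).mul (ih fun j hj => h j (mem_insert_of_mem hj))

theorem weight_single_one [DecidableEq σ] (s : σ) (μ : σ →₀ ℕ) :
    Finsupp.weight (Pi.single s 1 : σ → ℕ) μ = μ s := by
  rw [Finsupp.weight_apply, Finsupp.sum]
  rw [Finset.sum_eq_single s]
  · simp
  · intro t _ ht
    simp [ht]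
  · intro hs
    simp [Finsupp.notMem_support_iff.1 hs]

theorem wd_single_iff [DecidableEq σ] (s : σ) :
    WD (Pi.single s 1) p D ↔ ∀ μ ∈ p.support, μ s ≤ D := by
  simp only [WD, weight_single_one]

theorem apply_mul_le_weight (w : σ → ℕ) (μ : σ →₀ ℕ) (s : σ) :
    μ s * w s ≤ Finsupp.weight w μ := by
  rw [Finsupp.weight_apply, Finsupp.sum]
  by_cases hs : s ∈ μ.support
  · exact Finset.single_le_sum (f := fun t => μ t • w t) (fun _ _ => Nat.zero_le _) hs
  · simp [Finsupp.notMem_support_iff.1 hs]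

theorem weight_mapDomain (w : τ → ℕ) (f : σ → τ) (μ : σ →₀ ℕ) :
    Finsupp.weight w (Finsupp.mapDomain f μ) = Finsupp.weight (fun s => w (f s)) μ := by
  rw [Finsupp.weight_apply, Finsupp.weight_apply, Finsupp.sum_mapDomain_index]
  · simp
  · intro b m₁ m₂
    rw [add_smul]

theorem supp_rename (f : σ → τ) (p : MvPolynomial σ ℚ) :
    ∀ ν ∈ (rename f p).support, ∃ μ ∈ p.support, ν = Finsupp.mapDomain f μ := by
  classical
  intro ν hν
  obtain ⟨μ, h1, h2⟩ := coeff_rename_ne_zero f p ν (mem_support_iff.1 hν)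
  exact ⟨μ, mem_support_iff.2 h2, h1.symm⟩

theorem WD.rename {w : τ → ℕ} {f : σ → τ} (h : WD (fun s => w (f s)) p D) :
    WD w (rename f p) D := by
  intro ν hν
  obtain ⟨μ, h1, rfl⟩ := supp_rename f p ν hν
  rw [weight_mapDomain]
  exact h μ h1

theorem IL.mono (h : IL p T) (hT : T ≤ T') : IL p T' := ⟨h.1, h.2.trans hT⟩

theorem IL.nonneg (h : IL p T) : 0 ≤ T := (len_nonneg p).trans h.2

theorem il_zero : IL (0 : MvPolynomial σ ℚ) 0 := ⟨isInt_zero, nrm_zero.le⟩

theorem il_one : IL (1 : MvPolynomial σ ℚ) 1 := ⟨isInt_one, nrm_one.le⟩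

theorem il_X (s : σ) : IL (X s : MvPolynomial σ ℚ) 1 := ⟨isInt_X s, (nrm_X s).le⟩

theorem il_intCast (z : ℤ) : IL (C (z : ℚ) : MvPolynomial σ ℚ) |(z : ℝ)| :=
  ⟨isInt_C z, by rw [len, nrm_C]; simp [Rat.AbsoluteValue.real_eq_abs]⟩

theorem il_natCast (n : ℕ) : IL (n : MvPolynomial σ ℚ) n := by
  simpa using il_intCast (σ := σ) (n : ℤ)

theorem il_ofNat (n : ℕ) [n.AtLeastTwo] : IL (ofNat(n) : MvPolynomial σ ℚ) ofNat(n) :=
  il_natCast n

theorem il_monomial_one (μ : σ →₀ ℕ) : IL (monomial μ (1 : ℚ)) 1 :=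
  ⟨by simpa using isInt_monomial μ 1, by simp [len, nrm_monomial, Finsupp.prod]⟩

theorem IL.add (h : IL p T) (h' : IL q T') : IL (p + q) (T + T') :=
  ⟨h.1.add h'.1, (nrm_add_le (fun _ => zero_le_one) p q).trans (add_le_add h.2 h'.2)⟩

theorem IL.neg (h : IL p T) : IL (-p) T := ⟨h.1.neg, (nrm_neg p).le.trans h.2⟩

theorem IL.sub (h : IL p T) (h' : IL q T') : IL (p - q) (T + T') := by
  rw [sub_eq_add_neg]
  exact h.add h'.neg

theorem IL.mul (h : IL p T) (h' : IL q T') : IL (p * q) (T * T') :=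
  ⟨h.1.mul h'.1, (nrm_mul_le (fun _ => zero_le_one) p q).trans
    (mul_le_mul h.2 h'.2 (len_nonneg q) h.nonneg)⟩

theorem IL.pow (h : IL p T) (k : ℕ) : IL (p ^ k) (T ^ k) := by
  induction k with
  | zero => simpa using il_one
  | succ k ih => rw [pow_succ, pow_succ]; exact ih.mul h

theorem IL.zsmul (h : IL p T) (c : ℤ) : IL (c • p) (|(c : ℝ)| * T) := by
  rw [← Int.cast_smul_eq_zsmul ℚ, smul_eq_C_mul]
  exact (il_intCast c).mul h

theorem il_sum {I : Type*} (s : Finset I) {f : I → MvPolynomial σ ℚ} {t : I → ℝ}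
    (h : ∀ i ∈ s, IL (f i) (t i)) : IL (∑ i ∈ s, f i) (∑ i ∈ s, t i) :=
  ⟨isInt_sum _ _ fun i hi => (h i hi).1, (nrm_sum_le (fun _ => zero_le_one) s f).trans
    (Finset.sum_le_sum fun i hi => (h i hi).2)⟩

theorem il_prod {I : Type*} (s : Finset I) {f : I → MvPolynomial σ ℚ} {t : I → ℝ}
    (h : ∀ i ∈ s, IL (f i) (t i)) : IL (∏ i ∈ s, f i) (∏ i ∈ s, t i) := by
  classical
  induction s using Finset.induction_on with
  | empty => simpa using il_one
  | insert i s hi ih =>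
    rw [prod_insert hi, prod_insert hi]
    exact (h i (mem_insert_self _ _)).mul (ih fun j hj => h j (mem_insert_of_mem hj))

theorem IL.rename (h : IL p T) (f : σ → τ) : IL (rename f p) T := by
  refine ⟨?_, le_trans ?_ h.2⟩
  · rw [rename_eq_aeval]
    exact h.1.aeval fun s => isInt_X _
  · rw [rename_eq_aeval]
    refine (nrm_aeval_le (fun _ => zero_le_one) _ p).trans (le_of_eq ?_)
    simp [len, nrm_X]

end Pool.Agent.Lib.MP_651af7_nt.Vj
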