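import Pool.Agent.Lib.MP_651af7_nt.Vj.PF

/-! Heights of values and of roots. -/

namespace Pool.Agent.Lib.MP_651af7_nt.Vj

open MvPolynomial Finset Height Pool.Agent.Lib.Common.Subspace

variable {K : Type*} [Field K] [AdmissibleAbsValues K]

variable [CharZero K] {σ : Type*}

omit [AdmissibleAbsValues K] in
theorem hts_coeff (L : Loc K) {p : MvPolynomial σ ℚ} (hp : IsInt p) (μ : σ →₀ ℕ) :
    L.v (algebraMap ℚ K (coeff μ p)) ≤ |((coeff μ p : ℚ) : ℝ)| ^ L.e := by
  obtain ⟨c, hc⟩ := hp μ
  rw [hc, map_intCast, Rat.cast_intCast]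
  exact L.nv.intCast_le c

omit [AdmissibleAbsValues K] in
theorem hts_coeff_le (L : Loc K) {p : MvPolynomial σ ℚ} {T : ℝ} (hp : IL p T) (μ : σ →₀ ℕ) :
    L.v (algebraMap ℚ K (coeff μ p)) ≤ T ^ L.e :=
  (hts_coeff L hp.1 μ).trans
    (pow_le_pow_left₀ (abs_nonneg _) ((abs_coeff_le_len p μ).trans hp.2) _)

omit [AdmissibleAbsValues K] in
theorem hts_top (L : Loc K) {p : MvPolynomial σ ℚ} {T : ℝ} (hp : IL p T) {μ₀ : σ →₀ ℕ}
    (h0 : μ₀ ∈ p.support) {z : σ → K} (hz : aeval z p = 0) {M : ℝ} (hM : 0 ≤ M)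
    (h : ∀ μ ∈ p.support, μ ≠ μ₀ → L.v (μ.prod fun s k => z s ^ k) ≤ M) :
    L.v (algebraMap ℚ K (coeff μ₀ p)) * L.v (μ₀.prod fun s k => z s ^ k) ≤ T ^ L.e * M := by
  classical
  have h1 : aeval z p = ∑ μ ∈ p.support,
      algebraMap ℚ K (coeff μ p) * μ.prod fun s k => z s ^ k := by
    rw [aeval_def, eval₂_eq]
    rfl
  rw [h1, ← add_sum_erase _ _ h0, add_eq_zero_iff_eq_neg] at hz
  rw [← L.v.map_mul, hz, L.v.map_neg]
  have h2 := L.nv.sum_le (p.support.erase μ₀)
    (f := fun μ => algebraMap ℚ K (coeff μ p) * μ.prod fun s k => z s ^ k)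
    (m := fun μ => |((coeff μ p : ℚ) : ℝ)|) hM (fun μ hμ =>
      L.nv.mul_le (hts_coeff L hp.1 μ) (h μ (mem_erase.1 hμ).2 (mem_erase.1 hμ).1))
  refine h2.trans (mul_le_mul_of_nonneg_right (pow_le_pow_left₀
    (sum_nonneg fun _ _ => abs_nonneg _) ?_ _) hM)
  refine le_trans ?_ hp.2
  rw [len_eq]
  exact sum_le_sum_of_subset_of_nonneg (erase_subset _ _) fun _ _ _ => abs_nonneg _

/-- Height of a value: `pf` with `g = 1`, `L.nv.aeval_wd` with `w s = Pi.single s 1`. -/
theorem height_aeval_le [Fintype σ] {p : MvPolynomial σ ℚ} {T : ℝ} (hT : 1 ≤ T) (hp : IL p T)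
    (D : σ → ℕ) (hD : ∀ μ ∈ p.support, ∀ s, μ s ≤ D s) (z : σ → K) :
    logHeight₁ (aeval z p) ≤ totalWeight K * Real.log T + ∑ s, D s * logHeight₁ (z s) := by
  classical
  have h := pf (I := Unit) (g := (1 : K)) one_ne_zero (fun _ => aeval z p) (fun _ => 1) z D
    (C := T) (by linarith) (fun L => by
      have hE : ∀ j, 1 ≤ max (L.v (z j)) 1 := fun j => le_max_right _ _
      have h1 := L.nv.aeval_wd (fun j => Pi.single j 1) D (fun j => max (L.v (z j)) 1) hE hp
        (fun j => (wd_single_iff j).2 fun μ hμ => hD μ hμ j) z (fun s => by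
          rw [Finset.prod_eq_single s]
          · simp only [Pi.single_eq_same, pow_one]
            exact le_max_left _ _
          · intro j _ hj
            rw [Pi.single_eq_of_ne' hj, pow_zero]
          · simp)
      simp only [map_one, one_mul, Finset.univ_unique, Finset.prod_singleton, pow_one]
      refine max_le h1 (one_le_mul_of_one_le_of_one_le (one_le_pow₀ hT) ?_)
      exact Finset.one_le_prod fun j _ => one_le_pow₀ (hE j))
  simpa using h

/-- Height of a root of a polynomial in the single variable `s`: with `μ₀` the monomial of largest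
`μ s` and `c` its coefficient, `v c * max (v x) 1 ≤ T ^ e` at every place; `pf` with `g = c`. -/
theorem height_root_le {p : MvPolynomial σ ℚ} (h0 : p ≠ 0) {T : ℝ} (hp : IL p T) (s : σ)
    (hs : ∀ μ ∈ p.support, ∀ t, t ≠ s → μ t = 0) (z : σ → K) (hz : aeval z p = 0) :
    logHeight₁ (z s) ≤ totalWeight K * Real.log T := by
  classical
  have hT : 1 ≤ T := (one_le_len hp.1 h0).trans hp.2
  obtain ⟨μ₀, hμ₀, hmax⟩ := exists_max_image p.support (fun μ => μ s) (support_nonempty.2 h0)
  have hsing : ∀ μ ∈ p.support, μ = Finsupp.single s (μ s) := by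
    intro μ hμ
    ext t
    by_cases ht : t = s
    · rw [ht, Finsupp.single_eq_same]
    · rw [hs μ hμ t ht, Finsupp.single_eq_of_ne ht]
  have hprod : ∀ μ ∈ p.support, (μ.prod fun s k => z s ^ k) = z s ^ μ s := by
    intro μ hμ
    conv_lhs => rw [hsing μ hμ]
    exact Finsupp.prod_single_index (pow_zero _)
  have hc : algebraMap ℚ K (coeff μ₀ p) ≠ 0 := by
    rw [map_ne_zero]
    exact mem_support_iff.1 hμ₀
  have h := pf (I := Unit) (J := Empty) hc (fun _ => z s) (fun _ => 1) (fun j => j.elim)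
    (fun j => j.elim) (C := T) (by linarith) (fun L => by
      simp only [Finset.univ_unique, Finset.prod_singleton, pow_one, Finset.univ_eq_empty,
        Finset.prod_empty, mul_one]
      rcases le_or_gt (L.v (z s)) 1 with h1 | h1
      · rw [max_eq_right h1, mul_one]
        exact hts_coeff_le L hp μ₀
      · rw [max_eq_left h1.le]
        have hx : 0 < L.v (z s) := by linarith
        have h2 := hts_top L hp hμ₀ hz (M := L.v (z s) ^ μ₀ s / L.v (z s)) (by positivity)
          (fun μ hμ hne => by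
            rw [hprod μ hμ, map_pow, le_div_iff₀ hx, ← pow_succ]
            refine pow_le_pow_right₀ h1.le (Nat.succ_le_of_lt (lt_of_le_of_ne (hmax μ hμ) ?_))
            intro he
            exact hne (by rw [hsing μ hμ, hsing μ₀ hμ₀, he]))
        rw [hprod μ₀ hμ₀, map_pow, ← mul_div_assoc, le_div_iff₀ hx] at h2
        have h3 : 0 < L.v (z s) ^ μ₀ s := by positivity
        refine le_of_mul_le_mul_right ?_ h3
        linarith)
  simpa using h

/-- If a monomial `μ₀` dominates all the others, with coefficient `c`, then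
`v c * max (min (v x) (v x')) 1 ≤ T ^ e` at every place (every other monomial is at most
`|x| ^ μ₀ 0 * |x'| ^ μ₀ 1 / min`, when the minimum exceeds `1`); `pf_gen` with `g = c`. -/
theorem hE_le_of_top {p : MvPolynomial (Fin 2) ℚ} {T : ℝ} (hp : IL p T) {μ₀ : Fin 2 →₀ ℕ}
    (h0 : μ₀ ∈ p.support) (htop : ∀ μ ∈ p.support, μ ≤ μ₀) {x x' : K}
    (hz : aeval ![x, x'] p = 0) : hE x x' ≤ totalWeight K * Real.log T := by
  have hp0 : p ≠ 0 := support_nonempty.1 ⟨μ₀, h0⟩
  have hT : 1 ≤ T := (one_le_len hp.1 hp0).trans hp.2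
  have hprod : ∀ μ : Fin 2 →₀ ℕ, (μ.prod fun s k => ![x, x'] s ^ k) = x ^ μ 0 * x' ^ μ 1 := by
    intro μ
    rw [Finsupp.prod_fintype _ _ (fun _ => pow_zero _), Fin.prod_univ_two]
    rfl
  have hc : algebraMap ℚ K (coeff μ₀ p) ≠ 0 := by
    rw [map_ne_zero]
    exact mem_support_iff.1 h0
  have h := pf_gen (I := Unit) (J := Empty) hc (fun _ v => max (min (v x) (v x')) 1)
    (fun _ => finS_min x x') (fun _ v => lt_of_lt_of_le one_pos (le_max_right _ _)) (fun _ => 1)
    (fun j => j.elim) (fun j => j.elim) (fun j => j.elim) (fun j => j.elim) (C := T)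
    (by linarith) (fun L => by
      simp only [Finset.univ_unique, Finset.prod_singleton, pow_one, Finset.univ_eq_empty,
        Finset.prod_empty, mul_one]
      rcases le_or_gt (min (L.v x) (L.v x')) 1 with h1 | h1
      · rw [max_eq_right h1, mul_one]
        exact hts_coeff_le L hp μ₀
      · rw [max_eq_left h1.le]
        have hm : 0 < min (L.v x) (L.v x') := by linarith
        have hx : 1 ≤ L.v x := (h1.le.trans (min_le_left _ _))
        have hx' : 1 ≤ L.v x' := (h1.le.trans (min_le_right _ _))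
        have h2 := hts_top L hp h0 hz
          (M := L.v x ^ μ₀ 0 * L.v x' ^ μ₀ 1 / min (L.v x) (L.v x')) (by positivity)
          (fun μ hμ hne => by
            rw [hprod μ, map_mul, map_pow, map_pow, le_div_iff₀ hm]
            have e0 : μ 0 ≤ μ₀ 0 := htop μ hμ 0
            have e1 : μ 1 ≤ μ₀ 1 := htop μ hμ 1
            rcases lt_or_eq_of_le e0 with f0 | f0
            · calc L.v x ^ μ 0 * L.v x' ^ μ 1 * min (L.v x) (L.v x')
                  ≤ L.v x ^ μ 0 * L.v x' ^ μ 1 * L.v x := by gcongr; exact min_le_left _ _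
                _ = L.v x ^ (μ 0 + 1) * L.v x' ^ μ 1 := by ring
                _ ≤ _ := by gcongr; omega
            · have f1 : μ 1 < μ₀ 1 := by
                refine lt_of_le_of_ne e1 fun he => hne ?_
                ext t
                fin_cases t
                · exact f0
                · exact he
              calc L.v x ^ μ 0 * L.v x' ^ μ 1 * min (L.v x) (L.v x')
                  ≤ L.v x ^ μ 0 * L.v x' ^ μ 1 * L.v x' := by gcongr; exact min_le_right _ _
                _ = L.v x ^ μ 0 * L.v x' ^ (μ 1 + 1) := by ring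
                _ ≤ _ := by gcongr; omega)
        rw [hprod μ₀, map_mul, map_pow, map_pow, ← mul_div_assoc, le_div_iff₀ hm] at h2
        have h3 : 0 < L.v x ^ μ₀ 0 * L.v x' ^ μ₀ 1 := by positivity
        refine le_of_mul_le_mul_right ?_ h3
        linarith)
  simpa [hE] using h

/-- `2 h (y) = h (x ^ 3 + a x + b)` (`logHeight₁_pow`, `height_aeval_le`). -/
theorem height_y_le {a b x y : K} (h : y ^ 2 = x ^ 3 + a * x + b) :
    logHeight₁ y ≤ totalWeight K * Real.log 3 + 2 * logHeight₁ x + logHeight₁ a + logHeight₁ b := by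
  have h1 := pf (I := Unit) (g := (1 : K)) one_ne_zero (fun _ => y) (fun _ => 2) ![x, a, b]
    ![3, 1, 1] (C := 3) (by norm_num) (fun L => by
      simp only [map_one, one_mul, Finset.univ_unique, Finset.prod_singleton, Fin.prod_univ_three,
        Matrix.cons_val_zero, Matrix.cons_val_one, Matrix.cons_val, pow_one]
      set X := max (L.v x) 1
      set A := max (L.v a) 1
      set B := max (L.v b) 1
      have x1 : 1 ≤ X := le_max_right _ _
      have a1 : 1 ≤ A := le_max_right _ _
      have b1 : 1 ≤ B := le_max_right _ _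
      have x2 : L.v x ≤ X := le_max_left _ _
      have a2 : L.v a ≤ A := le_max_left _ _
      have b2 : L.v b ≤ B := le_max_left _ _
      have x3 : X ≤ X ^ 3 := le_self_pow₀ x1 (by norm_num)
      have t1 : L.nv.N (x ^ 3) ≤ 1 ^ L.nv.e * (X ^ 3 * A * B) := by
        rw [one_pow, one_mul]
        refine (L.nv.pow_le x2 3).trans ?_
        calc X ^ 3 = X ^ 3 * 1 * 1 := by ring
          _ ≤ _ := by gcongr
      have t2 : L.nv.N (a * x) ≤ 1 ^ L.nv.e * (X ^ 3 * A * B) := by
        rw [one_pow, one_mul]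
        refine (L.nv.mul_le a2 x2).trans ?_
        calc A * X = X * A * 1 := by ring
          _ ≤ _ := by gcongr
      have t3 : L.nv.N b ≤ 1 ^ L.nv.e * (X ^ 3 * A * B) := by
        rw [one_pow, one_mul]
        refine b2.trans ?_
        calc B = 1 * 1 * B := by ring
          _ ≤ _ := by gcongr; exact x1.trans x3
      have t4 := L.nv.add_le (L.nv.add_le t1 t2) t3
      rw [← h] at t4
      have t5 : L.v y ^ 2 ≤ 3 ^ L.e * (X ^ 3 * A * B) := by
        rw [← map_pow, show (3 : ℝ) = 1 + 1 + 1 by norm_num]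
        exact t4
      rcases le_total (L.v y) 1 with h2 | h2
      · rw [max_eq_right h2, one_pow]
        refine one_le_mul_of_one_le_of_one_le (one_le_pow₀ (by norm_num)) ?_
        exact one_le_mul_of_one_le_of_one_le (one_le_mul_of_one_le_of_one_le (x1.trans x3) a1) b1
      · rw [max_eq_left h2]
        exact t5)
  simp only [Finset.univ_unique, Finset.sum_singleton, Fin.sum_univ_three, Matrix.cons_val_zero,
    Matrix.cons_val_one, Matrix.cons_val, Nat.cast_ofNat, Nat.cast_one, one_mul] at h1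
  have := zero_le_logHeight₁ x
  have := zero_le_logHeight₁ a
  have := zero_le_logHeight₁ b
  have : 0 ≤ (totalWeight K : ℝ) * Real.log 3 :=
    mul_nonneg (Nat.cast_nonneg _) (Real.log_nonneg (by norm_num))
  linarith

end Pool.Agent.Lib.MP_651af7_nt.Vj
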