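import Pool.Agent.Lib.MP_651af7_nt.Vj.Dbl

/-! The addition and subtraction polynomials. -/

namespace Pool.Agent.Lib.MP_651af7_nt.Vj

open MvPolynomial Finset Pool.Agent.Lib.Common.Subspace Pool.Agent.Lib.MP_e97e2b_nt

section ring

variable {R S : Type*} [CommRing R] [CommRing S]

theorem map_aD (f : R →+* S) (x : R) (p : R × R × R) : f (aD x p) = aD (f x) (map3 f p) := by
  simp only [aD, map3, map_pow, map_sub, map_mul]

theorem map_aM (f : R →+* S) (a b x y : R) (p : R × R × R) :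
    f (aM a b x y p) = aM (f a) (f b) (f x) (f y) (map3 f p) := by
  simp only [aM, aS, map3, map_pow, map_add, map_mul, map_ofNat]

theorem map_aP (f : R →+* S) (a b x y : R) (p : R × R × R) :
    f (aP a b x y p) = aP (f a) (f b) (f x) (f y) (map3 f p) := by
  simp only [aP, aS, map3, map_pow, map_sub, map_add, map_mul, map_ofNat]

theorem map_aT (f : R →+* S) (a b x : R) (p : R × R × R) :
    f (aT a b x p) = aT (f a) (f b) (f x) (map3 f p) := by
  simp only [aT, map3, map_pow, map_sub, map_add, map_mul, map_ofNat]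

theorem map_fac (f : R →+* S) (a b x y : R) (p : R × R × R) (n : ℕ) (c : Bool) (i : ℕ) :
    f (fac a b x y p n c i) = fac (f a) (f b) (f x) (f y) (map3 f p) n c i := by
  cases c
  · simp only [fac, Bool.false_eq_true, if_false, map_mul, map_pow, map_aM, map_aD]
  · simp only [fac, if_true, map_mul, map_pow, map_aT, map_aP]

theorem aT_mul_aD {a b x y : R} {p : R × R × R} (h : y ^ 2 = x ^ 3 + a * x + b) (hp : OnC a b p) :
    aT a b x p * aD x p = aP a b x y p * aM a b x y p := by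
  unfold OnC at hp
  simp only [aT, aD, aP, aM, aS]
  linear_combination 4 * p.2.2 ^ 2 * h + 4 * (x ^ 3 + a * x + b) * hp

theorem fac_true {a b x y w : R} {p : R × R × R} (h1 : aP a b x y p = w * aD x p)
    (h2 : aT a b x p = w * aM a b x y p) {n i : ℕ} (hi : i ≤ n) :
    fac a b x y p n true i = w ^ n * fac a b x y p n false i := by
  obtain ⟨k, rfl⟩ := Nat.exists_eq_add_of_le hi
  simp only [fac, Bool.false_eq_true, if_false, if_true, h1, h2, Nat.add_sub_cancel_left]
  ring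

theorem fac_false {a b x y w : R} {p : R × R × R} (h1 : aM a b x y p = w * aD x p) {n i : ℕ}
    (hi : i ≤ n) : fac a b x y p n false i = w ^ i * aD x p ^ n := by
  obtain ⟨k, rfl⟩ := Nat.exists_eq_add_of_le hi
  simp only [fac, Bool.false_eq_true, if_false, h1, Nat.add_sub_cancel_left]
  ring

end ring

section poly

variable {σ : Type*} {a b x y : MvPolynomial σ ℚ}
  {p : MvPolynomial σ ℚ × MvPolynomial σ ℚ × MvPolynomial σ ℚ}

/-- Each of `aD, aM, aP, aT` has weight at most `2 (u + W + c)`. -/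
theorem wd_fac {w : σ → ℕ} {c u W : ℕ} (ha : WD w a c) (hb : WD w b c) (hx : WD w x u)
    (hy : WD w y (2 * u)) (h1 : WD w p.1 W) (h2 : WD w p.2.1 W) (h3 : WD w p.2.2 (2 * W))
    {n i : ℕ} (hi : i ≤ n) (e : Bool) : WD w (fac a b x y p n e i) (n * (2 * (u + W + c))) := by
  have e1 : WD w (x * p.2.1 + p.1) (u + W) := (hx.mul h2).add (h1.mono (by omega))
  have eS : WD w (aS a b x p) (2 * (u + W + c)) :=
    ((((hx.mul h1).mul e1).mono (by omega)).add (((ha.mul e1).mul h2).mono (by omega))).add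
      ((((wd_ofNat w 2).mul hb).mul (h2.pow 2)).mono (by omega))
  have eY : WD w (2 * y * p.2.2) (2 * (u + W + c)) :=
    (((wd_ofNat w 2).mul hy).mul h3).mono (by omega)
  have eD : WD w (aD x p) (2 * (u + W + c)) :=
    (((hx.mul h2).mono (by omega)).sub (h1.mono (by omega))).pow 2
  have eT : WD w (aT a b x p) (2 * (u + W + c)) :=
    ((((hx.mul h1).mono (by omega)).sub ((ha.mul h2).mono (by omega))).pow 2).sub
      (((((wd_ofNat w 4).mul hb).mul e1).mul h2).mono (by omega))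
  obtain ⟨k, rfl⟩ := Nat.exists_eq_add_of_le hi
  rw [add_mul]
  cases e
  · simp only [fac, Bool.false_eq_true, if_false, Nat.add_sub_cancel_left]
    exact ((eS.add eY).pow i).mul (eD.pow k)
  · simp only [fac, if_true, Nat.add_sub_cancel_left]
    exact (eT.pow i).mul ((eS.sub eY).pow k)

/-- Each of `aD, aM, aP, aT` has length at most `12 Λ ^ 2 T ^ 2`. -/
theorem il_fac {Λ T : ℝ} (hΛ : 1 ≤ Λ) (ha : IL a Λ) (hb : IL b Λ) (hx : IL x 1) (hy : IL y 1)
    (h1 : IL p.1 T) (h2 : IL p.2.1 T) (h3 : IL p.2.2 (T ^ 2)) {n i : ℕ} (hi : i ≤ n) (e : Bool) :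
    IL (fac a b x y p n e i) ((12 * Λ ^ 2 * T ^ 2) ^ n) := by
  have hT : 0 ≤ T ^ 2 := sq_nonneg T
  have k1 : T ^ 2 ≤ Λ * T ^ 2 := le_mul_of_one_le_left hT hΛ
  have k2 : Λ * T ^ 2 ≤ Λ ^ 2 * T ^ 2 :=
    mul_le_mul_of_nonneg_right (by nlinarith) hT
  have e1 : IL (x * p.2.1 + p.1) (1 * T + T) := (hx.mul h2).add h1
  have eS : IL (aS a b x p) _ :=
    (((hx.mul h1).mul e1).add ((ha.mul e1).mul h2)).add (((il_ofNat 2).mul hb).mul (h2.pow 2))
  have eY : IL (2 * y * p.2.2) _ := ((il_ofNat 2).mul hy).mul h3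
  have eM : IL (aM a b x y p) (12 * Λ ^ 2 * T ^ 2) := (eS.add eY).mono (by nlinarith)
  have eP : IL (aP a b x y p) (12 * Λ ^ 2 * T ^ 2) := (eS.sub eY).mono (by nlinarith)
  have eD : IL (aD x p) (12 * Λ ^ 2 * T ^ 2) :=
    (((hx.mul h2).sub h1).pow 2).mono (by nlinarith)
  have eT : IL (aT a b x p) (12 * Λ ^ 2 * T ^ 2) :=
    ((((hx.mul h1).sub (ha.mul h2)).pow 2).sub ((((il_ofNat 4).mul hb).mul e1).mul h2)).mono
      (by nlinarith)
  obtain ⟨k, rfl⟩ := Nat.exists_eq_add_of_le hi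
  rw [pow_add]
  cases e
  · simp only [fac, Bool.false_eq_true, if_false, Nat.add_sub_cancel_left]
    exact (eM.pow i).mul (eD.pow k)
  · simp only [fac, if_true, Nat.add_sub_cancel_left]
    exact (eT.pow i).mul (eP.pow k)

end poly

section field

variable {F : Type} [Field F] [CharZero F] {a b x y : F} {p : F × F × F}

omit [CharZero F] in
private theorem addsub_sub {X Y : F} (h : NS a b x y) (h' : NS a b X Y) (hX : p.1 = X * p.2.1)
    (hY : p.2.2 = Y * p.2.1 ^ 2) (hD : aD x p ≠ 0) :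
    ∃ y' h'', pt x y h - pt X Y h' = pt (aM a b x y p / aD x p) y' h'' := by
  have hne : ¬(x = X ∧ y = - -Y) := by
    rintro ⟨e, -⟩
    apply hD
    rw [aD, hX, e]
    ring
  obtain ⟨l, e₁, e₂⟩ := exists_lam h h'.neg hne
  obtain ⟨h₃, e⟩ := add_char h h'.neg hne e₁ e₂
  have k : aM a b x y p / aD x p = l ^ 2 - x - X := by
    rw [div_eq_iff hD]
    simp only [aM, aS, aD]
    rw [hX, hY]
    linear_combination (-p.2.1 ^ 2) * (h.1 + h'.1) -
      p.2.1 ^ 2 * (l * (x - X) + (y + Y)) * e₁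
  rw [sub_eq_add_neg, neg_pt, e, k]
  exact ⟨_, h₃, rfl⟩

private theorem addsub_add {X Y : F} (h : NS a b x y) (hB : p.2.1 ≠ 0) (h' : NS a b X Y)
    (hX : p.1 = X * p.2.1) (hY : p.2.2 = Y * p.2.1 ^ 2) {x' y' : F} {h'' : NS a b x' y'}
    (hs : pt x y h + pt X Y h' = pt x' y' h'') :
    aP a b x y p = x' * aD x p ∧ aT a b x p = x' * aM a b x y p ∧
      (aD x p ≠ 0 ∨ aM a b x y p ≠ 0) := by
  have hne : ¬(x = X ∧ y = -Y) := fun e =>
    pt_ne_zero h'' (hs.symm.trans (add_neg_case h h' e.1 e.2))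
  obtain ⟨l, e₁, e₂⟩ := exists_lam h h' hne
  obtain ⟨h₃, e⟩ := add_char h h' hne e₁ e₂
  have hx' : x' = l ^ 2 - x - X := (pt_inj.1 (hs.symm.trans e)).1
  have hp : OnC a b p := by
    rw [OnC, hX, hY]
    linear_combination p.2.1 ^ 4 * h'.1
  have k : aP a b x y p = x' * aD x p := by
    simp only [aP, aS, aD]
    rw [hx', hX, hY]
    linear_combination (-p.2.1 ^ 2) * (h.1 + h'.1) -
      p.2.1 ^ 2 * (l * (x - X) + (y - Y)) * e₁
  by_cases hD : aD x p = 0
  · have h0 : (x - X) * p.2.1 = 0 := by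
      have := pow_eq_zero_iff (two_ne_zero) |>.1 hD
      rw [hX] at this
      linear_combination this
    have hx : x = X := sub_eq_zero.1 ((mul_eq_zero.1 h0).resolve_right hB)
    subst hx
    have hy : y = Y := by linear_combination -e₁
    subst hy
    have hy0 : y ≠ 0 := fun e0 => hne ⟨rfl, by rw [e0, neg_zero]⟩
    have kM : aM a b x y p = 4 * y ^ 2 * p.2.1 ^ 2 := by
      simp only [aM, aS]
      rw [hX, hY]
      linear_combination (-2 * p.2.1 ^ 2) * h.1
    refine ⟨k, ?_, Or.inr ?_⟩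
    · rw [kM, hx', aT, hX]
      linear_combination (-p.2.1 ^ 2) * (l * (y + y) + (x ^ 2 + x * x + x ^ 2 + a)) * e₂ +
        8 * x * p.2.1 ^ 2 * h.1
    · rw [kM]
      exact mul_ne_zero (mul_ne_zero (by norm_num) (pow_ne_zero 2 hy0)) (pow_ne_zero 2 hB)
  · refine ⟨k, mul_right_cancel₀ hD ?_, Or.inl hD⟩
    rw [aT_mul_aD h.1 hp, k]
    ring

/-- The difference of two points with distinct first coordinates (`neg_pt`, `add_char`). -/
theorem sub_pt (h : NS a b x y) (hB : p.2.1 ≠ 0) (h' : NS a b (p.1 / p.2.1) (p.2.2 / p.2.1 ^ 2))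
    (hD : aD x p ≠ 0) : ∃ y' h'', pt x y h - pt _ _ h' = pt (aM a b x y p / aD x p) y' h'' := by
  have hX : p.1 = p.1 / p.2.1 * p.2.1 := by field_simp
  have hY : p.2.2 = p.2.2 / p.2.1 ^ 2 * p.2.1 ^ 2 := by field_simp
  exact addsub_sub h h' hX hY hD

/-- The sum.  If `aD x p = 0` the two points are equal, `aM = 4 y ^ 2 B ^ 2 ≠ 0`, `aP = 0`. -/
theorem add_pt (h : NS a b x y) (hB : p.2.1 ≠ 0) (h' : NS a b (p.1 / p.2.1) (p.2.2 / p.2.1 ^ 2))
    {x' y' : F} {h'' : NS a b x' y'} (hs : pt x y h + pt _ _ h' = pt x' y' h'') :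
    aP a b x y p = x' * aD x p ∧ aT a b x p = x' * aM a b x y p ∧
      (aD x p ≠ 0 ∨ aM a b x y p ≠ 0) := by
  have hX : p.1 = p.1 / p.2.1 * p.2.1 := by field_simp
  have hY : p.2.2 = p.2.2 / p.2.1 ^ 2 * p.2.1 ^ 2 := by field_simp
  exact addsub_add h hB h' hX hY hs

end field

/-- Divide by the unit (`PowerSeries.isUnit_iff_constantCoeff`, or `u⁻¹` over a field). -/
theorem exists_series_quot {K : Type*} [Field K] {d m q t : PowerSeries K} {x' : K}
    (h : t * d = q * m)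
    (h1 : PowerSeries.constantCoeff q = x' * PowerSeries.constantCoeff d)
    (h2 : PowerSeries.constantCoeff t = x' * PowerSeries.constantCoeff m)
    (h3 : PowerSeries.constantCoeff d ≠ 0 ∨ PowerSeries.constantCoeff m ≠ 0) :
    ∃ w : PowerSeries K, PowerSeries.constantCoeff w = x' ∧ q = w * d ∧ t = w * m := by
  rcases h3 with h3 | h3
  · have hd : d ≠ 0 := fun e => h3 (by rw [e, map_zero])
    have e : q = q * d⁻¹ * d := by
      rw [mul_assoc, PowerSeries.inv_mul_cancel d h3, mul_one]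
    refine ⟨q * d⁻¹, ?_, e, mul_right_cancel₀ hd ?_⟩
    · rw [map_mul, PowerSeries.constantCoeff_inv, h1]
      field_simp
    · rw [h]
      linear_combination m * e
  · have hm : m ≠ 0 := fun e => h3 (by rw [e, map_zero])
    have e : t = t * m⁻¹ * m := by
      rw [mul_assoc, PowerSeries.inv_mul_cancel m h3, mul_one]
    refine ⟨t * m⁻¹, ?_, mul_right_cancel₀ hm ?_, e⟩
    · rw [map_mul, PowerSeries.constantCoeff_inv, h2]
      field_simp
    · rw [← h]
      linear_combination d * e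

end Pool.Agent.Lib.MP_651af7_nt.Vj
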