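import Pool.Agent.Lib.MP_651af7_nt.Vj.Hts
import Pool.Agent.Lib.Common.ZeroLemma.Elim

/-! Points where the curve is singular for the projection have small height. -/

namespace Pool.Agent.Lib.MP_651af7_nt.Vj

open MvPolynomial Finset Height Pool.Agent.Lib.Common.Subspace

theorem il_pderiv {σ : Type*} {p : MvPolynomial σ ℚ} {T : ℝ} (hp : IL p T) (t : σ) {B : ℕ}
    (hB : ∀ μ ∈ p.support, μ t ≤ B) : IL (pderiv t p) (B * T) := by
  have h := il_sum p.support (f := fun μ => pderiv t (monomial μ (coeff μ p)))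
    (t := fun μ => B * |((coeff μ p : ℚ) : ℝ)|) fun μ hμ => by
      obtain ⟨z, hz⟩ := hp.1 μ
      have h1 := (il_intCast (σ := σ) (z * μ t)).mul (il_monomial_one (μ - Finsupp.single t 1))
      rw [C_mul_monomial, mul_one, mul_one] at h1
      rw [pderiv_monomial, hz]
      push_cast at h1 ⊢
      refine h1.mono ?_
      rw [abs_mul, mul_comm, Nat.abs_cast]
      exact mul_le_mul_of_nonneg_right (Nat.cast_le.2 (hB μ hμ)) (abs_nonneg _)
  rw [← map_sum, ← p.as_sum, ← Finset.mul_sum, ← len_eq] at h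
  exact h.mono (mul_le_mul_of_nonneg_left hp.2 (Nat.cast_nonneg _))

theorem supp_pderiv {σ : Type*} (p : MvPolynomial σ ℚ) (t : σ) :
    ∀ ν ∈ (pderiv t p).support, ν + Finsupp.single t 1 ∈ p.support := by
  intro ν hν
  rw [mem_support_iff, coeff_pderiv] at hν
  exact mem_support_iff.2 (left_ne_zero_of_mul hν)

theorem pderiv_ne_zero {σ : Type*} {p : MvPolynomial σ ℚ} {t : σ} (h : 1 ≤ degreeOf t p) :
    pderiv t p ≠ 0 := by
  have h1 := (degreeOf_lt_iff (n := t) (f := p) one_pos).not.1 h.not_gt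
  push Not at h1
  obtain ⟨μ, hμ, h2⟩ := h1
  intro e
  have h3 := coeff_pderiv (i := t) p (μ - Finsupp.single t 1)
  rw [e, coeff_zero, tsub_add_cancel_of_le (Finsupp.single_le_iff.2 h2)] at h3
  exact mul_ne_zero (mem_support_iff.1 hμ) (Nat.cast_add_one_ne_zero _) h3.symm

/-- An irreducible polynomial does not divide its nonzero derivative
(`degreeOf_mul_eq` in a domain, or `elToP`). -/
theorem not_dvd_pderiv {σ : Type*} {p : MvPolynomial σ ℚ} {t : σ} (h : 1 ≤ degreeOf t p) :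
    ¬p ∣ pderiv t p := by
  rintro ⟨r, hr⟩
  have h0 := pderiv_ne_zero h
  have h1 : degreeOf t (pderiv t p) < degreeOf t p := by
    refine (degreeOf_lt_iff h).2 fun ν hν => ?_
    have := monomial_le_degreeOf t (supp_pderiv p t ν hν)
    rwa [Finsupp.add_apply, Finsupp.single_eq_same] at this
  rw [hr] at h0 h1
  rw [degreeOf_mul_eq (left_ne_zero_of_mul h0) (right_ne_zero_of_mul h0)] at h1
  omega

variable {K : Type*} [Field K] [AdmissibleAbsValues K] [CharZero K]

/-- `elim_one` with `S = ℚ[x, x'] ⧸ (φ)` (a domain: `φ` is prime), `ev` the quotient map,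
`G = pderiv 1 φ`, gives `N ≠ 0` free of the variable `1` with `N ∈ (φ, G)`, so `N (x) = 0`, and
`len N ≤ T ^ B * (B * T + 1) ^ B ≤ ((B + 1) * T) ^ (2 * B)`; then `height_root_le`. -/
theorem height_le_of_sing {φ : MvPolynomial (Fin 2) ℚ} (hi : Irreducible φ) {T : ℝ} (hφ : IL φ T)
    {B : ℕ} (hB : ∀ i, degreeOf i φ ≤ B) (h1 : 1 ≤ degreeOf 1 φ) {x x' : K}
    (h0 : aeval ![x, x'] φ = 0) (hs : aeval ![x, x'] (pderiv 1 φ) = 0) :
    logHeight₁ x ≤ totalWeight K * (2 * B * Real.log ((B + 1) * T)) := by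
  have hprime : (Ideal.span {φ}).IsPrime := (Ideal.span_singleton_prime hi.ne_zero).2 hi.prime
  have hd : ∀ μ ∈ φ.support, ∀ s, μ s ≤ B := fun μ hμ s =>
    (monomial_le_degreeOf s hμ).trans (hB s)
  have hG := il_pderiv hφ 1 fun μ hμ => hd μ hμ 1
  have hne : Ideal.Quotient.mk (Ideal.span {φ}) (pderiv 1 φ) ≠ 0 := fun e =>
    not_dvd_pderiv h1 (Ideal.mem_span_singleton.1 (Ideal.Quotient.eq_zero_iff_mem.1 e))
  obtain ⟨N, hN, hN0, ⟨c, hc⟩, hN1, -, hlen⟩ := Common.ZeroLemma.elim_one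
    (Ideal.Quotient.mk (Ideal.span {φ})) 1 hφ.1 hG.1 (fun _ => B) (fun _ => B) hd
    (fun ν hν s => le_trans (by simp) (hd _ (supp_pderiv φ 1 ν hν) s))
    (Ideal.Quotient.eq_zero_iff_mem.2 (Ideal.mem_span_singleton_self φ)) hne hne
  obtain ⟨c, rfl⟩ := Ideal.Quotient.mk_surjective c
  rw [← map_mul, Ideal.Quotient.eq, Ideal.mem_span_singleton] at hc
  obtain ⟨d, hc⟩ := hc
  have hz : aeval ![x, x'] N = 0 := by
    rw [eq_add_of_sub_eq hc, map_add, map_mul, map_mul, h0, hs, zero_mul, zero_mul, add_zero]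
  have hT : 1 ≤ T := (one_le_len hφ.1 hi.ne_zero).trans hφ.2
  have hB0 : (0 : ℝ) ≤ B := Nat.cast_nonneg B
  have hl : len N ≤ ((B + 1) * T) ^ (2 * B) := by
    rw [two_mul, pow_add]
    refine hlen.trans (mul_le_mul (pow_le_pow_left₀ (len_nonneg _) (hφ.2.trans ?_) _)
      (pow_le_pow_left₀ (by linarith [len_nonneg (pderiv 1 φ)]) ?_ _)
      (pow_nonneg (by linarith [len_nonneg (pderiv 1 φ)]) _) (by positivity))
    · nlinarith
    · linarith [hG.2]
  have h := height_root_le (fun e => hN0 (by rw [e, map_zero])) ⟨hN, hl⟩ 0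
    (fun μ hμ t ht => by rw [Fin.eq_one_of_ne_zero t ht]; exact hN1 μ hμ) _ hz
  rw [Real.log_pow] at h
  push_cast at h
  exact h

/-- If a variable does not occur, the other coordinate is a root (`height_root_le`). -/
theorem height_le_of_degreeOf_eq_zero {φ : MvPolynomial (Fin 2) ℚ} (h0 : φ ≠ 0) {T : ℝ}
    (hφ : IL φ T) {x x' : K} (hz : aeval ![x, x'] φ = 0) {i : Fin 2} (hi : degreeOf i φ = 0) :
    logHeight₁ x ≤ totalWeight K * Real.log T ∨ logHeight₁ x' ≤ totalWeight K * Real.log T := by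
  have h : ∀ μ ∈ φ.support, μ i = 0 := fun μ hμ =>
    Nat.le_zero.1 ((monomial_le_degreeOf i hμ).trans hi.le)
  fin_cases i
  · refine Or.inr (height_root_le h0 hφ 1 (fun μ hμ t ht => ?_) _ hz)
    fin_cases t
    · exact h μ hμ
    · exact absurd rfl ht
  · refine Or.inl (height_root_le h0 hφ 0 (fun μ hμ t ht => ?_) _ hz)
    fin_cases t
    · exact absurd rfl ht
    · exact h μ hμ

end Pool.Agent.Lib.MP_651af7_nt.Vj
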