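import Pool.Agent.Lib.MP_651af7_nt.Vj.Wd

/-! Pseudo-reduction modulo a relation `lc * X t ^ b + ψ`. -/

namespace Pool.Agent.Lib.MP_651af7_nt.Vj

open MvPolynomial Finset Pool.Agent.Lib.Common.Subspace

variable {σ : Type*}

theorem red_il_monomial {φ : MvPolynomial σ ℚ} (hφ : IsInt φ) (μ ν : σ →₀ ℕ) :
    IL (monomial ν (coeff μ φ)) |((coeff μ φ : ℚ) : ℝ)| := by
  obtain ⟨z, hz⟩ := hφ μ
  refine ⟨by rw [hz]; exact isInt_monomial ν z, ?_⟩
  simp [len, nrm_monomial, Finsupp.prod, Rat.AbsoluteValue.real_eq_abs]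

theorem red_monomial_erase (t : σ) (μ : σ →₀ ℕ) (c : ℚ) :
    monomial (μ.erase t) c * X t ^ μ t = monomial μ c := by
  rw [X_pow_eq_monomial, monomial_mul, mul_one, Finsupp.erase_add_single]

theorem red_weight_erase (w : σ → ℕ) (t : σ) (μ : σ →₀ ℕ) :
    Finsupp.weight w μ = Finsupp.weight w (μ.erase t) + μ t * w t := by
  conv_lhs => rw [← Finsupp.erase_add_single t μ]
  rw [map_add, Finsupp.weight_single, smul_eq_mul]

theorem red_constr_apply (f : (σ →₀ ℕ) → MvPolynomial σ ℚ) (p : MvPolynomial σ ℚ) :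
    (basisMonomials σ ℚ).constr ℚ f p = ∑ μ ∈ p.support, coeff μ p • f μ := by
  conv_lhs => rw [p.as_sum]
  rw [map_sum]
  refine Finset.sum_congr rfl fun μ _ => ?_
  have h : (monomial μ (coeff μ p) : MvPolynomial σ ℚ) =
      coeff μ p • (basisMonomials σ ℚ) μ := by
    rw [coe_basisMonomials, smul_monomial, smul_eq_mul, mul_one]
  rw [h, map_smul, Module.Basis.constr_basis]

theorem red_constr_dvd (f : (σ →₀ ℕ) → MvPolynomial σ ℚ) (φ g p : MvPolynomial σ ℚ)
    (h : ∀ μ ∈ p.support, φ ∣ g * monomial μ 1 - f μ) :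
    φ ∣ g * p - (basisMonomials σ ℚ).constr ℚ f p := by
  have h1 : g * p = ∑ μ ∈ p.support, coeff μ p • (g * monomial μ 1) := by
    conv_lhs => rw [p.as_sum]
    rw [Finset.mul_sum]
    refine Finset.sum_congr rfl fun μ _ => ?_
    rw [← mul_smul_comm, smul_monomial, smul_eq_mul, mul_one]
  rw [red_constr_apply, h1, ← Finset.sum_sub_distrib]
  refine Finset.dvd_sum fun μ hμ => ?_
  rw [← smul_sub, smul_eq_C_mul]
  exact (h μ hμ).mul_left _

theorem red_constr_il (f : (σ →₀ ℕ) → MvPolynomial σ ℚ) {p : MvPolynomial σ ℚ} {Λ T : ℝ}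
    (hΛ : 0 ≤ Λ) (h : ∀ μ ∈ p.support, IL (f μ) Λ) (hp : IL p T) :
    IL ((basisMonomials σ ℚ).constr ℚ f p) (Λ * T) := by
  rw [red_constr_apply]
  refine (il_sum p.support (t := fun μ => |((coeff μ p : ℚ) : ℝ)| * Λ) fun μ hμ => ?_).mono ?_
  · rw [smul_eq_C_mul]
    exact (red_il_monomial hp.1 μ 0).mul (h μ hμ)
  · rw [← Finset.sum_mul, ← len_eq, mul_comm]
    exact mul_le_mul_of_nonneg_left hp.2 hΛ

theorem red_constr_supp (f : (σ →₀ ℕ) → MvPolynomial σ ℚ) (p : MvPolynomial σ ℚ) :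
    ∀ ν ∈ ((basisMonomials σ ℚ).constr ℚ f p).support, ∃ μ ∈ p.support, ν ∈ (f μ).support := by
  classical
  intro ν hν
  rw [red_constr_apply] at hν
  obtain ⟨μ, h1, h2⟩ := Finset.mem_biUnion.1 (support_sum hν)
  exact ⟨μ, h1, support_smul h2⟩

theorem red_step (t : σ) {b : ℕ} {lc ψ : MvPolynomial σ ℚ} {Λ : ℝ} (hΛ : 1 ≤ Λ)
    (hlc : IL lc Λ) (hψ : IL ψ Λ) (hlc0 : ∀ μ ∈ lc.support, μ t = 0)
    (hψb : ∀ μ ∈ ψ.support, μ t < b) (p : MvPolynomial σ ℚ) (hp : ∀ μ ∈ p.support, μ t < b) :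
    ∃ q : MvPolynomial σ ℚ, (lc * X t ^ b + ψ ∣ lc * X t * p - q) ∧
      (∀ T, IL p T → IL q (Λ * T)) ∧ (∀ ν ∈ q.support, ν t < b) ∧
      ∀ (w : σ → ℕ) (e D : ℕ), WD w lc e → WD w ψ (b * w t + e) → WD w p D →
        WD w q (D + (w t + e)) := by
  classical
  let f : (σ →₀ ℕ) → MvPolynomial σ ℚ := fun μ =>
    if μ t + 1 < b then lc * monomial (μ + Finsupp.single t 1) 1
    else -(monomial (μ.erase t) 1 * ψ)
  refine ⟨(basisMonomials σ ℚ).constr ℚ f p, red_constr_dvd f _ _ p fun μ hμ => ?_,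
    fun T hT => red_constr_il f (zero_le_one.trans hΛ) (fun μ _ => ?_) hT, fun ν hν => ?_,
    fun w e D h1 h2 h3 ν hν => ?_⟩
  · by_cases h : μ t + 1 < b
    · have : lc * X t * monomial μ 1 - f μ = 0 := by
        simp only [f, if_pos h]
        rw [mul_assoc, X, monomial_mul, mul_one, add_comm, sub_self]
      rw [this]
      exact dvd_zero _
    · have hb : b = μ t + 1 := by
        have := hp μ hμ
        omega
      refine ⟨monomial (μ.erase t) 1, ?_⟩
      simp only [f, if_neg h]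
      rw [← red_monomial_erase t μ 1, hb]
      ring
  · by_cases h : μ t + 1 < b
    · simp only [f, if_pos h]
      simpa using hlc.mul (il_monomial_one _)
    · simp only [f, if_neg h]
      simpa using ((il_monomial_one _).mul hψ).neg
  · obtain ⟨μ, _, h2⟩ := red_constr_supp f p ν hν
    by_cases h : μ t + 1 < b
    · simp only [f, if_pos h] at h2
      obtain ⟨κ, hκ, κ', hκ', rfl⟩ := Finset.mem_add.1 (support_mul _ _ h2)
      rw [mem_singleton.1 (support_monomial_subset hκ')]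
      simpa [hlc0 κ hκ] using h
    · simp only [f, if_neg h, support_neg] at h2
      obtain ⟨κ', hκ', κ, hκ, rfl⟩ := Finset.mem_add.1 (support_mul _ _ h2)
      rw [mem_singleton.1 (support_monomial_subset hκ')]
      simpa using hψb κ hκ
  · obtain ⟨μ, hμ, h4⟩ := red_constr_supp f p ν hν
    have h5 := h3 μ hμ
    by_cases h : μ t + 1 < b
    · simp only [f, if_pos h] at h4
      have h6 := (h1.mul (wd_monomial (w := w) (μ := μ + Finsupp.single t 1) le_rfl 1)) ν h4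
      rw [map_add, Finsupp.weight_single, smul_eq_mul, one_mul] at h6
      omega
    · have hb : b = μ t + 1 := by
        have := hp μ hμ
        omega
      simp only [f, if_neg h] at h4
      have h6 := ((wd_monomial (w := w) (μ := μ.erase t) le_rfl 1).mul h2).neg ν h4
      rw [red_weight_erase w t μ] at h5
      rw [hb, add_mul, one_mul] at h6
      omega

theorem red_pow (t : σ) {b : ℕ} (hb : 1 ≤ b) {lc ψ : MvPolynomial σ ℚ} {Λ : ℝ} (hΛ : 1 ≤ Λ)
    (hlc : IL lc Λ) (hψ : IL ψ Λ) (hlc0 : ∀ μ ∈ lc.support, μ t = 0)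
    (hψb : ∀ μ ∈ ψ.support, μ t < b) (j : ℕ) :
    ∃ q : MvPolynomial σ ℚ, (lc * X t ^ b + ψ ∣ lc ^ j * X t ^ j - q) ∧
      IL q (Λ ^ j) ∧ (∀ ν ∈ q.support, ν t < b) ∧
      ∀ (w : σ → ℕ) (e : ℕ), WD w lc e → WD w ψ (b * w t + e) → WD w q (j * (w t + e)) := by
  induction j with
  | zero =>
    refine ⟨1, by simp, by simpa using il_one, fun ν hν => ?_, fun w e _ _ => by
      simpa using wd_one w⟩
    have h : ν = 0 := mem_singleton.1 (support_monomial_subset (s := 0) (a := (1 : ℚ)) hν)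
    rw [h]
    exact hb
  | succ j ih =>
    obtain ⟨q, h1, h2, h3, h4⟩ := ih
    obtain ⟨r, k1, k2, k3, k4⟩ := red_step t hΛ hlc hψ hlc0 hψb q h3
    refine ⟨r, ?_, ?_, k3, fun w e a1 a2 => ?_⟩
    · have : lc ^ (j + 1) * X t ^ (j + 1) - r =
          lc * X t * (lc ^ j * X t ^ j - q) + (lc * X t * q - r) := by ring
      rw [this]
      exact (h1.mul_left _).add k1
    · rw [pow_succ']
      exact k2 _ h2
    · rw [Nat.succ_mul]
      exact k4 w e _ a1 a2 (h4 w e a1 a2)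

/-- Leading coefficient in the variable `t`: `lc` collects the monomials `μ.erase t` with
`μ t = degreeOf t φ`, `ψ` the monomials with smaller `μ t` (filter the support;
`len_le_of_injOn`, or `elToP`, `el_supp`, `el_sum_len` of `Common/ZeroLemma/Elim`). -/
theorem split_lead (φ : MvPolynomial σ ℚ) (t : σ) (hφ : IsInt φ) (h1 : 1 ≤ degreeOf t φ) :
    ∃ lc ψ : MvPolynomial σ ℚ, φ = lc * X t ^ degreeOf t φ + ψ ∧ lc ≠ 0 ∧ IL lc (len φ) ∧
      IL ψ (len φ) ∧
      (∀ μ ∈ lc.support, μ t = 0 ∧ μ + Finsupp.single t (degreeOf t φ) ∈ φ.support) ∧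
      ∀ μ ∈ ψ.support, μ t < degreeOf t φ ∧ μ ∈ φ.support := by
  classical
  have hle : ∀ μ ∈ φ.support, μ t ≤ degreeOf t φ := fun μ hμ => monomial_le_degreeOf t hμ
  have hψs : ∀ μ ∈ (∑ μ ∈ φ.support.filter (fun μ => ¬ μ t = degreeOf t φ),
      monomial μ (coeff μ φ)).support, μ t < degreeOf t φ ∧ μ ∈ φ.support := by
    intro ν hν
    obtain ⟨μ, h2, h3⟩ := Finset.mem_biUnion.1 (support_sum hν)
    rw [mem_singleton.1 (support_monomial_subset h3)]
    obtain ⟨h4, h5⟩ := Finset.mem_filter.1 h2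
    exact ⟨lt_of_le_of_ne (hle μ h4) h5, h4⟩
  have heq : φ = (∑ μ ∈ φ.support.filter (fun μ => μ t = degreeOf t φ),
      monomial (μ.erase t) (coeff μ φ)) * X t ^ degreeOf t φ +
      ∑ μ ∈ φ.support.filter (fun μ => ¬ μ t = degreeOf t φ), monomial μ (coeff μ φ) := by
    rw [Finset.sum_mul, Finset.sum_congr rfl (g := fun μ => monomial μ (coeff μ φ)),
      Finset.sum_filter_add_sum_filter_not]
    · exact φ.as_sum
    · intro μ hμ
      rw [← (Finset.mem_filter.1 hμ).2, red_monomial_erase]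
  have hlen : ∀ (P : (σ →₀ ℕ) → Prop) [DecidablePred P],
      ∑ μ ∈ φ.support.filter P, |((coeff μ φ : ℚ) : ℝ)| ≤ len φ := by
    intro P _
    rw [len_eq]
    exact Finset.sum_le_sum_of_subset_of_nonneg (Finset.filter_subset _ _)
      fun _ _ _ => abs_nonneg _
  refine ⟨_, _, heq, fun h0 => ?_, ?_, ?_, fun ν hν => ?_, hψs⟩
  · rw [h0, zero_mul, zero_add] at heq
    have h2 : degreeOf t φ < degreeOf t φ := by
      rw [degreeOf_lt_iff h1]
      intro μ hμ
      rw [heq] at hμ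
      exact (hψs μ hμ).1
    exact lt_irrefl _ h2
  · exact (il_sum _ fun μ _ => red_il_monomial hφ μ _).mono (hlen _)
  · exact (il_sum _ fun μ _ => red_il_monomial hφ μ _).mono (hlen _)
  · obtain ⟨μ, h2, h3⟩ := Finset.mem_biUnion.1 (support_sum hν)
    rw [mem_singleton.1 (support_monomial_subset h3)]
    obtain ⟨h4, h5⟩ := Finset.mem_filter.1 h2
    refine ⟨Finsupp.erase_same, ?_⟩
    rw [← h5, Finsupp.erase_add_single]
    exact h4

/-- Pseudo-reduction.  Build `R 0 = 1`, and, writing `R j = c * X t ^ (b - 1) + R'` with `c` free of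
`t` and `R'` of `t`-degree `< b - 1` (so `len c + len R' ≤ len (R j)`),
`R (j + 1) = lc * X t * R' - c * ψ`.  Then `φ ∣ lc ^ j * X t ^ j - R j`, `len (R j) ≤ Λ ^ j`, the
`t`-degree of `R j` is `< b`, every monomial `ν` of `R j` has `weight w ν ≤ j * (w t + e)` under the
two `WD` hypotheses, and `ν s = 0` if `s ≠ t` does not occur in `lc, ψ`.  Put
`π (monomial μ 1) = monomial (μ.erase t) 1 * lc ^ (N - μ t) * R (μ t)` with
`(basisMonomials σ ℚ).constr ℚ`. -/
theorem red (t : σ) {b : ℕ} (hb : 1 ≤ b) {lc ψ : MvPolynomial σ ℚ} {Λ : ℝ} (hΛ : 1 ≤ Λ)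
    (hlc : IL lc Λ) (hψ : IL ψ Λ) (hlc0 : ∀ μ ∈ lc.support, μ t = 0)
    (hψb : ∀ μ ∈ ψ.support, μ t < b) (N : ℕ) :
    ∃ π : MvPolynomial σ ℚ →ₗ[ℚ] MvPolynomial σ ℚ, ∀ p : MvPolynomial σ ℚ,
      (∀ μ ∈ p.support, μ t ≤ N) →
      (lc * X t ^ b + ψ ∣ lc ^ N * p - π p) ∧ (∀ T, IL p T → IL (π p) (Λ ^ N * T)) ∧
      ∀ ν ∈ (π p).support, ν t < b ∧ ∃ μ ∈ p.support,
        (∀ (w : σ → ℕ) (e : ℕ), WD w lc e → WD w ψ (b * w t + e) →
          Finsupp.weight w ν ≤ Finsupp.weight w μ + N * e) ∧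
        ∀ s, s ≠ t → (∀ κ ∈ lc.support, κ s = 0) → (∀ κ ∈ ψ.support, κ s = 0) → ν s = μ s := by
  classical
  choose R h1 h2 h3 h4 using red_pow t hb hΛ hlc hψ hlc0 hψb
  let f : (σ →₀ ℕ) → MvPolynomial σ ℚ := fun μ =>
    monomial (μ.erase t) 1 * (lc ^ (N - μ t) * R (μ t))
  refine ⟨(basisMonomials σ ℚ).constr ℚ f, fun p hp => ⟨red_constr_dvd f _ _ p fun μ hμ => ?_,
    fun T hT => red_constr_il f (pow_nonneg (zero_le_one.trans hΛ) _) (fun μ hμ => ?_) hT,
    fun ν hν => ?_⟩⟩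
  · obtain ⟨k, hk⟩ := Nat.exists_eq_add_of_le (hp μ hμ)
    have : lc ^ N * monomial μ 1 - f μ =
        monomial (μ.erase t) 1 * lc ^ k * (lc ^ μ t * X t ^ μ t - R (μ t)) := by
      simp only [f]
      rw [← red_monomial_erase t μ 1, hk, Nat.add_sub_cancel_left]
      ring
    rw [this]
    exact (h1 _).mul_left _
  · have := (il_monomial_one (μ.erase t)).mul ((hlc.pow (N - μ t)).mul (h2 (μ t)))
    rwa [one_mul, ← pow_add, Nat.sub_add_cancel (hp μ hμ)] at this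
  · obtain ⟨μ, hμ, h5⟩ := red_constr_supp f p ν hν
    obtain ⟨κ', hκ', κ, hκ, rfl⟩ := Finset.mem_add.1 (support_mul _ _ h5)
    rw [mem_singleton.1 (support_monomial_subset hκ')]
    refine ⟨?_, μ, hμ, fun w e a1 a2 => ?_, fun s hs a1 a2 => ?_⟩
    · have b1 : WD (Pi.single t 1) lc 0 := (wd_single_iff t).2 fun κ hκ => (hlc0 κ hκ).le
      have b2 : WD (Pi.single t 1) (R (μ t)) (b - 1) :=
        (wd_single_iff t).2 fun κ hκ => Nat.le_sub_one_of_lt (h3 _ κ hκ)
      have b3 := (wd_single_iff t).1 ((b1.pow (N - μ t)).mul b2) κ hκ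
      simp only [Finsupp.add_apply, Finsupp.erase_same]
      omega
    · have b3 := ((a1.pow (N - μ t)).mul (h4 (μ t) w e a1 a2)) κ hκ
      obtain ⟨k, hk⟩ := Nat.exists_eq_add_of_le (hp μ hμ)
      rw [map_add, red_weight_erase w t μ]
      rw [hk, Nat.add_sub_cancel_left, mul_add] at b3
      rw [hk, add_mul]
      omega
    · have b1 : WD (Pi.single s 1) lc 0 := (wd_single_iff s).2 fun κ hκ => (a1 κ hκ).le
      have b0 : (Pi.single s 1 : σ → ℕ) t = 0 := Pi.single_eq_of_ne hs.symm _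
      have b2 : WD (Pi.single s 1) ψ (b * (Pi.single s 1 : σ → ℕ) t + 0) := by
        rw [b0]
        exact (wd_single_iff s).2 fun κ hκ => (a2 κ hκ).le
      have b3 := (wd_single_iff s).1 ((b1.pow (N - μ t)).mul (h4 (μ t) _ 0 b1 b2)) κ hκ
      rw [b0] at b3
      simp only [Finsupp.add_apply, Finsupp.erase_ne hs]
      omega

end Pool.Agent.Lib.MP_651af7_nt.Vj
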