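import Pool.Agent.Lib.MP_651af7_nt.Vj.Wd

/-! Siegel's lemma for families of integer polynomials. -/

namespace Pool.Agent.Lib.MP_651af7_nt.Vj

open MvPolynomial Finset Pool.Agent.Lib.Common.Subspace

variable {σ : Type*}

/-- Rows `(j, ν)` with `ν ∈ Mon`, entries the integers `coeff ν (q v j)`, of size at most `T`
(`abs_coeff_le_len`); `Int.Matrix.exists_ne_zero_int_vec_norm_le` has exponent `m / (n - m) ≤ 1`.
If there is no row take `c = Pi.single v 1`. -/
theorem sieg {V J : Type*} [Fintype V] [Fintype J] (q : V → J → MvPolynomial σ ℚ)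
    (Mon : Finset (σ →₀ ℕ)) (hq : ∀ v j, (q v j).support ⊆ Mon) {T : ℝ} (hT : 1 ≤ T)
    (hl : ∀ v j, IL (q v j) T) (hcard : 2 * (Fintype.card J * Mon.card) ≤ Fintype.card V)
    (hV : 0 < Fintype.card V) :
    ∃ c : V → ℤ, c ≠ 0 ∧ (∀ j, ∑ v, c v • q v j = 0) ∧
      ∀ v, |(c v : ℝ)| ≤ Fintype.card V * T := by
  classical
  have hV1 : (1 : ℝ) ≤ Fintype.card V := by exact_mod_cast hV
  have hVT : (1 : ℝ) ≤ Fintype.card V * T := one_le_mul_of_one_le_of_one_le hV1 hT
  choose a ha using fun v j ν => (hl v j).1 ν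
  have key : ∀ c : V → ℤ, (∀ (j : J) (ν : Mon), ∑ v, a v j ν * c v = 0) →
      ∀ j, ∑ v, c v • q v j = 0 := by
    intro c hc j
    ext ν
    rw [coeff_sum, coeff_zero]
    by_cases hν : ν ∈ Mon
    · have h1 : ((∑ v, a v j ν * c v : ℤ) : ℚ) = 0 := by exact_mod_cast hc j ⟨ν, hν⟩
      rw [← h1, Int.cast_sum]
      refine sum_congr rfl fun v _ => ?_
      rw [coeff_smul, ha, zsmul_eq_mul, Int.cast_mul, mul_comm]
    · refine sum_eq_zero fun v _ => ?_
      rw [coeff_smul, notMem_support_iff.1 fun h => hν (hq v j h), smul_zero]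
  have hcd : Fintype.card (J × Mon) = Fintype.card J * Mon.card := by
    rw [Fintype.card_prod, Fintype.card_coe]
  rcases Nat.eq_zero_or_pos (Fintype.card (J × Mon)) with h0 | h0
  · obtain ⟨v⟩ := Fintype.card_pos_iff.mp hV
    have := Fintype.card_eq_zero_iff.mp h0
    refine ⟨fun _ => 1, fun h => one_ne_zero (congrFun h v),
      key _ fun j ν => this.elim (j, ν), fun _ => ?_⟩
    rwa [Int.cast_one, abs_one]
  · let _ := Matrix.seminormedAddCommGroup (m := J × Mon) (n := V) (α := ℤ)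
    let A : Matrix (J × Mon) V ℤ := Matrix.of fun r v => a v r.1 r.2
    obtain ⟨c, hc0, hc1, hc2⟩ := Int.Matrix.exists_ne_zero_int_vec_norm_le A (by omega) h0
    refine ⟨c, hc0, key c fun j ν => congrFun hc1 (j, ν), fun v => ?_⟩
    have hA : ‖A‖ ≤ T := by
      refine (Matrix.norm_le_iff (zero_le_one.trans hT)).mpr fun r v => ?_
      have h1 := (abs_coeff_le_len (q v r.1) r.2).trans (hl v r.1).2
      rw [ha, Rat.cast_intCast] at h1
      rw [Int.norm_eq_abs]
      exact h1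
    have h1 : (Fintype.card V : ℝ) * max 1 ‖A‖ ≤ Fintype.card V * T :=
      mul_le_mul_of_nonneg_left (max_le hT hA) (Nat.cast_nonneg _)
    have h2 : (1 : ℝ) ≤ Fintype.card V * max 1 ‖A‖ :=
      one_le_mul_of_one_le_of_one_le hV1 (le_max_left _ _)
    have h3 : (2 : ℝ) * Fintype.card (J × Mon) ≤ Fintype.card V := by
      rw [hcd]
      exact_mod_cast hcard
    have h4 : (0 : ℝ) < Fintype.card (J × Mon) := by exact_mod_cast h0
    have h5 : (Fintype.card (J × Mon) : ℝ) / (Fintype.card V - Fintype.card (J × Mon)) ≤ 1 :=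
      div_le_one_of_le₀ (by linarith) (by linarith)
    rw [← Int.norm_eq_abs]
    refine (norm_le_pi_norm c v).trans (hc2.trans ?_)
    exact (Real.rpow_le_rpow_of_exponent_le h2 h5).trans ((Real.rpow_one _).le.trans h1)

/-- Exponent vectors with `ν s ∈ F s` for all `s` (image of `Fintype.piFinset F` under
`Finsupp.equivFunOnFinite.symm`). -/
theorem exists_box [Fintype σ] (F : σ → Finset ℕ) :
    ∃ Mon : Finset (σ →₀ ℕ), Mon.card = ∏ s, (F s).card ∧ ∀ ν, ν ∈ Mon ↔ ∀ s, ν s ∈ F s := by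
  classical
  refine ⟨(Fintype.piFinset F).map Finsupp.equivFunOnFinite.symm.toEmbedding, ?_, fun ν => ?_⟩
  · rw [card_map, Fintype.card_piFinset]
  · rw [mem_map_equiv, Fintype.mem_piFinset]
    rfl

end Pool.Agent.Lib.MP_651af7_nt.Vj
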