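import Pool.Agent.Lib.MP_651af7_nt.Vj.Wd

/-! Lowering the degree in `u` modulo a plane curve `φ (u, t)`. -/

namespace Pool.Agent.Lib.MP_651af7_nt.Vj

open MvPolynomial Finset Pool.Agent.Lib.Common.Subspace

variable {σ : Type*}

/-- The linear map with prescribed values on the monomials. -/
noncomputable def lowMap (f : (σ →₀ ℕ) → MvPolynomial σ ℚ) :
    MvPolynomial σ ℚ →ₗ[ℚ] MvPolynomial σ ℚ := (basisMonomials σ ℚ).constr ℚ f

theorem lowMap_eq (f : (σ →₀ ℕ) → MvPolynomial σ ℚ) (p : MvPolynomial σ ℚ) :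
    lowMap f p = ∑ μ ∈ p.support, C (coeff μ p) * f μ := by
  conv_lhs => rw [p.as_sum, map_sum]
  refine Finset.sum_congr rfl fun μ _ => ?_
  have h1 : (monomial μ (coeff μ p) : MvPolynomial σ ℚ) = coeff μ p • basisMonomials σ ℚ μ := by
    rw [coe_basisMonomials, smul_monomial, smul_eq_mul, mul_one]
  rw [h1, map_smul, lowMap, Module.Basis.constr_basis, smul_eq_C_mul]

theorem lowMap_dvd {f : (σ →₀ ℕ) → MvPolynomial σ ℚ} {φ a : MvPolynomial σ ℚ}
    (h : ∀ μ, φ ∣ a * monomial μ 1 - f μ) (p : MvPolynomial σ ℚ) : φ ∣ a * p - lowMap f p := by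
  rw [lowMap_eq]
  conv_rhs => rw [p.as_sum]
  simp only [support_sum_monomial_coeff]
  conv_rhs => enter [1, 2]; rw [p.as_sum]
  rw [Finset.mul_sum, ← Finset.sum_sub_distrib]
  refine Finset.dvd_sum fun μ _ => ?_
  have h1 : a * monomial μ (coeff μ p) - C (coeff μ p) * f μ =
      C (coeff μ p) * (a * monomial μ 1 - f μ) := by
    rw [mul_sub, mul_left_comm, C_mul_monomial, mul_one]
  rw [h1]
  exact (h μ).mul_left _

theorem lowMap_il {f : (σ →₀ ℕ) → MvPolynomial σ ℚ} {Λ T : ℝ} (h : ∀ μ, IL (f μ) Λ)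
    {p : MvPolynomial σ ℚ} (hp : IL p T) : IL (lowMap f p) (Λ * T) := by
  rw [lowMap_eq]
  refine (il_sum (t := fun μ => |((coeff μ p : ℚ) : ℝ)| * Λ) _ fun μ _ => ?_).mono ?_
  · obtain ⟨z, hz⟩ := hp.1 μ
    rw [hz]
    simpa using (il_intCast z).mul (h μ)
  · rw [← Finset.sum_mul, ← len_eq, mul_comm]
    exact mul_le_mul_of_nonneg_left hp.2 (h 0).nonneg

theorem lowMap_supp {f : (σ →₀ ℕ) → MvPolynomial σ ℚ} {p : MvPolynomial σ ℚ} {ν : σ →₀ ℕ}
    (h : ν ∈ (lowMap f p).support) : ∃ μ ∈ p.support, ν ∈ (f μ).support := by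
  rw [lowMap_eq, mem_support_iff, coeff_sum] at h
  obtain ⟨μ, hμ, h1⟩ := Finset.exists_ne_zero_of_sum_ne_zero h
  rw [coeff_C_mul] at h1
  exact ⟨μ, hμ, mem_support_iff.2 (right_ne_zero_of_mul h1)⟩

theorem low_weight {u t : σ} (hut : u ≠ t) {w : σ → ℕ} (hwu : w u = 0) (hwt : w t = 1)
    {κ : σ →₀ ℕ} (h : ∀ s, s ≠ u → s ≠ t → κ s = 0) : Finsupp.weight w κ = κ t := by
  have h1 : κ = Finsupp.single u (κ u) + Finsupp.single t (κ t) := by
    ext s
    by_cases hu : s = u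
    · subst hu
      simp [Finsupp.single_eq_of_ne hut]
    · by_cases ht : s = t
      · subst ht
        simp [Finsupp.single_eq_of_ne hu]
      · simp [Finsupp.single_eq_of_ne hu, Finsupp.single_eq_of_ne ht, h s hu ht]
  conv_lhs => rw [h1]
  simp [Finsupp.weight_single, hwu, hwt]

/-- Let `μ₀` be the monomial of `φ` that maximises `(μ u, μ t)` lexicographically (it is unique as
`φ` contains only `u, t`), `α = μ₀ u`, `β = μ₀ t`, `c₀` its coefficient, `γ = degreeOf t φ - β`.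
Call `μ` reducible if `α ≤ μ u`, `β ≤ μ t`, `weight w μ + γ ≤ D`.  For reducible `μ`,
`c₀ X^μ ≡ - ∑_{κ ≠ μ₀} φ_κ X^(μ - μ₀ + κ)` modulo `φ`, the new monomials have `w`-weight `≤ D` and
smaller rank `r μ = μ u * (D + 1) + μ t` (note `μ t ≤ weight w μ ≤ D`).  Strong induction on the rank
gives `q μ` with `φ ∣ C (c₀ ^ r μ) * X^μ - q μ`, `IL (q μ) (Λ ^ r μ)`, all monomials of `q μ` not
reducible.  Take `c = c₀ ^ M`, `M = (d + 1) * (D + 1)`, `lam (X^μ) = c₀ ^ (M - r μ) • q μ`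
(`0` if `μ` is outside the box), `|c₀| ≤ Λ`. -/
theorem low {u t : σ} (hut : u ≠ t) {φ : MvPolynomial σ ℚ} (h0 : φ ≠ 0) {Λ : ℝ} (hφ : IL φ Λ)
    {B : ℕ} (hB : ∀ μ ∈ φ.support, μ u ≤ B ∧ μ t ≤ B ∧ ∀ s, s ≠ u → s ≠ t → μ s = 0)
    (w : σ → ℕ) (hwu : w u = 0) (hwt : w t = 1) (d D : ℕ) :
    ∃ (c : ℤ) (β γ : ℕ) (lam : MvPolynomial σ ℚ →ₗ[ℚ] MvPolynomial σ ℚ), c ≠ 0 ∧ β + γ ≤ B ∧
      ∀ p : MvPolynomial σ ℚ, (∀ μ ∈ p.support, μ u ≤ d) → WD w p D →
      (φ ∣ C (c : ℚ) * p - lam p) ∧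
      (∀ T, IL p T → IL (lam p) (Λ ^ ((d + 1) * (D + 1)) * T)) ∧
      ∀ ν ∈ (lam p).support, Finsupp.weight w ν ≤ D ∧
        (ν u < B ∨ ν t < β ∨ D < Finsupp.weight w ν + γ) ∧
        ∃ μ ∈ p.support, ν u ≤ μ u ∧ ∀ s, s ≠ u → s ≠ t → ν s = μ s := by
  classical
  obtain ⟨μ₀, hμ₀, hmax⟩ := Finset.exists_max_image φ.support (fun μ => toLex (μ u, μ t))
    (support_nonempty.2 h0)
  obtain ⟨c₀, hc₀⟩ := hφ.1 μ₀
  have hc0 : c₀ ≠ 0 := by
    rintro rfl
    exact mem_support_iff.1 hμ₀ (by simpa using hc₀)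
  obtain ⟨hα, hβ, hz⟩ := hB μ₀ hμ₀
  set ψ : MvPolynomial σ ℚ := φ - monomial μ₀ (c₀ : ℚ) with hψ
  have hψs : ∀ κ ∈ ψ.support, κ ≠ μ₀ ∧ coeff κ ψ = coeff κ φ := by
    intro κ hκ
    have h1 : κ ≠ μ₀ := by
      rintro rfl
      exact mem_support_iff.1 hκ (by simp [hψ, hc₀])
    exact ⟨h1, by simp [hψ, coeff_monomial, h1.symm]⟩
  have hψl : IL ψ Λ := ⟨by
      rw [hψ, sub_eq_add_neg]
      exact hφ.1.add (isInt_monomial _ _).neg,
    (len_le_of_injOn ψ φ id (Set.injOn_id _) fun κ hκ => (hψs κ hκ).2).trans hφ.2⟩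
  have hcl : |(c₀ : ℝ)| ≤ Λ := by
    have := (abs_coeff_le_len φ μ₀).trans hφ.2
    rw [hc₀] at this
    simpa using this
  let R : (σ →₀ ℕ) → Prop := fun μ => μ₀ ≤ μ ∧ Finsupp.weight w μ + (B - μ₀ t) ≤ D
  let f : (σ →₀ ℕ) → MvPolynomial σ ℚ := fun μ =>
    if R μ then -(monomial (μ - μ₀) 1 * ψ) else C (c₀ : ℚ) * monomial μ 1
  have f1 : ∀ μ, φ ∣ C (c₀ : ℚ) * monomial μ 1 - f μ := by
    intro μ
    simp only [f]
    split_ifs with h
    · refine ⟨monomial (μ - μ₀) 1, ?_⟩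
      rw [hψ, sub_neg_eq_add, mul_sub, monomial_mul, tsub_add_cancel_of_le h.1, C_mul_monomial,
        mul_one, one_mul, mul_comm φ]
      ring
    · simp
  have f2 : ∀ μ, IL (f μ) Λ := by
    intro μ
    simp only [f]
    split_ifs with h
    · simpa using ((il_monomial_one (μ - μ₀)).mul hψl).neg
    · exact ((il_intCast c₀).mul (il_monomial_one μ)).mono (by simpa using hcl)
  have hwt' : ∀ ν : σ →₀ ℕ, ν t ≤ Finsupp.weight w ν := fun ν => by
    simpa [hwt] using apply_mul_le_weight w ν t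
  have f3 : ∀ μ ν, ν ∈ (f μ).support → (¬ R μ ∧ ν = μ) ∨ (R μ ∧ Finsupp.weight w ν ≤ D ∧
      ν u * (D + 1) + ν t < μ u * (D + 1) + μ t ∧ ν u ≤ μ u ∧
      ∀ s, s ≠ u → s ≠ t → ν s = μ s) := by
    intro μ ν hν
    simp only [f] at hν
    split_ifs at hν with h
    · refine Or.inr ⟨h, ?_⟩
      rw [support_neg] at hν
      obtain ⟨a, ha, κ, hκ, rfl⟩ := Finset.mem_add.1 (support_mul _ _ hν)
      obtain ⟨μ', rfl⟩ := exists_add_of_le h.1
      rw [add_tsub_cancel_left] at ha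
      obtain rfl := mem_singleton.1 (support_monomial_subset ha)
      obtain ⟨k1, k2⟩ := hψs κ hκ
      have k3 : κ ∈ φ.support := mem_support_iff.2 (k2 ▸ mem_support_iff.1 hκ)
      obtain ⟨-, k4, k5⟩ := hB κ k3
      have k6 := Prod.Lex.toLex_le_toLex.1 (hmax κ k3)
      have k7 : κ u = μ₀ u → κ t ≠ μ₀ t := fun e1 e2 => k1 (Finsupp.ext fun s => by
        by_cases hu : s = u
        · rw [hu, e1]
        · by_cases ht : s = t
          · rw [ht, e2]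
          · rw [k5 s hu ht, hz s hu ht])
      have k8 := h.2
      rw [map_add, low_weight hut hwu hwt hz] at k8
      have k9 : Finsupp.weight w (a + κ) ≤ D := by
        rw [map_add, low_weight hut hwu hwt k5]
        omega
      have k10 := (hwt' (a + κ)).trans k9
      simp only [Finsupp.add_apply] at k6 k10 ⊢
      refine ⟨k9, ?_, by omega, fun s hu ht => by rw [k5 s hu ht, hz s hu ht, add_comm]⟩
      rcases k6 with k6 | ⟨e1, e2⟩
      · have : (a u + κ u + 1) * (D + 1) ≤ (μ₀ u + a u) * (D + 1) :=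
          Nat.mul_le_mul_right _ (by omega)
        rw [add_mul _ 1] at this
        omega
      · have := k7 e1
        rw [e1, add_comm (a u)]
        omega
    · rw [C_mul_monomial] at hν
      exact Or.inl ⟨h, mem_singleton.1 (support_monomial_subset hν)⟩
  have key : ∀ (j : ℕ) (p : MvPolynomial σ ℚ), (∀ μ ∈ p.support, μ u ≤ d) → WD w p D →
      (φ ∣ C ((c₀ ^ j : ℤ) : ℚ) * p - (lowMap f ^ j) p) ∧
      (∀ T, IL p T → IL ((lowMap f ^ j) p) (Λ ^ j * T)) ∧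
      ∀ ν ∈ ((lowMap f ^ j) p).support, Finsupp.weight w ν ≤ D ∧
        (R ν → ν u * (D + 1) + ν t + j < (d + 1) * (D + 1)) ∧
        ∃ μ ∈ p.support, ν u ≤ μ u ∧ ∀ s, s ≠ u → s ≠ t → ν s = μ s := by
    intro j p hp hw
    induction j with
    | zero =>
      refine ⟨by simp, fun T hT => by simpa using hT, fun ν hν => ?_⟩
      rw [pow_zero, Module.End.one_apply] at hν
      refine ⟨hw ν hν, fun _ => ?_, ν, hν, le_rfl, fun _ _ _ => rfl⟩
      have h1 := Nat.mul_le_mul_right (D + 1) (hp ν hν)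
      have h2 := (hwt' ν).trans (hw ν hν)
      rw [add_mul d 1]
      omega
    | succ j ih =>
      obtain ⟨i1, i2, i3⟩ := ih
      rw [pow_succ' (lowMap f), Module.End.mul_apply]
      refine ⟨?_, fun T hT => ?_, fun ν hν => ?_⟩
      · have h1 := dvd_add (i1.mul_left (C (c₀ : ℚ))) (lowMap_dvd f1 ((lowMap f ^ j) p))
        rw [mul_sub, sub_add_sub_cancel, ← mul_assoc, ← C_mul] at h1
        rwa [pow_succ', Int.cast_mul]
      · rw [pow_succ', mul_assoc]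
        exact lowMap_il f2 (i2 T hT)
      · obtain ⟨μ, hμ, h1⟩ := lowMap_supp hν
        obtain ⟨a1, a2, κ, hκ, a3, a4⟩ := i3 μ hμ
        rcases f3 μ ν h1 with ⟨b1, rfl⟩ | ⟨b1, b2, b3, b4, b5⟩
        · exact ⟨a1, fun h => absurd h b1, κ, hκ, a3, a4⟩
        · have := a2 b1
          exact ⟨b2, fun _ => by omega, κ, hκ, b4.trans a3,
            fun s hu ht => (b5 s hu ht).trans (a4 s hu ht)⟩
  refine ⟨c₀ ^ ((d + 1) * (D + 1)), μ₀ t, B - μ₀ t, lowMap f ^ ((d + 1) * (D + 1)),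
    pow_ne_zero _ hc0, by omega, fun p hp hw => ?_⟩
  obtain ⟨i1, i2, i3⟩ := key ((d + 1) * (D + 1)) p hp hw
  refine ⟨i1, i2, fun ν hν => ?_⟩
  obtain ⟨a1, a2, a3⟩ := i3 ν hν
  refine ⟨a1, ?_, a3⟩
  by_contra hc
  have h1 : R ν := ⟨fun s => by
    by_cases hu : s = u
    · rw [hu]; omega
    · by_cases ht : s = t
      · rw [ht]; omega
      · rw [hz s hu ht]; exact Nat.zero_le _, by omega⟩
  have := a2 h1
  omega

end Pool.Agent.Lib.MP_651af7_nt.Vj
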