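import Pool.Agent.Lib.MP_651af7_nt.Vj.Red

/-! Iterated pseudo-reduction. -/

namespace Pool.Agent.Lib.MP_651af7_nt.Vj

open MvPolynomial Finset Pool.Agent.Lib.Common.Subspace

variable {σ : Type*}

/-- A relation `lc * X t ^ b + ψ` in the variables of `A`, of degrees at most `B`. -/
structure RedRel (A : Set σ) (B : ℕ) (Λ : ℝ) (t : σ) (b : ℕ) (lc ψ : MvPolynomial σ ℚ) : Prop where
  mem : t ∈ A
  pos : 1 ≤ b
  il_lc : IL lc Λ
  il_ψ : IL ψ Λ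
  lc_t : ∀ μ ∈ lc.support, μ t = 0
  ψ_t : ∀ μ ∈ ψ.support, μ t < b
  lc_deg : ∀ μ ∈ lc.support, ∀ s, μ s ≤ B ∧ (s ∉ A → μ s = 0)
  ψ_deg : ∀ μ ∈ ψ.support, ∀ s, μ s ≤ B ∧ (s ∉ A → μ s = 0)

private theorem red_list_aux (A : Set σ) (B : ℕ) {Λ : ℝ} (hΛ : 1 ≤ Λ) (b : σ → ℕ)
    (lc ψ : σ → MvPolynomial σ ℚ) (l : List σ)
    (hl : l.Pairwise fun s t =>
      s ≠ t ∧ (∀ μ ∈ (lc t).support, μ s = 0) ∧ ∀ μ ∈ (ψ t).support, μ s = 0)
    (h : ∀ t ∈ l, RedRel A B Λ t (b t) (lc t) (ψ t)) (N : ℕ) :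
    ∃ ρ : MvPolynomial σ ℚ →ₗ[ℚ] MvPolynomial σ ℚ, ∀ p : MvPolynomial σ ℚ,
      (∀ μ ∈ p.support, ∀ s ∈ A, μ s ≤ N) →
      (∀ T, IL p T → IL (ρ p) (Λ ^ (l.length * (B + 1) ^ l.length * N) * T)) ∧
      (∀ ν ∈ (ρ p).support, (∀ t ∈ l, ν t < b t) ∧ (∀ s ∈ A, ν s ≤ (B + 1) ^ l.length * N) ∧
        ∃ μ ∈ p.support, ∀ s, (∀ t ∈ l, s ≠ t ∧ (∀ κ ∈ (lc t).support, κ s = 0) ∧
          ∀ κ ∈ (ψ t).support, κ s = 0) → ν s = μ s) ∧
      ∀ (S : Type) [CommRing S] [IsDomain S] (ev : MvPolynomial σ ℚ →+* S),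
        (∀ t ∈ l, ev (lc t * X t ^ b t + ψ t) = 0 ∧ ev (lc t) ≠ 0) → ρ p = 0 → ev p = 0 := by
  classical
  induction l generalizing N with
  | nil =>
    refine ⟨LinearMap.id, fun p hp => ⟨fun T hT => by simpa using hT, fun ν hν => ?_, ?_⟩⟩
    · exact ⟨by simp, fun s hs => by simpa using hp ν hν s hs, ν, hν, fun _ _ => rfl⟩
    · intro S _ _ ev _ h0
      rw [LinearMap.id_apply] at h0
      rw [h0, map_zero]
  | cons t l ih =>
    rw [List.pairwise_cons] at hl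
    have ht := h t List.mem_cons_self
    obtain ⟨ρ, hρ⟩ := ih hl.2 (fun s hs => h s (List.mem_cons_of_mem _ hs)) ((B + 1) * N)
    obtain ⟨π, hπ⟩ := red t ht.pos hΛ ht.il_lc ht.il_ψ ht.lc_t ht.ψ_t N
    refine ⟨ρ ∘ₗ π, fun p hp => ?_⟩
    obtain ⟨a1, a2, a3⟩ := hπ p fun μ hμ => hp μ hμ t ht.mem
    have hb : ∀ ν ∈ (π p).support, ∀ s ∈ A, ν s ≤ (B + 1) * N := by
      intro ν hν s hs
      obtain ⟨-, μ, hμ, h1, -⟩ := a3 ν hν
      have h2 := h1 (Pi.single s 1) B ((wd_single_iff s).2 fun κ hκ => (ht.lc_deg κ hκ s).1)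
        ((wd_single_iff s).2 fun κ hκ => (ht.ψ_deg κ hκ s).1.trans (Nat.le_add_left _ _))
      rw [weight_single_one, weight_single_one] at h2
      have h3 := hp μ hμ s hs
      calc ν s ≤ N + N * B := h2.trans (Nat.add_le_add_right h3 _)
        _ = (B + 1) * N := by ring
    obtain ⟨b1, b2, b3⟩ := hρ (π p) hb
    refine ⟨fun T hT => (b1 _ (a2 T hT)).mono ?_, fun ν hν => ?_, ?_⟩
    · rw [← mul_assoc, ← pow_add]
      refine mul_le_mul_of_nonneg_right (pow_le_pow_right₀ hΛ ?_) hT.nonneg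
      have h1 : N ≤ (B + 1) ^ (l.length + 1) * N :=
        Nat.le_mul_of_pos_left _ (by positivity)
      calc _ ≤ l.length * (B + 1) ^ l.length * ((B + 1) * N) + (B + 1) ^ (l.length + 1) * N :=
            Nat.add_le_add_left h1 _
        _ = _ := by rw [List.length_cons]; ring
    · obtain ⟨c1, c2, μ, hμ, c3⟩ := b2 ν hν
      obtain ⟨d1, μ', hμ', -, d2⟩ := a3 μ hμ
      refine ⟨fun s hs => ?_, fun s hs => (c2 s hs).trans (le_of_eq ?_), μ', hμ', fun s hs => ?_⟩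
      · rcases List.mem_cons.1 hs with rfl | hs
        · rw [c3 s hl.1]
          exact d1
        · exact c1 s hs
      · rw [List.length_cons]
        ring
      · obtain ⟨e1, e2, e3⟩ := hs t List.mem_cons_self
        rw [c3 s fun t' ht' => hs t' (List.mem_cons_of_mem _ ht'), d2 s e1 e2 e3]
    · intro S _ _ ev hev h0
      have h1 := b3 S ev (fun s hs => hev s (List.mem_cons_of_mem _ hs)) h0
      obtain ⟨e1, e2⟩ := hev t List.mem_cons_self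
      obtain ⟨c, hc⟩ := a1
      have h2 := congrArg ev hc
      rw [map_mul, e1, zero_mul, map_sub, h1, sub_zero, map_mul, map_pow] at h2
      exact (mul_eq_zero.1 h2).resolve_left (pow_ne_zero _ e2)

/-- Iterated pseudo-reduction: induction on the list, generalising `N` (after one step all exponents
in `A` are at most `(B + 1) * N`: use `red` with `w = Pi.single s 1`, `e = B`).  Strengthen the last
clause for the induction: `ν s = μ s` for every `s ∉ l` that occurs in no `lc t`, `ψ t`, `t ∈ l`. -/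
theorem red_list (A : Set σ) (B : ℕ) {Λ : ℝ} (hΛ : 1 ≤ Λ) (b : σ → ℕ)
    (lc ψ : σ → MvPolynomial σ ℚ) (l : List σ)
    (hl : l.Pairwise fun s t =>
      s ≠ t ∧ (∀ μ ∈ (lc t).support, μ s = 0) ∧ ∀ μ ∈ (ψ t).support, μ s = 0)
    (h : ∀ t ∈ l, RedRel A B Λ t (b t) (lc t) (ψ t)) (N : ℕ) :
    ∃ ρ : MvPolynomial σ ℚ →ₗ[ℚ] MvPolynomial σ ℚ, ∀ p : MvPolynomial σ ℚ,
      (∀ μ ∈ p.support, ∀ s ∈ A, μ s ≤ N) →
      (∀ T, IL p T → IL (ρ p) (Λ ^ (l.length * (B + 1) ^ l.length * N) * T)) ∧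
      (∀ ν ∈ (ρ p).support, (∀ t ∈ l, ν t < b t) ∧ (∀ s ∈ A, ν s ≤ (B + 1) ^ l.length * N) ∧
        ∃ μ ∈ p.support, ∀ s, s ∉ A → ν s = μ s) ∧
      ∀ (S : Type) [CommRing S] [IsDomain S] (ev : MvPolynomial σ ℚ →+* S),
        (∀ t ∈ l, ev (lc t * X t ^ b t + ψ t) = 0 ∧ ev (lc t) ≠ 0) → ρ p = 0 → ev p = 0 := by
  obtain ⟨ρ, hρ⟩ := red_list_aux A B hΛ b lc ψ l hl h N
  refine ⟨ρ, fun p hp => ?_⟩
  obtain ⟨a1, a2, a3⟩ := hρ p hp
  refine ⟨a1, fun ν hν => ?_, a3⟩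
  obtain ⟨c1, c2, μ, hμ, c3⟩ := a2 ν hν
  refine ⟨c1, c2, μ, hμ, fun s hs => c3 s fun t ht => ⟨?_, ?_, ?_⟩⟩
  · rintro rfl
    exact hs (h s ht).mem
  · exact fun κ hκ => ((h t ht).lc_deg κ hκ s).2 hs
  · exact fun κ hκ => ((h t ht).ψ_deg κ hκ s).2 hs

end Pool.Agent.Lib.MP_651af7_nt.Vj
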