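import Pool.Agent.Lib.MP_651af7_nt.Vj.CvBound
import Pool.Agent.Lib.MP_651af7_nt.Vj.RedL
import Pool.Agent.Lib.MP_651af7_nt.Vj.Low

/-! The reductions in the two blocks of variables. -/

namespace Pool.Agent.Lib.MP_651af7_nt.Vj

open MvPolynomial Finset Pool.Agent.Lib.Common.Subspace

variable {a b a' b' : ℤ} {g : ℕ}

private theorem blk_wd (w : Fin 8 → ℕ) (u : Fin 8) (A B : ℤ) :
    WD w (-(X u ^ 3 + (A : P8) * X u + (B : P8))) (3 * w u) := by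
  refine WD.neg (WD.add (WD.add ((wd_X w u).pow 3) ?_) ((wd_intCast w B).mono (Nat.zero_le _)))
  exact ((wd_intCast w A).mul (wd_X w u)).mono (by omega)

private theorem blk_il (u : Fin 8) {A B : ℤ} (hA : |(A : ℝ)| ≤ 2 ^ g) (hB : |(B : ℝ)| ≤ 2 ^ g) :
    IL (-(X u ^ 3 + (A : P8) * X u + (B : P8))) (2 ^ (g + 2)) := by
  refine (IL.neg (IL.add (IL.add ((il_X u).pow 3) ((il_int hA).mul (il_X u))) (il_int hB))).mono ?_
  have h : (1 : ℝ) ≤ 2 ^ g := one_le_pow₀ one_le_two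
  rw [pow_add, one_pow, mul_one]
  linarith

private theorem blk_supp (u : Fin 8) (A B : ℤ) :
    ∀ μ ∈ (-(X u ^ 3 + (A : P8) * X u + (B : P8))).support, ∀ s, μ s ≤ 3 ∧ (s ≠ u → μ s = 0) := by
  intro μ hμ s
  have h := (wd_single_iff s).1 (blk_wd (Pi.single s 1) u A B) μ hμ
  by_cases hs : s = u
  · subst hs
    rw [Pi.single_eq_same] at h
    exact ⟨h, fun h' => absurd rfl h'⟩
  · rw [Pi.single_eq_of_ne (Ne.symm hs)] at h
    omega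

private theorem blk_one (μ : Fin 8 →₀ ℕ) (hμ : μ ∈ (1 : P8).support) (s : Fin 8) : μ s = 0 := by
  have h : μ = 0 := mem_singleton.1 (support_monomial_subset (s := 0) (a := (1 : ℚ)) hμ)
  rw [h]
  rfl

private theorem blk_crv {u t : Fin 8} (hut : t ≠ u) {A B : ℤ} (hA : |(A : ℝ)| ≤ 2 ^ g)
    (hB : |(B : ℝ)| ≤ 2 ^ g) (w : Fin 8 → ℕ) (hu : w u = 1) (ht : w t = 2) (N : ℕ) :
    ∃ π : P8 →ₗ[ℚ] P8, ∀ p : P8, (∀ μ ∈ p.support, μ t ≤ N) →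
      (∀ (S : Type) [CommRing S] [Algebra ℚ S] (z : Fin 8 → S), z t ^ 2 = z u ^ 3 + A * z u + B →
        aeval z (π p) = aeval z p) ∧
      (∀ T, IL p T → IL (π p) (2 ^ ((g + 2) * N) * T)) ∧
      ∀ ν ∈ (π p).support, ν t < 2 ∧ ∃ μ ∈ p.support,
        Finsupp.weight w ν ≤ Finsupp.weight w μ ∧ ∀ s, s ≠ u → s ≠ t → ν s = μ s := by
  have hΛ : (1 : ℝ) ≤ 2 ^ (g + 2) := one_le_pow₀ one_le_two
  obtain ⟨π, hπ⟩ := red t (b := 2) one_le_two hΛ (il_one.mono hΛ) (blk_il u hA hB)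
    (fun μ hμ => blk_one μ hμ t)
    (fun μ hμ => by rw [(blk_supp u A B μ hμ t).2 hut]; exact two_pos) N
  refine ⟨π, fun p hp => ?_⟩
  obtain ⟨⟨c, hc⟩, h2, h3⟩ := hπ p hp
  refine ⟨fun S _ _ z hz => ?_, fun T hT => by rw [pow_mul]; exact h2 T hT, fun ν hν => ?_⟩
  · have h := congrArg (aeval z) hc
    simp only [map_sub, map_mul, map_add, map_neg, map_pow, aeval_X, map_intCast, one_pow,
      one_mul, hz, add_neg_cancel, zero_mul] at h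
    exact (sub_eq_zero.1 h).symm
  · obtain ⟨k1, μ, hμ, k2, k3⟩ := h3 ν hν
    refine ⟨k1, μ, hμ, ?_, fun s hsu hst => k3 s hst (fun κ hκ => blk_one κ hκ s)
      fun κ hκ => (blk_supp u A B κ hκ s).2 hsu⟩
    simpa using k2 w 0 (wd_one w) ((blk_wd w u A B).mono (by omega))

private theorem blk_inj {u t : Fin 8} (hut : u ≠ t) : Function.Injective ![u, t] := by
  intro i j h
  fin_cases i <;> fin_cases j
  · rfl
  · exact absurd h hut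
  · exact absurd h.symm hut
  · rfl

private theorem blk_ren {u t : Fin 8} (hut : u ≠ t) {φ : MvPolynomial (Fin 2) ℚ} {B : ℕ}
    (hB : ∀ i, degreeOf i φ ≤ B) : ∀ μ ∈ (rename ![u, t] φ).support,
      μ u ≤ B ∧ μ t ≤ B ∧ ∀ s, s ≠ u → s ≠ t → μ s = 0 := by
  intro μ hμ
  obtain ⟨κ, hκ, rfl⟩ := supp_rename _ φ μ hμ
  refine ⟨?_, ?_, fun s hu ht => Finsupp.mapDomain_of_notMem_range _ _ ?_⟩
  · exact (Finsupp.mapDomain_apply (blk_inj hut) κ 0).le.trans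
      ((monomial_le_degreeOf 0 hκ).trans (hB 0))
  · exact (Finsupp.mapDomain_apply (blk_inj hut) κ 1).le.trans
      ((monomial_le_degreeOf 1 hκ).trans (hB 1))
  · rintro ⟨i, hi⟩
    fin_cases i
    · exact hu hi.symm
    · exact ht hi.symm

private theorem blk_aeval {S : Type*} [CommRing S] [Algebra ℚ S] (z : Fin 8 → S) (u t : Fin 8)
    (φ : MvPolynomial (Fin 2) ℚ) : aeval z (rename ![u, t] φ) = aeval ![z u, z t] φ := by
  rw [aeval_rename]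
  congr 2
  funext i
  fin_cases i <;> rfl

/-- Second block: `red` for `t = 5` (`b = 2`, `lc = 1`, `ψ = -(X 4 ^ 3 + a * X 4 + b)`, `N = n`,
`Λ = 3 * 2 ^ g ≤ 2 ^ (g + 2)`, weights `wt 2`, `wt 3` with `e = 0`), the same for `t = 7`, then `low`
with `u = 4`, `t = 6`, `φ = rename ![4, 6] φ₂`, `w = wt 3`, `d = D = 2 n`. -/
theorem blk2 (hg : Cf a b a' b' g) {B : ℕ} {φ₂ : MvPolynomial (Fin 2) ℚ} (h0 : φ₂ ≠ 0) {T₂ : ℝ}
    (hφ : IL φ₂ T₂) (hB : ∀ i, degreeOf i φ₂ ≤ B) (n : ℕ) :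
    ∃ (c₀ : ℤ) (β γ : ℕ) (fl : P8 →ₗ[ℚ] P8), c₀ ≠ 0 ∧ β + γ ≤ B ∧ ∀ p : P8,
      WD (wt 2) p (2 * n) → WD (wt 3) p (2 * n) →
      (∀ (S : Type) [CommRing S] [Algebra ℚ S] (φ₁ : MvPolynomial (Fin 2) ℚ) (z : Fin 8 → S),
        OnV a b a' b' φ₁ φ₂ z → aeval z (fl p) = c₀ * aeval z p) ∧
      (∀ T, IL p T → IL (fl p) (2 ^ (2 * (g + 2) * n) * T₂ ^ (2 * n + 1) ^ 2 * T)) ∧
      ∀ ν ∈ (fl p).support, ν 5 ≤ 1 ∧ ν 7 ≤ 1 ∧ ν 4 + 2 * ν 5 ≤ 2 * n ∧ ν 6 + 2 * ν 7 ≤ 2 * n ∧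
        (ν 4 < B ∨ ν 6 < β ∨ 2 * n < ν 6 + 2 * ν 7 + γ) ∧
        ∃ μ ∈ p.support, ν 0 = μ 0 ∧ ν 1 = μ 1 ∧ ν 2 = μ 2 ∧ ν 3 = μ 3 := by
  obtain ⟨w0, w1, w2, w3⟩ := hg
  obtain ⟨π₅, h5⟩ := blk_crv (u := 4) (t := 5) (by decide) w0 w1 (wt 2) rfl rfl n
  obtain ⟨π₇, h7⟩ := blk_crv (u := 6) (t := 7) (by decide) w2 w3 (wt 3) rfl rfl n
  have h46 : (4 : Fin 8) ≠ 6 := by decide
  obtain ⟨c, β, γ, lam, hc, hβ, hl⟩ := low h46 (φ := rename ![4, 6] φ₂)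
    (fun h => h0 (rename_injective _ (blk_inj h46) (h.trans (map_zero _).symm)))
    (hφ.rename _) (blk_ren h46 hB) (wt 3) rfl rfl (2 * n) (2 * n)
  refine ⟨c, β, γ, lam ∘ₗ π₇ ∘ₗ π₅, hc, hβ, fun p hp2 hp3 => ?_⟩
  obtain ⟨a1, a2, a3⟩ := h5 p fun μ hμ => by
    have := hp2 μ hμ
    rw [(weight_wt μ).2.2.1] at this
    omega
  have a4 : ∀ ν ∈ (π₅ p).support, ν 5 ≤ 1 ∧ ν 4 + 2 * ν 5 ≤ 2 * n ∧ ν 6 + 2 * ν 7 ≤ 2 * n ∧
      ∃ μ ∈ p.support, ν 0 = μ 0 ∧ ν 1 = μ 1 ∧ ν 2 = μ 2 ∧ ν 3 = μ 3 := by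
    intro ν hν
    obtain ⟨k1, μ, hμ, k2, k3⟩ := a3 ν hν
    have k4 := k2.trans (hp2 μ hμ)
    have k5 := hp3 μ hμ
    rw [(weight_wt ν).2.2.1] at k4
    rw [(weight_wt μ).2.2.2, ← k3 6 (by decide) (by decide), ← k3 7 (by decide) (by decide)] at k5
    exact ⟨by omega, k4, k5, μ, hμ, k3 0 (by decide) (by decide), k3 1 (by decide) (by decide),
      k3 2 (by decide) (by decide), k3 3 (by decide) (by decide)⟩
  obtain ⟨b1, b2, b3⟩ := h7 (π₅ p) fun μ hμ => by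
    have := (a4 μ hμ).2.2.1
    omega
  have b4 : ∀ ν ∈ (π₇ (π₅ p)).support, ν 5 ≤ 1 ∧ ν 7 ≤ 1 ∧ ν 4 + 2 * ν 5 ≤ 2 * n ∧
      ν 6 + 2 * ν 7 ≤ 2 * n ∧
      ∃ μ ∈ p.support, ν 0 = μ 0 ∧ ν 1 = μ 1 ∧ ν 2 = μ 2 ∧ ν 3 = μ 3 := by
    intro ν hν
    obtain ⟨k1, κ, hκ, k2, k3⟩ := b3 ν hν
    obtain ⟨l1, l2, l3, μ, hμ, l4, l5, l6, l7⟩ := a4 κ hκ
    rw [(weight_wt ν).2.2.2, (weight_wt κ).2.2.2] at k2
    rw [k3 0 (by decide) (by decide), k3 1 (by decide) (by decide), k3 2 (by decide) (by decide),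
      k3 3 (by decide) (by decide), k3 4 (by decide) (by decide), k3 5 (by decide) (by decide)]
    exact ⟨l1, by omega, l2, k2.trans l3, μ, hμ, l4, l5, l6, l7⟩
  obtain ⟨⟨q, hq⟩, c2, c3⟩ := hl (π₇ (π₅ p)) (fun μ hμ => by
      have := (b4 μ hμ).2.2.1
      omega) fun μ hμ => by
    rw [(weight_wt μ).2.2.2]
    exact (b4 μ hμ).2.2.2.1
  refine ⟨fun S _ _ φ₁ z hz => ?_, fun T hT => (c2 _ (b2 _ (a2 T hT))).mono (le_of_eq ?_),
    fun ν hν => ?_⟩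
  · have h := congrArg (aeval z) hq
    rw [map_mul, blk_aeval, hz.f2, zero_mul, map_sub, map_mul, b1 S z hz.e7, a1 S z hz.e5,
      aeval_C, map_intCast] at h
    exact (sub_eq_zero.1 h).symm
  · ring
  · obtain ⟨k1, k2, κ, hκ, k3, k4⟩ := c3 ν hν
    obtain ⟨l0, l1, l2, l3, μ, hμ, l4, l5, l6, l7⟩ := b4 κ hκ
    rw [(weight_wt ν).2.2.2] at k1 k2
    have e5 := k4 5 (by decide) (by decide)
    have e7 := k4 7 (by decide) (by decide)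
    rw [k4 0 (by decide) (by decide), k4 1 (by decide) (by decide), k4 2 (by decide) (by decide),
      k4 3 (by decide) (by decide)]
    exact ⟨by omega, by omega, by omega, k1, k2, μ, hμ, l4, l5, l6, l7⟩

/-- First block: `red_list` with `A = {0, 1, 2, 3}`, `l = [1, 3, 2]`, degree bound `B + 3`,
`Λ = 2 ^ (g + 2) * T₁`, and `split_lead` for `rename ![0, 2] φ₁` in the variable `2`
(`degreeOf_rename_of_injective`); its leading coefficient contains only the variable `0`. -/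
theorem blk1 (hg : Cf a b a' b' g) {B : ℕ} {φ₁ : MvPolynomial (Fin 2) ℚ} {T₁ : ℝ} (hT : 1 ≤ T₁)
    (hφ : IL φ₁ T₁) (hB : ∀ i, degreeOf i φ₁ ≤ B) (h1 : 1 ≤ degreeOf 1 φ₁) (N : ℕ) :
    ∃ ρ : P8 →ₗ[ℚ] P8, ∀ p : P8,
      (∀ μ ∈ p.support, μ 0 ≤ N ∧ μ 1 ≤ N ∧ μ 2 ≤ N ∧ μ 3 ≤ N) →
      (∀ T, IL p T → IL (ρ p) ((2 ^ (g + 2) * T₁) ^ (3 * (B + 4) ^ 3 * N) * T)) ∧
      (∀ ν ∈ (ρ p).support, ν 0 ≤ (B + 4) ^ 3 * N ∧ ν 1 < 2 ∧ ν 2 < B ∧ ν 3 < 2 ∧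
        ∃ μ ∈ p.support, ν 4 = μ 4 ∧ ν 5 = μ 5 ∧ ν 6 = μ 6 ∧ ν 7 = μ 7) ∧
      ∀ (S : Type) [CommRing S] [IsDomain S] [Algebra ℚ S] (φ₂ : MvPolynomial (Fin 2) ℚ)
        (z : Fin 8 → S), OnV a b a' b' φ₁ φ₂ z →
        (∀ q : P8, q ≠ 0 → (∀ μ ∈ q.support, ∀ t, t ≠ 0 → μ t = 0) → aeval z q ≠ 0) →
        ρ p = 0 → aeval z p = 0 := by
  obtain ⟨w0, w1, w2, w3⟩ := hg
  have h02 : (0 : Fin 8) ≠ 2 := by decide
  have hd : degreeOf 2 (rename ![(0 : Fin 8), 2] φ₁) = degreeOf 1 φ₁ :=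
    degreeOf_rename_of_injective (blk_inj h02) 1
  obtain ⟨lc, ψ, e1, e2, e3, e4, e5, e6⟩ := split_lead (rename ![(0 : Fin 8), 2] φ₁) 2
    (hφ.rename _).1 (hd ▸ h1)
  rw [hd] at e1 e5 e6
  have hr := blk_ren h02 hB
  have hg1 : (1 : ℝ) ≤ 2 ^ (g + 2) := one_le_pow₀ one_le_two
  have hΛ : (1 : ℝ) ≤ 2 ^ (g + 2) * T₁ := one_le_mul_of_one_le_of_one_le hg1 hT
  have hΛ1 : (2 : ℝ) ^ (g + 2) ≤ 2 ^ (g + 2) * T₁ := le_mul_of_one_le_right (by positivity) hT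
  have hΛ2 : len (rename ![(0 : Fin 8), 2] φ₁) ≤ 2 ^ (g + 2) * T₁ :=
    (hφ.rename _).2.trans (le_mul_of_one_le_left (by linarith) hg1)
  have hlc : ∀ μ ∈ lc.support, ∀ s, μ s ≤ B ∧ (s ≠ 0 → μ s = 0) := by
    intro μ hμ s
    obtain ⟨k1, k2⟩ := e5 μ hμ
    obtain ⟨k3, -, k4⟩ := hr _ k2
    by_cases hs : s = 0
    · subst hs
      exact ⟨le_trans (Nat.le_add_right _ _) k3, fun h => absurd rfl h⟩
    · have k5 : μ s = 0 := by
        by_cases hs2 : s = 2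
        · rw [hs2, k1]
        · exact Nat.eq_zero_of_add_eq_zero_right (k4 s hs hs2)
      exact ⟨k5 ▸ Nat.zero_le _, fun _ => k5⟩
  have hψ : ∀ μ ∈ ψ.support, ∀ s, μ s ≤ B ∧ (s ≠ 0 → s ≠ 2 → μ s = 0) := by
    intro μ hμ s
    obtain ⟨k1, k2, k3⟩ := hr _ (e6 μ hμ).2
    refine ⟨?_, k3 s⟩
    by_cases hs : s = 0
    · rw [hs]
      exact k1
    · by_cases hs2 : s = 2
      · rw [hs2]
        exact k2
      · rw [k3 s hs hs2]
        exact Nat.zero_le _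
  have hA : ∀ s : Fin 8, s ∉ ({0, 1, 2, 3} : Set (Fin 8)) → s ≠ 0 ∧ s ≠ 2 := by
    intro s hs
    constructor <;> rintro rfl <;> exact hs (by simp)
  have hc : ∀ (u t : Fin 8) (A A' : ℤ), t ≠ u → t ∈ ({0, 1, 2, 3} : Set (Fin 8)) →
      u ∈ ({0, 1, 2, 3} : Set (Fin 8)) → |(A : ℝ)| ≤ 2 ^ g → |(A' : ℝ)| ≤ 2 ^ g →
      RedRel {0, 1, 2, 3} (B + 3) (2 ^ (g + 2) * T₁) t 2 1 (-(X u ^ 3 + (A : P8) * X u + (A' : P8))) := by
    intro u t A A' hut ht hu k1 k2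
    refine ⟨ht, one_le_two, il_one.mono hΛ, (blk_il u k1 k2).mono hΛ1,
      fun μ hμ => blk_one μ hμ t, fun μ hμ => ?_, fun μ hμ s => ?_, fun μ hμ s => ?_⟩
    · rw [(blk_supp u A A' μ hμ t).2 hut]
      exact two_pos
    · rw [blk_one μ hμ s]
      exact ⟨Nat.zero_le _, fun _ => rfl⟩
    · refine ⟨(blk_supp u A A' μ hμ s).1.trans (Nat.le_add_left _ _), fun hs =>
        (blk_supp u A A' μ hμ s).2 ?_⟩
      rintro rfl
      exact hs hu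
  obtain ⟨ρ, hρ⟩ := red_list ({0, 1, 2, 3} : Set (Fin 8)) (B + 3) hΛ
    ![0, 2, degreeOf 1 φ₁, 2, 0, 0, 0, 0] ![1, 1, lc, 1, 1, 1, 1, 1]
    ![0, -(X 0 ^ 3 + (a : P8) * X 0 + (b : P8)), ψ, -(X 2 ^ 3 + (a' : P8) * X 2 + (b' : P8)), 0, 0, 0, 0]
    [1, 3, 2] (by
      refine List.Pairwise.cons ?_ (List.Pairwise.cons ?_ (List.pairwise_singleton _ _))
      · intro t ht
        rcases List.mem_cons.1 ht with rfl | ht
        · exact ⟨by decide, fun μ hμ => blk_one μ hμ 1,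
            fun μ hμ => (blk_supp 2 a' b' μ hμ 1).2 (by decide)⟩
        · rw [List.mem_singleton.1 ht]
          exact ⟨by decide, fun μ hμ => (hlc μ hμ 1).2 (by decide),
            fun μ hμ => (hψ μ hμ 1).2 (by decide) (by decide)⟩
      · intro t ht
        rw [List.mem_singleton.1 ht]
        exact ⟨by decide, fun μ hμ => (hlc μ hμ 3).2 (by decide),
          fun μ hμ => (hψ μ hμ 3).2 (by decide) (by decide)⟩) (by
      intro t ht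
      rcases List.mem_cons.1 ht with rfl | ht
      · exact hc 0 1 a b (by decide) (by simp) (by simp) w0 w1
      rcases List.mem_cons.1 ht with rfl | ht
      · exact hc 2 3 a' b' (by decide) (by simp) (by simp) w2 w3
      rw [List.mem_singleton.1 ht]
      exact ⟨by simp, h1, e3.mono hΛ2, e4.mono hΛ2, fun μ hμ => (e5 μ hμ).1,
        fun μ hμ => (e6 μ hμ).1,
        fun μ hμ s => ⟨(hlc μ hμ s).1.trans (Nat.le_add_right _ _),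
          fun hs => (hlc μ hμ s).2 (hA s hs).1⟩,
        fun μ hμ s => ⟨(hψ μ hμ s).1.trans (Nat.le_add_right _ _),
          fun hs => (hψ μ hμ s).2 (hA s hs).1 (hA s hs).2⟩⟩) N
  refine ⟨ρ, fun p hp => ?_⟩
  obtain ⟨a1, a2, a3⟩ := hρ p fun μ hμ s hs => by
    obtain ⟨k0, k1, k2, k3⟩ := hp μ hμ
    rcases hs with rfl | rfl | rfl | rfl <;> assumption
  refine ⟨a1, fun ν hν => ?_, fun S _ _ _ φ₂ z hz hq h0 => ?_⟩
  · obtain ⟨k1, k2, μ, hμ, k3⟩ := a2 ν hν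
    exact ⟨k2 0 (by simp), k1 1 (by simp), lt_of_lt_of_le (k1 2 (by simp)) (hB 1), k1 3 (by simp),
      μ, hμ, k3 4 (by simp), k3 5 (by simp), k3 6 (by simp), k3 7 (by simp)⟩
  · refine a3 S (aeval z : P8 →ₐ[ℚ] S).toRingHom (fun t ht => ?_) h0
    rcases List.mem_cons.1 ht with rfl | ht
    · refine ⟨?_, ?_⟩
      · show aeval z ((1 : P8) * X 1 ^ 2 + -(X 0 ^ 3 + (a : P8) * X 0 + (b : P8))) = 0
        simp [hz.e1]
      · show aeval z (1 : P8) ≠ 0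
        simp
    rcases List.mem_cons.1 ht with rfl | ht
    · refine ⟨?_, ?_⟩
      · show aeval z ((1 : P8) * X 3 ^ 2 + -(X 2 ^ 3 + (a' : P8) * X 2 + (b' : P8))) = 0
        simp [hz.e3]
      · show aeval z (1 : P8) ≠ 0
        simp
    rw [List.mem_singleton.1 ht]
    refine ⟨?_, hq lc e2 fun μ hμ s hs => (hlc μ hμ s).2 hs⟩
    show aeval z (lc * X 2 ^ degreeOf 1 φ₁ + ψ) = 0
    rw [← e1, blk_aeval, hz.f1]

/-- The part of a polynomial supported on a set of monomials (`diag` of `Common/Subspace`, or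
`(basisMonomials σ ℚ).constr`). -/
theorem exists_part {σ : Type*} (A : Set (σ →₀ ℕ)) :
    ∃ hi : MvPolynomial σ ℚ →ₗ[ℚ] MvPolynomial σ ℚ, ∀ p : MvPolynomial σ ℚ,
      (∀ ν ∈ (hi p).support, ν ∈ p.support ∧ ν ∈ A) ∧
      (∀ ν ∈ (p - hi p).support, ν ∈ p.support ∧ ν ∉ A) ∧
      ∀ T, IL p T → IL (hi p) T ∧ IL (p - hi p) T := by
  classical
  let f : (σ →₀ ℕ) → MvPolynomial σ ℚ := fun μ => if μ ∈ A then monomial μ 1 else 0
  let f' : (σ →₀ ℕ) → MvPolynomial σ ℚ := fun μ => if μ ∈ A then 0 else monomial μ 1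
  have h0 : IL (0 : MvPolynomial σ ℚ) 1 := il_zero.mono zero_le_one
  refine ⟨lowMap f, fun p => ?_⟩
  have h : p - lowMap f p = lowMap f' p := by
    rw [sub_eq_iff_eq_add, lowMap_eq, lowMap_eq, ← Finset.sum_add_distrib]
    conv_lhs => rw [p.as_sum]
    refine Finset.sum_congr rfl fun μ _ => ?_
    simp only [f, f']
    split_ifs <;> simp [C_mul_monomial]
  rw [h]
  refine ⟨fun ν hν => ?_, fun ν hν => ?_, fun T hT => ⟨?_, ?_⟩⟩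
  · obtain ⟨μ, hμ, h1⟩ := lowMap_supp hν
    simp only [f] at h1
    split_ifs at h1 with h2
    · rw [mem_singleton.1 (support_monomial_subset h1)]
      exact ⟨hμ, h2⟩
    · simp at h1
  · obtain ⟨μ, hμ, h1⟩ := lowMap_supp hν
    simp only [f'] at h1
    split_ifs at h1 with h2
    · simp at h1
    · rw [mem_singleton.1 (support_monomial_subset h1)]
      exact ⟨hμ, h2⟩
  · rw [← one_mul T]
    refine lowMap_il (fun μ => ?_) hT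
    simp only [f]
    split_ifs
    exacts [il_monomial_one μ, h0]
  · rw [← one_mul T]
    refine lowMap_il (fun μ => ?_) hT
    simp only [f']
    split_ifs
    exacts [h0, il_monomial_one μ]

end Pool.Agent.Lib.MP_651af7_nt.Vj
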