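import Pool.Agent.Lib.MP_651af7_nt.Vj.CvDefs

/-! Degrees and lengths of the basic sections. -/

namespace Pool.Agent.Lib.MP_651af7_nt.Vj

open MvPolynomial Finset Pool.Agent.Lib.Common.Subspace

theorem exists_cf (a b a' b' : ℤ) : ∃ g, Cf a b a' b' g := by
  have key : ∀ z : ℤ, ∀ g : ℕ, z.natAbs ≤ g → |(z : ℝ)| ≤ 2 ^ g := by
    intro z g h
    have h1 : (z.natAbs : ℝ) ≤ 2 ^ g := by
      exact_mod_cast (h.trans Nat.lt_two_pow_self.le)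
    rwa [Nat.cast_natAbs, Int.cast_abs] at h1
  exact ⟨a.natAbs + b.natAbs + a'.natAbs + b'.natAbs, key _ _ (by omega), key _ _ (by omega),
    key _ _ (by omega), key _ _ (by omega)⟩

theorem wd_intCast {σ : Type*} (w : σ → ℕ) (z : ℤ) : WD w (z : MvPolynomial σ ℚ) 0 := by
  simpa using wd_C w (z : ℚ)

theorem il_int {σ : Type*} {z : ℤ} {T : ℝ} (h : |(z : ℝ)| ≤ T) : IL (z : MvPolynomial σ ℚ) T := by
  have h1 : IL (z : MvPolynomial σ ℚ) |(z : ℝ)| := by simpa using il_intCast (σ := σ) z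
  exact h1.mono h

theorem weight_wt (μ : Fin 8 →₀ ℕ) :
    Finsupp.weight (wt 0) μ = μ 0 + 2 * μ 1 ∧ Finsupp.weight (wt 1) μ = μ 2 + 2 * μ 3 ∧
      Finsupp.weight (wt 2) μ = μ 4 + 2 * μ 5 ∧ Finsupp.weight (wt 3) μ = μ 6 + 2 * μ 7 := by
  have key : ∀ w : Fin 8 → ℕ, Finsupp.weight w μ = ∑ i, μ i * w i := by
    intro w
    rw [Finsupp.weight_apply, Finsupp.sum_fintype]
    · simp
    · simp
  refine ⟨?_, ?_, ?_, ?_⟩ <;> rw [key] <;> simp [wt, Fin.sum_univ_eight] <;> omega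

/-- `wd_fac`, `wd_mulP` with `c = 0`. -/
theorem wd_Gb (a b a' b' : ℤ) (s : ℕ) {n ν i j l : ℕ} (hi : i ≤ n) (hj : j ≤ n) (hl : l ≤ ν)
    (e : Bool × Bool) (t : Fin 4) :
    WD (wt t) (Gb a b a' b' s n e i j l) (![2 * n * 4 ^ s + ν, 2 * n * 4 ^ s, 2 * n, 2 * n] t) := by
  have key : ∀ w : Fin 8 → ℕ, w 1 = 2 * w 0 → w 3 = 2 * w 2 → w 5 = 2 * w 4 → w 7 = 2 * w 6 →
      WD w (Gb a b a' b' s n e i j l) (n * (2 * (w 4 + 4 ^ s * (w 0 + 0) + 0)) +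
        n * (2 * (w 6 + 4 ^ s * (w 2 + 0) + 0)) + l * w 0) := by
    intro w h1 h3 h5 h7
    obtain ⟨k1, k2, k3⟩ := wd_mulP (wd_intCast w a) (wd_intCast w b) (wd_X w 0)
      (h1 ▸ wd_X w 1) s
    obtain ⟨k4, k5, k6⟩ := wd_mulP (wd_intCast w a') (wd_intCast w b') (wd_X w 2)
      (h3 ▸ wd_X w 3) s
    exact ((wd_fac (wd_intCast w a) (wd_intCast w b) (wd_X w 4) (h5 ▸ wd_X w 5) k1 k2 k3 hi
      e.1).mul (wd_fac (wd_intCast w a') (wd_intCast w b') (wd_X w 6) (h7 ▸ wd_X w 7) k4 k5 k6 hj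
      e.2)).mul ((wd_X w 0).pow l)
  fin_cases t
  · refine (key _ rfl rfl rfl rfl).mono ?_
    show n * (2 * (0 + 4 ^ s * (1 + 0) + 0)) + n * (2 * (0 + 4 ^ s * (0 + 0) + 0)) + l * 1 ≤
      2 * n * 4 ^ s + ν
    have : n * (2 * (0 + 4 ^ s * (1 + 0) + 0)) + n * (2 * (0 + 4 ^ s * (0 + 0) + 0)) + l * 1 =
      2 * n * 4 ^ s + l := by ring
    omega
  · refine (key _ rfl rfl rfl rfl).mono (le_of_eq ?_)
    show n * (2 * (0 + 4 ^ s * (0 + 0) + 0)) + n * (2 * (0 + 4 ^ s * (1 + 0) + 0)) + l * 0 =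
      2 * n * 4 ^ s
    ring
  · refine (key _ rfl rfl rfl rfl).mono (le_of_eq ?_)
    show n * (2 * (1 + 4 ^ s * (0 + 0) + 0)) + n * (2 * (0 + 4 ^ s * (0 + 0) + 0)) + l * 0 = 2 * n
    ring
  · refine (key _ rfl rfl rfl rfl).mono (le_of_eq ?_)
    show n * (2 * (0 + 4 ^ s * (0 + 0) + 0)) + n * (2 * (1 + 4 ^ s * (0 + 0) + 0)) + l * 0 = 2 * n
    ring

/-- `il_fac`, `il_mulP` with `Λ = 2 ^ g`, `12 ≤ 2 ^ 4`, `3 ≤ 2 ^ 2`, `1 ≤ 4 ^ s`. -/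
theorem il_Gb {a b a' b' : ℤ} {g : ℕ} (hg : Cf a b a' b' g) (s : ℕ) {n i j : ℕ} (hi : i ≤ n)
    (hj : j ≤ n) (l : ℕ) (e : Bool × Bool) :
    IL (Gb a b a' b' s n e i j l) (2 ^ ((8 * g + 16) * n * 4 ^ s)) := by
  obtain ⟨ha, hb, ha', hb'⟩ := hg
  have hΛ : (1 : ℝ) ≤ 2 ^ g := one_le_pow₀ (by norm_num)
  obtain ⟨k1, k2, k3⟩ := il_mulP hΛ (il_int (σ := Fin 8) ha) (il_int hb) (il_X 0) (il_X 1) s
  obtain ⟨k4, k5, k6⟩ := il_mulP hΛ (il_int (σ := Fin 8) ha') (il_int hb') (il_X 2) (il_X 3) s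
  refine (((il_fac hΛ (il_int ha) (il_int hb) (il_X 4) (il_X 5) k1 k2 k3 hi e.1).mul
    (il_fac hΛ (il_int ha') (il_int hb') (il_X 6) (il_X 7) k4 k5 k6 hj e.2)).mul
    ((il_X 0).pow l)).mono ?_
  have h4 : 1 ≤ 4 ^ s := Nat.one_le_pow _ _ (by norm_num)
  have e1 : (3 * 2 ^ g : ℝ) ^ 4 ^ s ≤ (2 ^ (g + 2)) ^ 4 ^ s :=
    pow_le_pow_left₀ (by positivity) (by rw [pow_add]; nlinarith) _
  have e2 : (12 * (2 ^ g) ^ 2 * ((3 * 2 ^ g) ^ 4 ^ s) ^ 2 : ℝ) ≤ 2 ^ ((4 * g + 8) * 4 ^ s) := by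
    calc (12 * (2 ^ g) ^ 2 * ((3 * 2 ^ g) ^ 4 ^ s) ^ 2 : ℝ)
        ≤ 2 ^ 4 * (2 ^ g) ^ 2 * ((2 ^ (g + 2)) ^ 4 ^ s) ^ 2 := by gcongr; norm_num
      _ = 2 ^ (4 + g * 2 + (g + 2) * 4 ^ s * 2) := by
          rw [← pow_mul, ← pow_mul, ← pow_mul, ← pow_add, ← pow_add, mul_assoc]
      _ ≤ 2 ^ ((4 * g + 8) * 4 ^ s) := by
          refine pow_le_pow_right₀ (by norm_num) ?_
          nlinarith
  have e3 := pow_le_pow_left₀ (by positivity) e2 n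
  calc _ ≤ ((2 : ℝ) ^ ((4 * g + 8) * 4 ^ s)) ^ n * (2 ^ ((4 * g + 8) * 4 ^ s)) ^ n * 1 ^ l := by
        gcongr
    _ = _ := by
        rw [one_pow, mul_one, ← pow_mul, ← pow_add]
        congr 1
        ring

theorem wd_Gc (a b a' b' : ℤ) (s n : ℕ) {ν : ℕ} (c : VI n ν → ℤ) (e : Bool × Bool) (t : Fin 4) :
    WD (wt t) (Gc a b a' b' s n c e) (![2 * n * 4 ^ s + ν, 2 * n * 4 ^ s, 2 * n, 2 * n] t) := by
  refine wd_sum _ fun v _ => WD.zsmul ?_ _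
  exact wd_Gb a b a' b' s (Nat.lt_succ_iff.1 v.1.2) (Nat.lt_succ_iff.1 v.2.1.2) v.2.2.2.le e t

/-- Value of a basic section (`map_fac`, `map3_mulP` for the ring homomorphism `aeval z`). -/
theorem aeval_Gb {S : Type*} [CommRing S] [Algebra ℚ S] (z : Fin 8 → S) (a b a' b' : ℤ) (s n : ℕ)
    (e : Bool × Bool) (i j l : ℕ) : aeval z (Gb a b a' b' s n e i j l) =
      fac (a : S) b (z 4) (z 5) (mulP (a : S) b (z 0) (z 1) s) n e.1 i *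
        fac (a' : S) b' (z 6) (z 7) (mulP (a' : S) b' (z 2) (z 3) s) n e.2 j * z 0 ^ l := by
  have key : ∀ p : P8, aeval z p = (aeval z : P8 →ₐ[ℚ] S).toRingHom p := fun _ => rfl
  rw [key, Gb, map_mul, map_mul, map_pow, map_fac, map_fac, map3_mulP, map3_mulP]
  simp only [map_intCast, ← key, aeval_X]

/-- The complement factor: `fac_true`. -/
theorem aeval_Gc_eq {S : Type*} [CommRing S] [Algebra ℚ S] (z : Fin 8 → S) (a b a' b' : ℤ)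
    (s n : ℕ) {ν : ℕ} (c : VI n ν → ℤ) {w w' : S}
    (h1 : aP (a : S) b (z 4) (z 5) (mulP (a : S) b (z 0) (z 1) s) =
      w * aD (z 4) (mulP (a : S) b (z 0) (z 1) s))
    (h2 : aT (a : S) b (z 4) (mulP (a : S) b (z 0) (z 1) s) =
      w * aM (a : S) b (z 4) (z 5) (mulP (a : S) b (z 0) (z 1) s))
    (h1' : aP (a' : S) b' (z 6) (z 7) (mulP (a' : S) b' (z 2) (z 3) s) =
      w' * aD (z 6) (mulP (a' : S) b' (z 2) (z 3) s))
    (h2' : aT (a' : S) b' (z 6) (mulP (a' : S) b' (z 2) (z 3) s) =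
      w' * aM (a' : S) b' (z 6) (z 7) (mulP (a' : S) b' (z 2) (z 3) s)) (e : Bool × Bool) :
    aeval z (Gc a b a' b' s n c e) = (if e.1 then w ^ n else 1) * (if e.2 then w' ^ n else 1) *
      aeval z (Gc a b a' b' s n c (false, false)) := by
  obtain ⟨e1, e2⟩ := e
  simp only [Gc, map_sum, map_zsmul, aeval_Gb, Finset.mul_sum]
  refine Finset.sum_congr rfl fun v _ => ?_
  have hi : (v.1 : ℕ) ≤ n := Nat.lt_succ_iff.1 v.1.2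
  have hj : (v.2.1 : ℕ) ≤ n := Nat.lt_succ_iff.1 v.2.1.2
  cases e1 <;> cases e2 <;>
    simp only [fac_true h1 h2 hi, fac_true h1' h2' hj, zsmul_eq_mul, if_true, Bool.false_eq_true,
      if_false] <;> ring

end Pool.Agent.Lib.MP_651af7_nt.Vj
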