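import Pool.Agent.Lib.MP_651af7_nt.Vj.CvBound

/-! Existence and size of the formal branches. -/

namespace Pool.Agent.Lib.MP_651af7_nt.Vj

open MvPolynomial Finset Pool.Agent.Lib.Common.Subspace

variable {K : Type*} [Field K] [CharZero K] {a b a' b' : ℤ} {g : ℕ}

theorem cvBr_map {S T : Type*} [CommRing S] [Algebra ℚ S] [CommRing T] [Algebra ℚ T]
    (f : S →+* T) (p q : S) (φ : MvPolynomial (Fin 2) ℚ) :
    aeval ![f p, f q] φ = f (aeval ![p, q] φ) := by
  have h : (fun i => f.toRatAlgHom (![p, q] i)) = ![f p, f q] := by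
    funext i
    fin_cases i <;> rfl
  rw [← h, ← comp_aeval]
  rfl

theorem cvBr_curve {S T : Type*} [CommRing S] [CommRing T] (f : S →+* T) {x y : S} {a b : ℤ}
    (h : y ^ 2 = x ^ 3 + a * x + b) : f y ^ 2 = f x ^ 3 + a * f x + b := by
  simpa using congrArg f h

/-- `hensel_exists` for `φ`, `t = 1`, `z = ![C (z 0) + X, 0]`, and `exists_sqrt_branch` twice. -/
theorem exists_br {φ : MvPolynomial (Fin 2) ℚ} {z : Fin 4 → K}
    (e1 : z 1 ^ 2 = z 0 ^ 3 + a * z 0 + b) (e3 : z 3 ^ 2 = z 2 ^ 3 + a' * z 2 + b')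
    (hf : aeval ![z 0, z 2] φ = 0) (y1 : z 1 ≠ 0) (y3 : z 3 ≠ 0)
    (sep : aeval ![z 0, z 2] (pderiv 1 φ) ≠ 0) : ∃ u, Br a b a' b' φ z u := by
  have hu : Function.update (fun s => PowerSeries.constantCoeff
      ((![PowerSeries.C (z 0) + PowerSeries.X, 0] : Fin 2 → PowerSeries K) s)) 1 (z 2) =
      ![z 0, z 2] := by
    funext i
    fin_cases i <;> simp
  obtain ⟨x', hx', hx''⟩ := hensel_exists φ 1 ![PowerSeries.C (z 0) + PowerSeries.X, 0] (z 2)
    (by rw [hu]; exact hf) (by rw [hu]; exact sep)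
  have hv : Function.update (![PowerSeries.C (z 0) + PowerSeries.X, 0] : Fin 2 → PowerSeries K)
      1 x' = ![PowerSeries.C (z 0) + PowerSeries.X, x'] := by
    funext i
    fin_cases i <;> simp
  rw [hv] at hx''
  obtain ⟨y, hy, hy'⟩ := exists_sqrt_branch (a := (a : K)) (b := (b : K))
    (PowerSeries.C (z 0) + PowerSeries.X) (by simpa using e1) y1
  obtain ⟨y', hz, hz'⟩ := exists_sqrt_branch (a := (a' : K)) (b := (b' : K)) x'
    (by rw [hx']; exact e3) y3
  simp only [map_intCast] at hy' hz'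
  refine ⟨![PowerSeries.C (z 0) + PowerSeries.X, y, x', y'], ?_, rfl, hy', hz', hx'', y1, y3, sep⟩
  intro i
  fin_cases i
  · simp
  · exact hy
  · exact hx'
  · exact hz

theorem Br.base {φ : MvPolynomial (Fin 2) ℚ} {z : Fin 4 → K} {u : Fin 4 → PowerSeries K}
    (h : Br a b a' b' φ z u) : z 1 ^ 2 = z 0 ^ 3 + a * z 0 + b ∧
      z 3 ^ 2 = z 2 ^ 3 + a' * z 2 + b' ∧ aeval ![z 0, z 2] φ = 0 := by
  refine ⟨?_, ?_, ?_⟩
  · simpa only [h.cc] using cvBr_curve PowerSeries.constantCoeff h.e1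
  · simpa only [h.cc] using cvBr_curve PowerSeries.constantCoeff h.e3
  · rw [← h.cc 0, ← h.cc 2, cvBr_map, h.f, map_zero]

theorem onV_Z1 {φ₁ φ₂ : MvPolynomial (Fin 2) ℚ} {z z' : Fin 4 → K} {u u' : Fin 4 → PowerSeries K}
    (h : Br a b a' b' φ₁ z u) (h' : Br a b a' b' φ₂ z' u') : OnV a b a' b' φ₁ φ₂ (Z1 u z') := by
  obtain ⟨h1, h2, h3⟩ := h'.base
  let f : K →+* PowerSeries K := PowerSeries.C
  refine ⟨h.e1, h.e3, cvBr_curve f h1, cvBr_curve f h2, h.f, ?_⟩
  change aeval ![f (z' 0), f (z' 2)] φ₂ = 0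
  rw [cvBr_map, h3, map_zero]

theorem onV_Z2 {φ₁ φ₂ : MvPolynomial (Fin 2) ℚ} {z z' : Fin 4 → K} {u u' : Fin 4 → PowerSeries K}
    (h : Br a b a' b' φ₁ z u) (h' : Br a b a' b' φ₂ z' u') : OnV a b a' b' φ₁ φ₂ (Z2 u u') := by
  let f0 : PowerSeries K →+* MvPowerSeries (Fin 2) K := (PowerSeries.toMvPowerSeries 0).toRingHom
  let f1 : PowerSeries K →+* MvPowerSeries (Fin 2) K := (PowerSeries.toMvPowerSeries 1).toRingHom
  refine ⟨cvBr_curve f0 h.e1, cvBr_curve f0 h.e3, cvBr_curve f1 h'.e1, cvBr_curve f1 h'.e3,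
    ?_, ?_⟩
  · change aeval ![f0 (u 0), f0 (u 2)] φ₁ = 0
    rw [cvBr_map, h.f, map_zero]
  · change aeval ![f1 (u' 0), f1 (u' 2)] φ₂ = 0
    rw [cvBr_map, h'.f, map_zero]

theorem cvBr_transc (x : K) (p : Polynomial ℚ) (hp : p ≠ 0) :
    Polynomial.aeval (PowerSeries.C x + PowerSeries.X : PowerSeries K) p ≠ 0 := by
  have h1 : (PowerSeries.C x + PowerSeries.X : PowerSeries K) =
      Polynomial.coeToPowerSeries.ringHom.toRatAlgHom (Polynomial.X + Polynomial.C x) := by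
    change _ = ((Polynomial.X + Polynomial.C x : Polynomial K) : PowerSeries K)
    simp [add_comm]
  rw [h1, Polynomial.aeval_algHom_apply]
  intro h2
  have h3 : Polynomial.aeval (Polynomial.X + Polynomial.C x : Polynomial K) p = 0 :=
    Polynomial.coe_injective K (by simpa using h2)
  have h4 : Polynomial.aeval (Polynomial.X + Polynomial.C x : Polynomial K) p =
      Polynomial.taylor x (p.map (algebraMap ℚ K)) := by
    rw [Polynomial.taylor_apply, Polynomial.comp, Polynomial.eval₂_map, Polynomial.aeval_def]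
    congr 1
  rw [h4, Polynomial.taylor_eq_zero, Polynomial.map_eq_zero_iff (algebraMap ℚ K).injective] at h3
  exact hp h3

theorem cvBr_uni {S : Type*} [CommRing S] [Algebra ℚ S] (q : P8)
    (hs : ∀ μ ∈ q.support, ∀ t, t ≠ 0 → μ t = 0) (w : Fin 8 → S) : aeval w q =
      Polynomial.aeval (w 0) (aeval (fun _ : Fin 8 => (Polynomial.X : Polynomial ℚ)) q) := by
  rw [← AlgHom.comp_apply, comp_aeval, aeval_def, aeval_def]
  refine eval₂_congr _ _ _ fun {i c} hi hc => ?_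
  have : i = 0 := by
    by_contra hi0
    exact Finsupp.mem_support_iff.1 hi (hs c (mem_support_iff.2 hc) i hi0)
  subst this
  simp

/-- `C x + X` is transcendental: write `q` as a polynomial in one variable, shift it
(`Polynomial.taylor`, or look at the coefficient of the top degree `max (μ 0)`). -/
theorem aeval_Z1_ne_zero {φ : MvPolynomial (Fin 2) ℚ} {z z' : Fin 4 → K}
    {u : Fin 4 → PowerSeries K} (h : Br a b a' b' φ z u) (q : P8) (hq : q ≠ 0)
    (hs : ∀ μ ∈ q.support, ∀ t, t ≠ 0 → μ t = 0) : aeval (Z1 u z') q ≠ 0 := by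
  rw [cvBr_uni q hs]
  have hp : aeval (fun _ : Fin 8 => (Polynomial.X : Polynomial ℚ)) q ≠ 0 := by
    intro h0
    have := cvBr_uni q hs (X : Fin 8 → P8)
    rw [h0, map_zero, aeval_X_left_apply] at this
    exact hq this
  change Polynomial.aeval (u 0) _ ≠ 0
  rw [h.par]
  exact cvBr_transc _ _ hp

end Pool.Agent.Lib.MP_651af7_nt.Vj
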