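import Pool.Agent.Lib.MP_651af7_nt.Vj.CvBlk
import Pool.Agent.Lib.MP_651af7_nt.Vj.Sieg

/-! Construction of the auxiliary polynomial. -/

namespace Pool.Agent.Lib.MP_651af7_nt.Vj

open MvPolynomial Finset Pool.Agent.Lib.Common.Subspace

variable {a b a' b' : ℤ} {g : ℕ}

private lemma cons_card {B k n q ν β γ : ℕ} (hn : k + B + 2 ≤ 2 * n) (hβ : β + γ ≤ B) (hq : 0 < q)
    (hc : 512 * (B + 4) ^ 5 * (k + 2) * q ≤ n * ν) {M : ℕ}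
    (hM : M ≤ ((B + 4) ^ 3 * (3 * n * q) + 1) * 2 * B * 2 * (k + 2) * 2 * (β + (γ + 2)) * 2) :
    2 * (4 * M) ≤ (n + 1) ^ 2 * ν := by
  have h0 : 0 < (B + 4) ^ 3 * (n * q) := by
    have : 0 < n := by omega
    positivity
  have h1 : (B + 4) ^ 3 * (3 * n * q) + 1 ≤ 4 * ((B + 4) ^ 3 * (n * q)) := by
    have : (B + 4) ^ 3 * (3 * n * q) = 3 * ((B + 4) ^ 3 * (n * q)) := by ring
    omega
  calc 2 * (4 * M) ≤ 2 * (4 * (4 * ((B + 4) ^ 3 * (n * q)) * 2 * (B + 4) * 2 * (k + 2) * 2 *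
        (B + 4) * 2)) := by
        refine Nat.mul_le_mul_left _ (Nat.mul_le_mul_left _ (hM.trans ?_))
        gcongr ?_ * 2 * ?_ * 2 * (k + 2) * 2 * ?_ * 2 <;> omega
    _ = 512 * (B + 4) ^ 5 * (k + 2) * q * n := by ring
    _ ≤ n * ν * n := Nat.mul_le_mul_right _ hc
    _ = n ^ 2 * ν := by ring
    _ ≤ (n + 1) ^ 2 * ν := by gcongr; omega

/-- Explicit form.  Take `fl` from `blk2`, `hi` from `exists_part` for the set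
`{ν | 2 n < ν 4 + 2 * ν 5 + k}`, `ρ` from `blk1` with `N = 3 * n * 4 ^ s`, and apply `sieg` with
`J = Bool × Bool` to `q v e = ρ (hi (fl (Gb e v)))` and the box (`exists_box`)
`range ((B+4)^3 N + 1), range 2, range B, range 2, Ioc (2n-k-2) (2n), range 2,
range β ∪ Ioc (2n-γ-2) (2n), range 2` (in the first alternative `ν 4 < B` is impossible because
`k + B + 2 ≤ 2 n`; if `2n < γ + 2` use `range (2 n + 1)`, or note `γ + 2 ≤ 2 n`).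
Put `Gl e = fl (Gc c e) - hi (fl (Gc c e))`; by linearity `ρ (hi (fl (Gc c e))) = 0`. -/
theorem construct_aux (hg : Cf a b a' b' g) {B k n s ν : ℕ} (hn : k + B + 2 ≤ 2 * n)
    {φ₁ φ₂ : MvPolynomial (Fin 2) ℚ} {T₁ T₂ : ℝ} (h₁ : IL φ₁ T₁) (h₂ : IL φ₂ T₂) (hT₁ : 1 ≤ T₁)
    (hT₂ : 1 ≤ T₂) (hB₁ : ∀ i, degreeOf i φ₁ ≤ B) (hd : 1 ≤ degreeOf 1 φ₁) (h0 : φ₂ ≠ 0)
    (hB₂ : ∀ i, degreeOf i φ₂ ≤ B) (hν : 0 < ν) (hν' : ν ≤ 4 ^ s)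
    (hc : 512 * (B + 4) ^ 5 * (k + 2) * 4 ^ s ≤ n * ν) {TG TF TR : ℝ}
    (hG : TG = 2 ^ ((8 * g + 16) * n * 4 ^ s))
    (hF : TF = 2 ^ (2 * (g + 2) * n) * T₂ ^ (2 * n + 1) ^ 2)
    (hR : TR = (2 ^ (g + 2) * T₁) ^ (3 * (B + 4) ^ 3 * (3 * n * 4 ^ s))) :
    ∃ (c : VI n ν → ℤ) (c₀ : ℤ) (Gl : Bool × Bool → P8), c ≠ 0 ∧ c₀ ≠ 0 ∧
      (∀ e, IL (Gc a b a' b' s n c e) ((((n + 1) ^ 2 * ν : ℕ) : ℝ) ^ 2 * (TR * TF * TG) * TG)) ∧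
      (∀ e, IL (Gl e) (TF * ((((n + 1) ^ 2 * ν : ℕ) : ℝ) ^ 2 * (TR * TF * TG) * TG)) ∧ ∀ t,
        WD (wt t) (Gl e) (![2 * n * 4 ^ s + ν, 2 * n * 4 ^ s, 2 * n - k, 2 * n] t)) ∧
      ∀ (S : Type) [CommRing S] [IsDomain S] [Algebra ℚ S] (z : Fin 8 → S),
        OnV a b a' b' φ₁ φ₂ z →
        (∀ q : P8, q ≠ 0 → (∀ μ ∈ q.support, ∀ t, t ≠ 0 → μ t = 0) → aeval z q ≠ 0) →
        ∀ e, aeval z (Gl e) = c₀ * aeval z (Gc a b a' b' s n c e) := by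
  classical
  obtain ⟨c₀, β, γ, fl, hc0, hβ, hfl⟩ := blk2 hg h0 h₂ hB₂ n
  obtain ⟨hi, hhi⟩ := exists_part {μ : Fin 8 →₀ ℕ | 2 * n < μ 4 + 2 * μ 5 + k}
  obtain ⟨ρ, hρ⟩ := blk1 hg hT₁ h₁ hB₁ hd (3 * n * 4 ^ s)
  obtain ⟨Mon, hM, hMon⟩ := exists_box ![range ((B + 4) ^ 3 * (3 * n * 4 ^ s) + 1), range 2,
    range B, range 2, Ioc (2 * n - (k + 2)) (2 * n), range 2,
    range β ∪ Ioc (2 * n - (γ + 2)) (2 * n), range 2]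
  rw [← hF] at hfl
  rw [← hR] at hρ
  have hq : 0 < 4 ^ s := by positivity
  have hnq : 4 ^ s ≤ n * 4 ^ s := Nat.le_mul_of_pos_left _ (by omega)
  have e2 : 2 * n * 4 ^ s = 2 * (n * 4 ^ s) := mul_assoc _ _ _
  have e3 : 3 * n * 4 ^ s = 3 * (n * 4 ^ s) := mul_assoc _ _ _
  have good : ∀ p : P8, (∀ t, WD (wt t) p (![2 * n * 4 ^ s + ν, 2 * n * 4 ^ s, 2 * n, 2 * n] t)) →
      (∀ μ ∈ (fl p).support, μ 0 + 2 * μ 1 ≤ 2 * n * 4 ^ s + ν ∧ μ 2 + 2 * μ 3 ≤ 2 * n * 4 ^ s) ∧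
      ∀ μ ∈ (hi (fl p)).support, μ 0 ≤ 3 * n * 4 ^ s ∧ μ 1 ≤ 3 * n * 4 ^ s ∧
        μ 2 ≤ 3 * n * 4 ^ s ∧ μ 3 ≤ 3 * n * 4 ^ s := fun p hp => by
    have k1 : ∀ μ ∈ (fl p).support, μ 0 + 2 * μ 1 ≤ 2 * n * 4 ^ s + ν ∧
        μ 2 + 2 * μ 3 ≤ 2 * n * 4 ^ s := fun μ hμ => by
      obtain ⟨-, -, -, -, -, η, hη, q0, q1, q2, q3⟩ := (hfl p (hp 2) (hp 3)).2.2 μ hμ
      rw [q0, q1, q2, q3, ← (weight_wt η).1, ← (weight_wt η).2.1]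
      exact ⟨hp 0 η hη, hp 1 η hη⟩
    refine ⟨k1, fun μ hμ => ?_⟩
    have := k1 μ ((hhi _).1 μ hμ).1
    omega
  have hb : ∀ (v : VI n ν) e t, WD (wt t) (Gb a b a' b' s n e v.1 v.2.1 v.2.2)
      (![2 * n * 4 ^ s + ν, 2 * n * 4 ^ s, 2 * n, 2 * n] t) := fun v e =>
    wd_Gb a b a' b' s (Nat.lt_succ_iff.1 v.1.2) (Nat.lt_succ_iff.1 v.2.1.2) v.2.2.2.le e
  have hl : ∀ (v : VI n ν) e, IL (Gb a b a' b' s n e v.1 v.2.1 v.2.2) TG := fun v e =>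
    hG ▸ il_Gb hg s (Nat.lt_succ_iff.1 v.1.2) (Nat.lt_succ_iff.1 v.2.1.2) _ e
  have hV : Fintype.card (VI n ν) = (n + 1) ^ 2 * ν := by
    simp only [Fintype.card_prod, Fintype.card_fin]
    ring
  have hG1 : 1 ≤ TG := hG ▸ one_le_pow₀ one_le_two
  have hF1 : 1 ≤ TF :=
    hF ▸ one_le_mul_of_one_le_of_one_le (one_le_pow₀ one_le_two) (one_le_pow₀ hT₂)
  have hR1 : 1 ≤ TR :=
    hR ▸ one_le_pow₀ (one_le_mul_of_one_le_of_one_le (one_le_pow₀ one_le_two) hT₁)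
  obtain ⟨c, hc1, hc2, hc3⟩ := sieg (V := VI n ν) (J := Bool × Bool)
    (fun v e => ρ (hi (fl (Gb a b a' b' s n e v.1 v.2.1 v.2.2)))) Mon (T := TR * TF * TG)
    (fun v e μ hμ => by
      obtain ⟨q0, q1, q2, q3, η, hη, q4, q5, q6, q7⟩ := (hρ _ (good _ (hb v e)).2).2.1 μ hμ
      obtain ⟨r1, r2⟩ := (hhi _).1 η hη
      obtain ⟨r5, r7, r4, r6, r3, -⟩ := (hfl _ (hb v e 2) (hb v e 3)).2.2 η r1
      have r2' : 2 * n < η 4 + 2 * η 5 + k := r2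
      rw [hMon]
      simp only [Fin.forall_fin_succ, Matrix.cons_val_zero, Matrix.cons_val_succ, mem_range,
        mem_union, mem_Ioc, IsEmpty.forall_iff, and_true]
      change μ 0 < _ ∧ μ 1 < _ ∧ μ 2 < _ ∧ μ 3 < _ ∧ (_ < μ 4 ∧ μ 4 ≤ _) ∧ μ 5 < _ ∧
        (μ 6 < _ ∨ _ < μ 6 ∧ μ 6 ≤ _) ∧ μ 7 < _
      omega)
    (one_le_mul_of_one_le_of_one_le (one_le_mul_of_one_le_of_one_le hR1 hF1) hG1)
    (fun v e => by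
      rw [mul_assoc]
      exact (hρ _ (good _ (hb v e)).2).1 _
        ((hhi _).2.2 _ ((hfl _ (hb v e 2) (hb v e 3)).2.1 _ (hl v e))).1)
    (by
      rw [hV, show Fintype.card (Bool × Bool) = 4 from rfl]
      refine cons_card hn hβ hq hc ?_
      rw [hM, Fin.prod_univ_eight]
      change #(range _) * #(range _) * #(range _) * #(range _) * #(Ioc _ _) * #(range _) *
        #(range _ ∪ Ioc _ _) * #(range _) ≤ _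
      have u1 := card_union_le (range β) (Ioc (2 * n - (γ + 2)) (2 * n))
      simp only [card_range, Nat.card_Ioc] at u1 ⊢
      gcongr <;> omega)
    (by rw [hV]; positivity)
  rw [hV] at hc3
  have hGc : ∀ e, IL (Gc a b a' b' s n c e)
      ((((n + 1) ^ 2 * ν : ℕ) : ℝ) ^ 2 * (TR * TF * TG) * TG) := fun e => by
    refine (il_sum univ fun v _ => ((hl v e).zsmul (c v)).mono
      (mul_le_mul_of_nonneg_right (hc3 v) (zero_le_one.trans hG1))).mono (le_of_eq ?_)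
    rw [sum_const, card_univ, hV, nsmul_eq_mul]
    ring
  have hw := wd_Gc a b a' b' s n c
  refine ⟨c, c₀, fun e => fl (Gc a b a' b' s n c e) - hi (fl (Gc a b a' b' s n c e)), hc1, hc0,
    hGc, fun e => ⟨((hhi _).2.2 _ ((hfl _ (hw e 2) (hw e 3)).2.1 _ (hGc e))).2,
      fun t μ hμ => ?_⟩, fun S _ _ _ z hz hz' e => ?_⟩
  · obtain ⟨r1, r2⟩ := (hhi _).2.1 μ hμ
    have r2' : ¬2 * n < μ 4 + 2 * μ 5 + k := r2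
    obtain ⟨r3, r4⟩ := (good _ (hw e)).1 μ r1
    obtain ⟨-, -, -, r6, -⟩ := (hfl _ (hw e 2) (hw e 3)).2.2 μ r1
    obtain ⟨w0, w1, w2, w3⟩ := weight_wt μ
    fin_cases t
    exacts [w0.trans_le r3, w1.trans_le r4, w2.trans_le (show _ ≤ 2 * n - k by omega),
      w3.trans_le r6]
  · have z0 := (hρ _ (good _ (hw e)).2).2.2 S φ₂ z hz hz' (by
      simpa only [Gc, map_sum, map_zsmul] using hc2 e)
    rw [map_sub, z0, sub_zero]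
    exact (hfl _ (hw e 2) (hw e 3)).1 S φ₁ z hz

/-- Every factor is at most `T₁ ^ (c * 4 ^ s)` or `T₂ ^ c` (`2 ≤ T₁`, `n + 1 ≤ 2 ^ n`,
`ν ≤ 4 ^ s ≤ 2 ^ 4 ^ s`, `1 ≤ 4 ^ s`). -/
theorem construct_bound (g B n : ℕ) : ∃ C : ℕ, ∀ (s ν : ℕ) (T₁ T₂ TG TF TR : ℝ), 2 ≤ T₁ → 1 ≤ T₂ →
    ν ≤ 4 ^ s → TG = 2 ^ ((8 * g + 16) * n * 4 ^ s) →
    TF = 2 ^ (2 * (g + 2) * n) * T₂ ^ (2 * n + 1) ^ 2 →
    TR = (2 ^ (g + 2) * T₁) ^ (3 * (B + 4) ^ 3 * (3 * n * 4 ^ s)) →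
    (((n + 1) ^ 2 * ν : ℕ) : ℝ) ^ 2 * (TR * TF * TG) * TG ≤ T₁ ^ (C * 4 ^ s) * T₂ ^ C ∧
    TF * ((((n + 1) ^ 2 * ν : ℕ) : ℝ) ^ 2 * (TR * TF * TG) * TG) ≤ T₁ ^ (C * 4 ^ s) * T₂ ^ C := by
  refine ⟨2 * (g + 2) * n + (2 * n + 1) ^ 2 + ((2 * n + 1) * 2 + ((g + 3) * (9 * (B + 4) ^ 3 * n) +
    (2 * (g + 2) * n + (2 * n + 1) ^ 2) + (8 * g + 16) * n) + (8 * g + 16) * n),
    fun s ν T₁ T₂ TG TF TR h₁ h₂ hν hG hF hR => ?_⟩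
  have h₁' : 1 ≤ T₁ := one_le_two.trans h₁
  have hF1 : 1 ≤ TF :=
    hF ▸ one_le_mul_of_one_le_of_one_le (one_le_pow₀ one_le_two) (one_le_pow₀ h₂)
  have k0 : 1 ≤ T₁ ^ 4 ^ s := one_le_pow₀ h₁'
  have k1 : T₁ ^ 4 ^ s ≤ T₁ ^ 4 ^ s * T₂ := le_mul_of_one_le_right (by positivity) h₂
  have k2 : T₂ ≤ T₁ ^ 4 ^ s * T₂ := le_mul_of_one_le_left (by positivity) k0
  have k3 : (2 : ℝ) ^ 4 ^ s ≤ T₁ ^ 4 ^ s * T₂ := (pow_le_pow_left₀ zero_le_two h₁ _).trans k1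
  have k4 : (2 : ℝ) ≤ T₁ ^ 4 ^ s * T₂ := (le_self_pow₀ one_le_two (by positivity)).trans k3
  have k5 : TR ≤ (T₁ ^ 4 ^ s * T₂) ^ ((g + 3) * (9 * (B + 4) ^ 3 * n)) := by
    refine le_trans ?_ (pow_le_pow_left₀ (by positivity) k1 _)
    rw [hR]
    calc _ ≤ (T₁ ^ (g + 2) * T₁) ^ (3 * (B + 4) ^ 3 * (3 * n * 4 ^ s)) := by gcongr
      _ = _ := by rw [← pow_succ, ← pow_mul, ← pow_mul]; exact congrArg _ (by ring)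
  rw [mul_comm _ (4 ^ s), pow_mul T₁, ← mul_pow]
  generalize T₁ ^ 4 ^ s * T₂ = Z at *
  have k6 : TG ≤ Z ^ ((8 * g + 16) * n) := by
    rw [hG, mul_comm _ (4 ^ s), pow_mul]
    gcongr
  have k7 : TF ≤ Z ^ (2 * (g + 2) * n + (2 * n + 1) ^ 2) := by
    rw [hF, pow_add]
    gcongr
  have k8 : (((n + 1) ^ 2 * ν : ℕ) : ℝ) ≤ Z ^ (2 * n + 1) := by
    have u1 : ((n + 1 : ℕ) : ℝ) ≤ 2 ^ n := by exact_mod_cast Nat.lt_two_pow_self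
    have u2 : (ν : ℝ) ≤ 2 ^ 4 ^ s := by exact_mod_cast hν.trans Nat.lt_two_pow_self.le
    rw [Nat.cast_mul, Nat.cast_pow, pow_succ Z, mul_comm 2 n, pow_mul]
    have u3 := u1.trans (pow_le_pow_left₀ zero_le_two k4 n)
    have u4 := u2.trans k3
    gcongr
  have hG0 : 0 ≤ TG := by rw [hG]; positivity
  have hR0 : 0 ≤ TR := by rw [hR]; positivity
  have hF0 : 0 ≤ TF := zero_le_one.trans hF1
  have hZ : 0 ≤ Z := zero_le_two.trans k4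
  refine (and_iff_right_of_imp fun h => (le_mul_of_one_le_left (by positivity) hF1).trans h).2 ?_
  rw [pow_add _ _ (_ + (8 * g + 16) * n), pow_add _ _ ((8 * g + 16) * n),
    pow_add _ ((2 * n + 1) * 2), pow_add _ _ ((8 * g + 16) * n), pow_add _ ((g + 3) * _),
    pow_mul _ (2 * n + 1) 2]
  gcongr

theorem construct (hg : Cf a b a' b' g) (B k n : ℕ) (hn : k + B + 2 ≤ 2 * n) :
    ∃ C : ℕ, ∀ (s ν : ℕ) (φ₁ φ₂ : MvPolynomial (Fin 2) ℚ) (T₁ T₂ : ℝ), IL φ₁ T₁ → IL φ₂ T₂ →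
      2 ≤ T₁ → 1 ≤ T₂ → (∀ i, degreeOf i φ₁ ≤ B) → 1 ≤ degreeOf 1 φ₁ → φ₂ ≠ 0 →
      (∀ i, degreeOf i φ₂ ≤ B) → 0 < ν → ν ≤ 4 ^ s →
      512 * (B + 4) ^ 5 * (k + 2) * 4 ^ s ≤ n * ν →
      ∃ (c : VI n ν → ℤ) (c₀ : ℤ) (Gl : Bool × Bool → P8), c ≠ 0 ∧ c₀ ≠ 0 ∧
        (∀ e, IL (Gc a b a' b' s n c e) (T₁ ^ (C * 4 ^ s) * T₂ ^ C)) ∧
        (∀ e, IL (Gl e) (T₁ ^ (C * 4 ^ s) * T₂ ^ C) ∧ ∀ t,
          WD (wt t) (Gl e) (![2 * n * 4 ^ s + ν, 2 * n * 4 ^ s, 2 * n - k, 2 * n] t)) ∧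
        ∀ (S : Type) [CommRing S] [IsDomain S] [Algebra ℚ S] (z : Fin 8 → S),
          OnV a b a' b' φ₁ φ₂ z →
          (∀ q : P8, q ≠ 0 → (∀ μ ∈ q.support, ∀ t, t ≠ 0 → μ t = 0) → aeval z q ≠ 0) →
          ∀ e, aeval z (Gl e) = c₀ * aeval z (Gc a b a' b' s n c e) := by
  obtain ⟨C, hC⟩ := construct_bound g B n
  refine ⟨C, fun s ν φ₁ φ₂ T₁ T₂ h₁ h₂ hT₁ hT₂ hB₁ hd h0 hB₂ hν hν' hc => ?_⟩
  obtain ⟨c, c₀, Gl, k1, k2, k3, k4, k5⟩ := construct_aux hg hn h₁ h₂ (by linarith) hT₂ hB₁ hd h0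
    hB₂ hν hν' hc rfl rfl rfl
  obtain ⟨b1, b2⟩ := hC s ν T₁ T₂ _ _ _ hT₁ hT₂ hν' rfl rfl rfl
  exact ⟨c, c₀, Gl, k1, k2, fun e => (k3 e).mono b1, fun e => ⟨(k4 e).1.mono b2, (k4 e).2⟩, k5⟩

end Pool.Agent.Lib.MP_651af7_nt.Vj
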