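import Pool.Agent.Lib.MP_651af7_nt.Vj.CvEst

/-! The product formula for the first nonzero coefficient. -/

namespace Pool.Agent.Lib.MP_651af7_nt.Vj

open MvPolynomial Finset Height Pool.Agent.Lib.Common.Subspace

variable {K : Type*} [Field K] [CharZero K] {a b a' b' : ℤ} {g : ℕ}

/-- The data of the sum of `U = (x, y)` and of the triple `p`, at the base point. -/
def SumData (a b x y : K) (p : K × K × K) (x' : K) : Prop :=
  aP a b x y p = x' * aD x p ∧ aT a b x p = x' * aM a b x y p ∧ (aD x p ≠ 0 ∨ aM a b x y p ≠ 0)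

theorem coeff_mul_of_lt {f h : PowerSeries K} {κ : ℕ}
    (hf : ∀ l < κ, PowerSeries.coeff l f = 0) :
    PowerSeries.coeff κ (h * f) = PowerSeries.constantCoeff h * PowerSeries.coeff κ f := by
  rw [PowerSeries.coeff_mul, Finset.sum_eq_single (0, κ)]
  · simp
  · rintro ⟨i, l⟩ hm hne
    have h1 : i + l = κ := Finset.HasAntidiagonal.mem_antidiagonal.1 hm
    have h2 : l < κ := by
      rcases Nat.eq_zero_or_pos i with rfl | hi
      · exact absurd (by rw [← h1, zero_add]) hne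
      · omega
    rw [hf l h2, mul_zero]
  · intro hn
    exact absurd (Finset.HasAntidiagonal.mem_antidiagonal.2 (zero_add κ)) hn

/-- `exists_series_quot` (with `aT_mul_aD`, `onC_mulP`, `onV_Z1`, and `map_aD`, ..., `map3_mulP` for
the ring homomorphism `constantCoeff`) gives series `w, w'` with constant terms `xp, xp'`; then
`aeval_Gc_eq` and `coeff_mul_of_lt`. -/
theorem coeff_Gc {φ₁ φ₂ : MvPolynomial (Fin 2) ℚ} {z z' : Fin 4 → K} {u u' : Fin 4 → PowerSeries K}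
    (h : Br a b a' b' φ₁ z u) (h' : Br a b a' b' φ₂ z' u') {s n ν : ℕ} (c : VI n ν → ℤ) {xp xp' : K}
    (hx : SumData (a : K) b (z' 0) (z' 1) (mulP (a : K) b (z 0) (z 1) s) xp)
    (hx' : SumData (a' : K) b' (z' 2) (z' 3) (mulP (a' : K) b' (z 2) (z 3) s) xp') {κ : ℕ}
    (hκ : ∀ l < κ,
      PowerSeries.coeff l (aeval (Z1 u z') (Gc a b a' b' s n c (false, false))) = 0)
    (e : Bool × Bool) :
    PowerSeries.coeff κ (aeval (Z1 u z') (Gc a b a' b' s n c e)) =
      (if e.1 then xp ^ n else 1) * (if e.2 then xp' ^ n else 1) *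
        PowerSeries.coeff κ (aeval (Z1 u z') (Gc a b a' b' s n c (false, false))) := by
  have hV := onV_Z1 h h'
  have key : ∀ (A B : ℤ) {X Y X' Y' : PowerSeries K} {x y x' y' w₀ : K},
      Y ^ 2 = X ^ 3 + A * X + B → Y' ^ 2 = X' ^ 3 + A * X' + B →
      PowerSeries.constantCoeff X = x → PowerSeries.constantCoeff Y = y →
      PowerSeries.constantCoeff X' = x' → PowerSeries.constantCoeff Y' = y' →
      SumData (A : K) B x' y' (mulP (A : K) B x y s) w₀ →
      ∃ w : PowerSeries K, PowerSeries.constantCoeff w = w₀ ∧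
        aP (A : PowerSeries K) B X' Y' (mulP (A : PowerSeries K) B X Y s) =
          w * aD X' (mulP (A : PowerSeries K) B X Y s) ∧
        aT (A : PowerSeries K) B X' (mulP (A : PowerSeries K) B X Y s) =
          w * aM (A : PowerSeries K) B X' Y' (mulP (A : PowerSeries K) B X Y s) := by
    intro A B X Y X' Y' x y x' y' w₀ e1 e2 c1 c2 c3 c4 hs
    refine exists_series_quot (aT_mul_aD e2 (onC_mulP e1 s)) ?_ ?_ ?_
    · rw [map_aP, map_aD, map3_mulP, map_intCast, map_intCast, c1, c2, c3, c4]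
      exact hs.1
    · rw [map_aT, map_aM, map3_mulP, map_intCast, map_intCast, c1, c2, c3, c4]
      exact hs.2.1
    · rw [map_aM, map_aD, map3_mulP, map_intCast, map_intCast, c1, c2, c3, c4]
      exact hs.2.2
  obtain ⟨w, w1, w2, w3⟩ := key a b hV.e1 hV.e5 (h.cc 0) (h.cc 1)
    (PowerSeries.constantCoeff_C (z' 0)) (PowerSeries.constantCoeff_C (z' 1)) hx
  obtain ⟨w', w1', w2', w3'⟩ := key a' b' hV.e3 hV.e7 (h.cc 2) (h.cc 3)
    (PowerSeries.constantCoeff_C (z' 2)) (PowerSeries.constantCoeff_C (z' 3)) hx'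
  rw [aeval_Gc_eq (Z1 u z') a b a' b' s n c w2 w3 w2' w3' e, coeff_mul_of_lt hκ, map_mul]
  congr 2
  · split_ifs <;> simp [w1]
  · split_ifs <;> simp [w1']

variable [AdmissibleAbsValues K]

/-- Heights of the three denominators of the branch (`logHeight₁_inv`, `logHeight₁_mul_le`,
`height_y_le`, `height_aeval_le`, `il_pderiv`, `supp_pderiv`; the heights of the integers
`2, a, b, a', b'` are constants; `log T ≤ w`, `1 ≤ w`). -/
theorem height_den_le (a b a' b' : ℤ) (B : ℕ) : ∃ C : ℝ, 0 ≤ C ∧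
    ∀ (φ : MvPolynomial (Fin 2) ℚ) (T w : ℝ) (z : Fin 4 → K) (u : Fin 4 → PowerSeries K),
      IL φ T → 1 ≤ T → Real.log T ≤ w → 1 ≤ w → (∀ i, degreeOf i φ ≤ B) → Br a b a' b' φ z u →
      logHeight₁ (z 0) + logHeight₁ (z 2) ≤ w →
      logHeight₁ (2 * z 1)⁻¹ + logHeight₁ (2 * z 3)⁻¹ +
        logHeight₁ (aeval ![z 0, z 2] (pderiv 1 φ))⁻¹ ≤ C * w := by
  set n : ℝ := (totalWeight K : ℝ) with hn
  have n0 : 0 ≤ n := Nat.cast_nonneg _
  have l3 : 0 ≤ Real.log 3 := Real.log_nonneg (by norm_num)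
  set c : ℝ := 2 * logHeight₁ (2 : K) + 2 * (n * Real.log 3) + logHeight₁ (a : K) +
    logHeight₁ (b : K) + logHeight₁ (a' : K) + logHeight₁ (b' : K) with hc
  have c0 : 0 ≤ c := by positivity
  refine ⟨c + 2 + n * (B + 1) + B, by positivity, fun φ T w z u hφ hT hw h1 hB h hz => ?_⟩
  obtain ⟨b1, b3, -⟩ := h.base
  have e1 := height_y_le b1
  have e3 := height_y_le b3
  have e2 := logHeight₁_mul_le (2 : K) (z 1)
  have e4 := logHeight₁_mul_le (2 : K) (z 3)
  have hB0 : (0 : ℝ) ≤ B := Nat.cast_nonneg _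
  have e5 : IL (pderiv 1 φ) ((B + 1) * T) :=
    (il_pderiv hφ 1 fun μ hμ => (monomial_le_degreeOf 1 hμ).trans (hB 1)).mono (by nlinarith)
  have e6 := height_aeval_le (by nlinarith) e5 (fun _ => B) (fun μ hμ t => by
    have := (monomial_le_degreeOf t (supp_pderiv φ 1 μ hμ)).trans (hB t)
    rw [Finsupp.add_apply] at this
    omega) ![z 0, z 2]
  rw [Real.log_mul (by positivity) (by positivity), Fin.sum_univ_two] at e6
  simp only [Matrix.cons_val_zero, Matrix.cons_val_one] at e6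
  have e7 : Real.log (B + 1) ≤ B := by
    linarith [Real.log_le_sub_one_of_pos (show (0 : ℝ) < B + 1 by positivity)]
  have e8 : n * (Real.log (B + 1) + Real.log T) ≤ n * ((B + 1) * w) :=
    mul_le_mul_of_nonneg_left (by nlinarith) n0
  have e9 := mul_le_mul_of_nonneg_left hz hB0
  have e10 := mul_le_mul_of_nonneg_left h1 c0
  rw [logHeight₁_inv, logHeight₁_inv, logHeight₁_inv]
  nlinarith

/-- Let `γ = c₀ * coeff κ (..) ≠ 0`.  At each place choose `e.1 = decide (1 ≤ v xp)`,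
`e.2 = decide (1 ≤ v xp')`; then `v γ * max (v xp) 1 ^ n * max (v xp') 1 ^ n` is
`v (coeff κ (aeval (Z1 u z') (Gl e)))`, bounded by `coeff_Z1_le` and `br_est`.  Apply `pf` with
`α = ![xp, xp']`, `β = ![z 0, z 2, z' 0, z' 2, (2 z 1)⁻¹, (2 z 3)⁻¹, (pderiv value)⁻¹]` and exponents
`D 0 + C κ, D 1 + C κ, D 2, D 3, C κ, C κ, C κ`; then `height_den_le`. -/
theorem main_ineq (hg : Cf a b a' b' g) (B : ℕ) : ∃ C : ℝ, 0 ≤ C ∧
    ∀ (φ₁ φ₂ : MvPolynomial (Fin 2) ℚ) (T₁ T w : ℝ) (z z' : Fin 4 → K)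
      (u u' : Fin 4 → PowerSeries K) (n κ : ℕ) (xp xp' γ : K) (Gl : Bool × Bool → P8)
      (D : Fin 4 → ℕ), IL φ₁ T₁ → 2 ≤ T₁ → Real.log T₁ ≤ w → 1 ≤ w → (∀ i, degreeOf i φ₁ ≤ B) →
      Br a b a' b' φ₁ z u → Br a b a' b' φ₂ z' u' → logHeight₁ (z 0) + logHeight₁ (z 2) ≤ w →
      1 ≤ T → (∀ e, IL (Gl e) T ∧ ∀ t, WD (wt t) (Gl e) (D t)) → γ ≠ 0 →
      (∀ e, PowerSeries.coeff κ (aeval (Z1 u z') (Gl e)) =
        (if e.1 then xp ^ n else 1) * (if e.2 then xp' ^ n else 1) * γ) →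
      n * (logHeight₁ xp + logHeight₁ xp') ≤
        D 0 * logHeight₁ (z 0) + D 1 * logHeight₁ (z 2) + D 2 * logHeight₁ (z' 0) +
          D 3 * logHeight₁ (z' 2) + totalWeight K * Real.log T +
          C * ((D 0 + D 1 + D 2 + D 3 : ℕ) + κ * w) := by
  obtain ⟨C₁, H₁⟩ := br_est (K := K) hg B
  obtain ⟨C₂, hC₂, H₂⟩ := height_den_le (K := K) a b a' b' B
  set m : ℝ := (totalWeight K : ℝ) with hm
  have m0 : 0 ≤ m := Nat.cast_nonneg _
  have l6 : 0 ≤ Real.log (6 * 2 ^ g) :=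
    Real.log_nonneg (one_le_mul_of_one_le_of_one_le (by norm_num) (one_le_pow₀ one_le_two))
  refine ⟨m * Real.log (6 * 2 ^ g) + C₁ * (m + 1 + C₂), by positivity, ?_⟩
  intro φ₁ φ₂ T₁ T w z z' u u' n κ xp xp' γ Gl D h₁ hT₁ hw h1 hB h h' hz hT hG hγ hc
  have T0 : 0 < T₁ := by linarith
  have k := pf hγ ![xp, xp'] (fun _ => n)
    ![z 0, z 2, z' 0, z' 2, (2 * z 1)⁻¹, (2 * z 3)⁻¹, (aeval ![z 0, z 2] (pderiv 1 φ₁))⁻¹]
    ![D 0 + C₁ * κ, D 1 + C₁ * κ, D 2, D 3, C₁ * κ, C₁ * κ, C₁ * κ]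
    (C := T * (6 * 2 ^ g) ^ (D 0 + D 1 + D 2 + D 3) * T₁ ^ (C₁ * κ)) (by positivity) (fun L => by
      obtain ⟨ρ, r0, r1, r2⟩ := H₁ φ₁ T₁ h₁ hT₁ hB z u h L κ
      let e : Bool × Bool := (decide (1 ≤ L.v xp), decide (1 ≤ L.v xp'))
      have b1 := coeff_Z1_le hg h h' L κ r0 r2 (hG e).1 D (hG e).2
      have f : ∀ x : K, L.v (if decide (1 ≤ L.v x) = true then x ^ n else 1) =
          max (L.v x) 1 ^ n := fun x => by
        split_ifs with hx
        · rw [map_pow, max_eq_left (of_decide_eq_true hx)]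
        · rw [max_eq_right (not_le.1 fun h => hx (decide_eq_true h)).le]
          simp
      rw [hc e, map_mul, map_mul, f, f] at b1
      have b2 := pow_le_pow_left₀ (by positivity) r1 κ
      have b3 := b1.trans (mul_le_mul_of_nonneg_left b2 (by positivity))
      simp only [Fin.prod_univ_two, Fin.prod_univ_seven, Matrix.cons_val_zero, Matrix.cons_val_one,
        Matrix.cons_val]
      refine le_trans (le_of_eq (by ring)) (b3.trans (le_of_eq ?_))
      ring)
  have k2 := H₂ φ₁ T₁ w z u h₁ (by linarith) hw h1 hB h hz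
  rw [Real.log_mul (by positivity) (by positivity), Real.log_mul (by positivity) (by positivity),
    Real.log_pow, Real.log_pow] at k
  simp only [Fin.sum_univ_two, Fin.sum_univ_seven, Matrix.cons_val_zero, Matrix.cons_val_one,
    Matrix.cons_val] at k
  have q0 : (0 : ℝ) ≤ C₁ * κ := by positivity
  have k3 := mul_le_mul_of_nonneg_left k2 q0
  have k4 := mul_le_mul_of_nonneg_left hz q0
  have k5 := mul_le_mul_of_nonneg_left hw (mul_nonneg m0 q0)
  have k6 : 0 ≤ m * Real.log (6 * 2 ^ g) * (κ * w) := by positivity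
  have k7 : (0 : ℝ) ≤ C₁ * (m + 1 + C₂) * (D 0 + D 1 + D 2 + D 3 : ℕ) := by positivity
  push_cast at k k7 ⊢
  nlinarith

end Pool.Agent.Lib.MP_651af7_nt.Vj
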