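import Pool.Agent.Lib.MP_651af7_nt.Vj.CvBr

/-! The auxiliary polynomial has a small order along the first branch. -/

namespace Pool.Agent.Lib.MP_651af7_nt.Vj

open MvPolynomial Finset Height Pool.Agent.Lib.Common.Subspace Pool.Agent.Lib.Common.ZeroLemma

variable {K : Type*} [Field K] [CharZero K] {a b a' b' : ℤ} {g : ℕ}

omit [CharZero K] in
theorem cvord_kill_zero (f : PowerSeries K) :
    MvPowerSeries.killCompl (Function.Embedding.punit (0 : Fin 2)) (f.toMvPowerSeries 0) = f :=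
  MvPowerSeries.killCompl_rename_app (e := Function.Embedding.punit (0 : Fin 2)) f

omit [CharZero K] in
theorem cvord_kill_one (f : PowerSeries K) :
    MvPowerSeries.killCompl (Function.Embedding.punit (0 : Fin 2)) (f.toMvPowerSeries 1) =
      PowerSeries.C (PowerSeries.constantCoeff f) := by
  have h1 : f = PowerSeries.C (PowerSeries.constantCoeff f) +
      (f - PowerSeries.C (PowerSeries.constantCoeff f)) := by ring
  have h2 : MvPowerSeries.killCompl (Function.Embedding.punit (0 : Fin 2))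
      ((f - PowerSeries.C (PowerSeries.constantCoeff f)).toMvPowerSeries (1 : Fin 2)) = 0 := by
    refine MvPowerSeries.ext fun x => ?_
    rw [MvPowerSeries.coeff_killCompl, map_zero]
    refine PowerSeries.toMvPowerSeries_coeff_eq_zero ?_ (by simp)
    refine Finsupp.embDomain_of_notMem_range _ _ _ ?_
    rintro ⟨y, hy⟩
    exact absurd hy (show (0 : Fin 2) ≠ 1 by decide)
  conv_lhs => rw [h1]
  rw [map_add, map_add, h2, add_zero, PowerSeries.toMvPowerSeries_C, MvPowerSeries.killCompl_C]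
  rfl

/-- Setting the second parameter to zero: `MvPowerSeries.killCompl` for the embedding
`Unit ↪ Fin 2` with value `0` (`Function.Embedding.punit`) sends `Z2 u u'` to `Z1 u z'`;
`coeff_killCompl`. -/
theorem coeff_Z1_eq {z' : Fin 4 → K} (u u' : Fin 4 → PowerSeries K)
    (h' : ∀ i, PowerSeries.constantCoeff (u' i) = z' i) (p : P8) (κ : ℕ) :
    PowerSeries.coeff κ (aeval (Z1 u z') p) =
      MvPowerSeries.coeff (Finsupp.single 0 κ) (aeval (Z2 u u') p) := by
  have h1 : aeval (Z1 u z') p =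
      MvPowerSeries.killCompl (Function.Embedding.punit (0 : Fin 2)) (aeval (Z2 u u') p) := by
    have h2 := comp_aeval_apply (f := Z2 u u') (MvPowerSeries.killCompl (R := K)
      (Function.Embedding.punit (0 : Fin 2))).toRingHom.toRatAlgHom p
    refine Eq.trans ?_ h2.symm
    congr 2
    funext i
    fin_cases i
    · exact (cvord_kill_zero _).symm
    · exact (cvord_kill_zero _).symm
    · exact (cvord_kill_zero _).symm
    · exact (cvord_kill_zero _).symm
    · exact ((cvord_kill_one _).trans (congrArg _ (h' _))).symm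
    · exact ((cvord_kill_one _).trans (congrArg _ (h' _))).symm
    · exact ((cvord_kill_one _).trans (congrArg _ (h' _))).symm
    · exact ((cvord_kill_one _).trans (congrArg _ (h' _))).symm
  rw [h1, PowerSeries.coeff, MvPowerSeries.coeff_killCompl, Finsupp.embDomain_single]
  rfl

/-- The equation of a curve, as a polynomial in two variables. -/
noncomputable def cvordE (a b : ℤ) : MvPolynomial (Fin 2) ℚ :=
  X 1 ^ 2 - (X 0 ^ 3 + C (a : ℚ) * X 0 + C (b : ℚ))

theorem cvord_il {ε w : ℝ} (ha : |(a : ℝ)| ≤ 2 ^ g) (hb : |(b : ℝ)| ≤ 2 ^ g)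
    (h : g + 2 ≤ ε * w) : IL (cvordE a b) (Real.exp (ε * w)) := by
  refine (((il_X 1).pow 2).sub ((((il_X 0).pow 3).add ((il_intCast a).mul (il_X 0))).add
    (il_intCast b))).mono ?_
  have h1 : (2 : ℝ) ^ (g + 2) ≤ Real.exp (ε * w) := by
    refine le_trans ?_ (Real.exp_le_exp.2 h)
    rw [show (g : ℝ) + 2 = ((g + 2 : ℕ) : ℝ) * 1 by push_cast; ring, Real.exp_nat_mul]
    exact pow_le_pow_left₀ zero_le_two (by linarith [Real.add_one_le_exp 1]) _
  have h2 : (1 : ℝ) ≤ 2 ^ g := one_le_pow₀ one_le_two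
  rw [pow_add] at h1
  nlinarith

theorem cvord_deg (i : Fin 2) : ∀ μ ∈ (cvordE a b).support, μ i ≤ 3 := by
  rw [← wd_single_iff]
  have hX : ∀ j : Fin 2, WD (Pi.single i 1) (X j : MvPolynomial (Fin 2) ℚ) 1 := by
    intro j
    refine (wd_X _ j).mono ?_
    by_cases h : j = i
    · simp [h]
    · simp [h]
  exact (((hX 1).pow 2).mono (by norm_num)).sub (((((hX 0).pow 3).mono (by norm_num)).add
    (((wd_C _ _).mul (hX 0)).mono (by norm_num))).add ((wd_C _ _).mono (by norm_num)))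

theorem cvord_aeval {S : Type*} [CommRing S] [Algebra ℚ S] {x y : S}
    (h : y ^ 2 = x ^ 3 + a * x + b) : aeval ![x, y] (cvordE a b) = 0 := by
  simp [cvordE, h]

theorem cvord_sep {x y : K} (h : y ≠ 0) : aeval ![x, y] (pderiv 1 (cvordE a b)) ≠ 0 := by
  have h1 : pderiv 1 (cvordE a b) = 2 * X 1 := by
    simp [cvordE, pderiv_X]
  rw [h1]
  simpa using h

theorem cvord_supp {s t : Fin 8} (ψ : MvPolynomial (Fin 2) ℚ) {r : Fin 8} (hs : r ≠ s)
    (ht : r ≠ t) : ∀ μ ∈ (rename ![s, t] ψ).support, μ r = 0 := by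
  intro μ hμ
  obtain ⟨ν, -, rfl⟩ := supp_rename _ _ μ hμ
  refine Finsupp.mapDomain_of_notMem_range _ _ ?_
  rintro ⟨i, hi⟩
  fin_cases i
  · exact hs hi.symm
  · exact ht hi.symm

theorem cvord_rel {Z : Fin 8 → MvPowerSeries (Fin 2) K} {w : Fin 8 → ℝ} {ε : ℝ} {B : ℕ}
    {s t : Fin 8} (hst : s ≠ t) (hw : w s ≤ w t) {ψ : MvPolynomial (Fin 2) ℚ}
    (hψ : IL ψ (Real.exp (ε * w t))) (hd : ∀ i, ∀ μ ∈ ψ.support, μ i ≤ B)
    (h0 : aeval ![Z s, Z t] ψ = 0) {x y : K} (hx : MvPowerSeries.constantCoeff (Z s) = x)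
    (hy : MvPowerSeries.constantCoeff (Z t) = y) (h1 : aeval ![x, y] (pderiv 1 ψ) ≠ 0) :
    Rel (aeval Z : P8 →ₐ[ℚ] _).toRingHom w ε B t (rename ![s, t] ψ) := by
  have hi : Function.Injective ![s, t] := by
    intro i j hij
    fin_cases i <;> fin_cases j
    · rfl
    · exact absurd hij hst
    · exact absurd hij hst.symm
    · rfl
  have hZ : Z ∘ ![s, t] = ![Z s, Z t] := by
    funext i
    fin_cases i <;> rfl
  refine ⟨(hψ.rename _).1, fun μ hμ r => ?_, fun μ hμ r hr => ?_, (hψ.rename _).2, ?_, ?_⟩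
  · by_cases hr : r ∈ Set.range ![s, t]
    · obtain ⟨ν, hν, rfl⟩ := supp_rename _ _ μ hμ
      obtain ⟨i, rfl⟩ := hr
      rw [Finsupp.mapDomain_apply hi]
      exact hd i ν hν
    · rw [cvord_supp ψ (fun e => hr ⟨0, e.symm⟩) (fun e => hr ⟨1, e.symm⟩) μ hμ]
      exact Nat.zero_le _
  · refine cvord_supp ψ ?_ ?_ μ hμ
    · rintro rfl
      exact absurd hr (not_lt.2 hw)
    · rintro rfl
      exact lt_irrefl _ hr
  · change aeval Z (rename ![s, t] ψ) = 0
    rw [aeval_rename, hZ, h0]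
  · change aeval Z (pderiv (![s, t] 1) (rename ![s, t] ψ)) ≠ 0
    rw [pderiv_rename hi, aeval_rename, hZ]
    intro h2
    have h3 := comp_aeval_apply (f := ![Z s, Z t])
      (MvPowerSeries.constantCoeff (σ := Fin 2) (R := K)).toRatAlgHom (pderiv 1 ψ)
    rw [h2, map_zero] at h3
    refine h1 (Eq.trans ?_ h3.symm)
    congr 2
    funext i
    fin_cases i
    · exact hx.symm
    · exact hy.symm

omit [CharZero K] in
theorem cvord_cc (f : PowerSeries K) (i : Fin 2) :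
    MvPowerSeries.constantCoeff (f.toMvPowerSeries i) = PowerSeries.constantCoeff f :=
  MvPowerSeries.constantCoeff_rename _ f

/-- `nonvanishing` with `τ = Fin 2`, `e = ![0, 4]`, `blk = id`, `B₀ = B + 3`, `k = 6`,
`l = [1, 3, 5, 7, 2, 6]`, relations `X 1 ^ 2 - (X 0 ^ 3 + a * X 0 + b)`, ..., `rename ![0, 2] φ₁`,
`rename ![4, 6] φ₂`, weights `w` on `0..3` and `W = 4 ^ s * w` on `4..7`, `D = C₀ * W`, and
`min θ 1 / C₀` in place of `θ` (so the exponent of the second parameter is `0`).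
`Rel.sep`: the constant coefficient is `2 y` or `Br.sep` (`pderiv_rename`).  In the exit, `g`
contains one variable only: `height_root_le`.  Take `s₀` with `1 ≤ η * 4 ^ s₀`. -/
theorem small_order [AdmissibleAbsValues K] (hg : Cf a b a' b' g) (B C₀ : ℕ) (hC₀ : 1 ≤ C₀)
    {θ : ℝ} (hθ : 0 < θ) : ∃ Bz s₀ : ℕ, ∀ (ε w : ℝ) (s : ℕ) (φ₁ φ₂ : MvPolynomial (Fin 2) ℚ)
      (z z' : Fin 4 → K) (u u' : Fin 4 → PowerSeries K) (G : P8), 0 < ε → g + 2 ≤ ε * w → s₀ ≤ s →
      IL φ₁ (Real.exp (ε * w)) → IL φ₂ (Real.exp (ε * (4 ^ s * w))) →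
      (∀ i, degreeOf i φ₁ ≤ B) → (∀ i, degreeOf i φ₂ ≤ B) →
      Br a b a' b' φ₁ z u → Br a b a' b' φ₂ z' u' →
      IL G (Real.exp (ε * (C₀ * (4 ^ s * w)))) →
      (∀ μ ∈ G.support, μ 0 ≤ C₀ * 4 ^ s ∧ μ 1 ≤ C₀ * 4 ^ s ∧ μ 2 ≤ C₀ * 4 ^ s ∧ μ 3 ≤ C₀ * 4 ^ s ∧
        μ 4 ≤ C₀ ∧ μ 5 ≤ C₀ ∧ μ 6 ≤ C₀ ∧ μ 7 ≤ C₀) →
      aeval (Z2 u u') G ≠ 0 →
      (∃ κ : ℕ, κ ≤ θ * 4 ^ s ∧ PowerSeries.coeff κ (aeval (Z1 u z') G) ≠ 0) ∨
        logHeight₁ (z 0) ≤ totalWeight K * (Bz * ε * w) ∨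
        logHeight₁ (z' 0) ≤ totalWeight K * (Bz * ε * (4 ^ s * w)) := by
  have hC : (1 : ℝ) ≤ C₀ := by exact_mod_cast hC₀
  have hθ' : 0 < min θ 1 := lt_min hθ one_pos
  obtain ⟨Bz, η, hη, H⟩ := nonvanishing (K := K) (e := (![0, 4] : Fin 2 → Fin 8)) (by decide)
    (id : Fin 2 → Fin 2) (B + 3) 6 (min θ 1 / C₀) (by positivity)
  obtain ⟨s₀, hs₀⟩ := pow_unbounded_of_one_lt (1 / η) (show (1 : ℝ) < 4 by norm_num)
  refine ⟨Bz, s₀, ?_⟩
  intro ε w s φ₁ φ₂ z z' u u' G hε hw hs h1 h2 d1 d2 br br' hG dG h0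
  have hw1 : 1 ≤ ε * w := by linarith [Nat.cast_nonneg (α := ℝ) g]
  have hw0 : 0 < w := (mul_pos_iff_of_pos_left hε).1 (by linarith)
  have h4 : (1 : ℝ) ≤ 4 ^ s := one_le_pow₀ (by norm_num)
  have hW : w ≤ 4 ^ s * w := le_mul_of_one_le_left hw0.le h4
  have hW' : ε * w ≤ ε * (4 ^ s * w) := mul_le_mul_of_nonneg_left hW hε.le
  have hη4 : 1 ≤ η * 4 ^ s := by
    have h5 : (4 : ℝ) ^ s₀ ≤ 4 ^ s := pow_le_pow_right₀ (by norm_num) hs
    rw [div_lt_iff₀' hη] at hs₀
    nlinarith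
  have V := onV_Z2 br br'
  have key := H ε ![w, w, w, w, 4 ^ s * w, 4 ^ s * w, 4 ^ s * w, 4 ^ s * w] hε
    (by
      intro i
      fin_cases i
      exacts [hw1, hw1, hw1, hw1, hw1.trans hW', hw1.trans hW', hw1.trans hW', hw1.trans hW'])
    (by
      rintro i j rfl
      rfl)
    (by
      have h5 : w ≤ η * (4 ^ s * w) := by nlinarith
      intro i j hij
      fin_cases i <;> fin_cases j
      · exact absurd rfl hij
      · exact Or.inl h5
      · exact Or.inr h5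
      · exact absurd rfl hij)
    ![z 0, z' 0] (aeval (Z2 u u') : P8 →ₐ[ℚ] _).toRingHom
    (by
      intro i
      fin_cases i
      · change aeval (Z2 u u') (X 0 : P8) = MvPowerSeries.C (z 0) + MvPowerSeries.X 0
        rw [aeval_X]
        change (u 0).toMvPowerSeries 0 = _
        rw [br.par, map_add, PowerSeries.toMvPowerSeries_C, PowerSeries.toMvPowerSeries_X]
      · change aeval (Z2 u u') (X 4 : P8) = MvPowerSeries.C (z' 0) + MvPowerSeries.X 1
        rw [aeval_X]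
        change (u' 0).toMvPowerSeries 1 = _
        rw [br'.par, map_add, PowerSeries.toMvPowerSeries_C, PowerSeries.toMvPowerSeries_X])
    [1, 3, 5, 7, 2, 6]
    (fun t => rename ![(![0, 0, 0, 2, 4, 4, 4, 6] : Fin 8 → Fin 8) t, t]
      (![0, cvordE a b, φ₁, cvordE a' b', 0, cvordE a b, φ₂, cvordE a' b'] t))
    le_rfl (by decide)
    (by
      refine List.Pairwise.imp (R := fun r t : Fin 8 =>
        r ≠ (![0, 0, 0, 2, 4, 4, 4, 6] : Fin 8 → Fin 8) t ∧ r ≠ t) ?_ (by decide)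
      intro r t h
      exact cvord_supp _ h.1 h.2)
    (by
      have e1 : ∀ i, ∀ μ ∈ φ₁.support, μ i ≤ B + 3 := fun i μ hμ =>
        ((monomial_le_degreeOf i hμ).trans (d1 i)).trans (Nat.le_add_right _ _)
      have e2 : ∀ i, ∀ μ ∈ φ₂.support, μ i ≤ B + 3 := fun i μ hμ =>
        ((monomial_le_degreeOf i hμ).trans (d2 i)).trans (Nat.le_add_right _ _)
      have e3 : ∀ (c d : ℤ) i, ∀ μ ∈ (cvordE c d).support, μ i ≤ B + 3 := fun c d i μ hμ =>
        (cvord_deg i μ hμ).trans (Nat.le_add_left _ _)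
      intro t ht
      simp only [List.mem_cons, List.not_mem_nil, or_false] at ht
      rcases ht with rfl | rfl | rfl | rfl | rfl | rfl
      · exact cvord_rel (s := 0) (t := 1) (by decide) le_rfl (cvord_il hg.1 hg.2.1 hw) (e3 _ _)
          (cvord_aeval V.e1) ((cvord_cc _ _).trans (br.cc 0)) ((cvord_cc _ _).trans (br.cc 1))
          (cvord_sep br.y1)
      · exact cvord_rel (s := 2) (t := 3) (by decide) le_rfl (cvord_il hg.2.2.1 hg.2.2.2 hw)
          (e3 _ _) (cvord_aeval V.e3) ((cvord_cc _ _).trans (br.cc 2))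
          ((cvord_cc _ _).trans (br.cc 3)) (cvord_sep br.y3)
      · exact cvord_rel (s := 4) (t := 5) (by decide) le_rfl
          (cvord_il hg.1 hg.2.1 (hw.trans hW')) (e3 _ _)
          (cvord_aeval V.e5) ((cvord_cc _ _).trans (br'.cc 0)) ((cvord_cc _ _).trans (br'.cc 1))
          (cvord_sep br'.y1)
      · exact cvord_rel (s := 6) (t := 7) (by decide) le_rfl
          (cvord_il hg.2.2.1 hg.2.2.2 (hw.trans hW')) (e3 _ _) (cvord_aeval V.e7)
          ((cvord_cc _ _).trans (br'.cc 2)) ((cvord_cc _ _).trans (br'.cc 3)) (cvord_sep br'.y3)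
      · exact cvord_rel (s := 0) (t := 2) (by decide) le_rfl h1 e1 V.f1
          ((cvord_cc _ _).trans (br.cc 0)) ((cvord_cc _ _).trans (br.cc 2)) br.sep
      · exact cvord_rel (s := 4) (t := 6) (by decide) le_rfl h2 e2 V.f2
          ((cvord_cc _ _).trans (br'.cc 0)) ((cvord_cc _ _).trans (br'.cc 2)) br'.sep)
    (C₀ * (4 ^ s * w)) (by nlinarith) G
    ⟨hG.1, by
      intro μ hμ i
      have k1 : ∀ m : ℕ, m ≤ C₀ * 4 ^ s → w * m ≤ C₀ * (4 ^ s * w) := by
        intro m hm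
        have k2 : (m : ℝ) ≤ C₀ * 4 ^ s := by exact_mod_cast hm
        nlinarith
      have k2 : ∀ m : ℕ, m ≤ C₀ → 4 ^ s * w * m ≤ C₀ * (4 ^ s * w) := by
        intro m hm
        have k2 : (m : ℝ) ≤ C₀ := by exact_mod_cast hm
        nlinarith
      obtain ⟨g0, g1, g2, g3, g4, g5, g6, g7⟩ := dG μ hμ
      fin_cases i
      exacts [k1 _ g0, k1 _ g1, k1 _ g2, k1 _ g3, k2 _ g4, k2 _ g5, k2 _ g6, k2 _ g7], hG.2⟩ h0
  rcases key with ⟨κ, hκ, hc⟩ | ⟨i, p, hp, p1, p2, p3, p4⟩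
  · have k0 : min θ 1 / C₀ * (C₀ * (4 ^ s * w)) = min θ 1 * (4 ^ s * w) := by field_simp
    rw [k0, Finsupp.weight_apply, Finsupp.sum_fintype _ _ (by simp), Fin.sum_univ_two,
      nsmul_eq_mul, nsmul_eq_mul] at hκ
    change (κ 0 : ℝ) * w + κ 1 * (4 ^ s * w) < _ at hκ
    have hW0 : 0 < 4 ^ s * w := by positivity
    have k1 : κ 1 = 0 := by
      have k2 := mul_le_mul_of_nonneg_right (min_le_right θ 1) hW0.le
      have k3 : (κ 1 : ℝ) < 1 := by
        refine lt_of_mul_lt_mul_right ?_ hW0.le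
        nlinarith [mul_nonneg (Nat.cast_nonneg (α := ℝ) (κ 0)) hw0.le]
      exact Nat.lt_one_iff.1 (by exact_mod_cast k3)
    have k2 : κ = Finsupp.single 0 (κ 0) := by
      ext j
      fin_cases j
      · simp
      · simpa using k1
    refine Or.inl ⟨κ 0, ?_, ?_⟩
    · have k3 := mul_le_mul_of_nonneg_right (min_le_left θ 1) hW0.le
      rw [k1, Nat.cast_zero, zero_mul, add_zero] at hκ
      refine le_of_mul_le_mul_right ?_ hw0
      nlinarith
    · rw [coeff_Z1_eq u u' br'.cc, ← k2]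
      exact hc
  · have k1 := height_root_le hp.ne_zero ⟨p1, p3⟩ i (fun μ hμ t ht => (p2 μ hμ t).1 ht) _ p4
    rw [Real.log_exp] at k1
    fin_cases i
    · exact Or.inr (Or.inl k1)
    · exact Or.inr (Or.inr k1)

end Pool.Agent.Lib.MP_651af7_nt.Vj
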