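import Pool.Agent.Lib.MP_651af7_nt.Vj.CvCons
import Pool.Agent.Lib.MP_651af7_nt.Vj.CvOrd
import Pool.Agent.Lib.MP_651af7_nt.Vj.CvIneq

/-! The two point inequality. -/

namespace Pool.Agent.Lib.MP_651af7_nt.Vj

open MvPolynomial Finset Height Pool.Agent.Lib.Common.Subspace

variable {K : Type} [Field K] [CharZero K] [AdmissibleAbsValues K] {a b a' b' : ℤ}

theorem core (a b a' b' : ℤ) (B k n : ℕ) (hn : k + B + 2 ≤ 2 * n) {θ : ℝ} (hθ : 0 < θ) :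
    ∃ (C : ℝ) (s₀ : ℕ), 1 ≤ C ∧ ∀ (ε w : ℝ) (s ν : ℕ) (φ₁ φ₂ : MvPolynomial (Fin 2) ℚ)
      (z z' : Fin 4 → K) (u u' : Fin 4 → PowerSeries K) (xp xp' : K), 0 < ε → ε ≤ 1 →
      C ≤ ε * w → s₀ ≤ s → 0 < ν → ν ≤ 4 ^ s → 512 * (B + 4) ^ 5 * (k + 2) * 4 ^ s ≤ n * ν →
      IL φ₁ (Real.exp (ε * w)) → IL φ₂ (Real.exp (ε * (4 ^ s * w))) →
      (∀ i, degreeOf i φ₁ ≤ B) → 1 ≤ degreeOf 1 φ₁ → φ₂ ≠ 0 → (∀ i, degreeOf i φ₂ ≤ B) →
      Br a b a' b' φ₁ z u → Br a b a' b' φ₂ z' u' → logHeight₁ (z 0) + logHeight₁ (z 2) ≤ w →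
      SumData (a : K) b (z' 0) (z' 1) (mulP (a : K) b (z 0) (z 1) s) xp →
      SumData (a' : K) b' (z' 2) (z' 3) (mulP (a' : K) b' (z 2) (z 3) s) xp' →
      (∀ c : VI n ν → ℤ, c ≠ 0 → aeval (Z2 u u') (Gc a b a' b' s n c (false, false)) ≠ 0) →
      C * ε * w < logHeight₁ (z 0) → C * ε * (4 ^ s * w) < logHeight₁ (z' 0) →
      n * (logHeight₁ xp + logHeight₁ xp') ≤
        (2 * n * 4 ^ s + ν) * logHeight₁ (z 0) + 2 * n * 4 ^ s * logHeight₁ (z 2) +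
          (2 * n - k) * logHeight₁ (z' 0) + 2 * n * logHeight₁ (z' 2) +
          (θ + C * ε) * (4 ^ s * w) := by
  classical
  obtain ⟨g, hg⟩ := exists_cf a b a' b'
  obtain ⟨C₁, H₁⟩ := construct hg B k n hn
  obtain ⟨C₂, hC₂, H₂⟩ := main_ineq (K := K) hg B
  obtain ⟨Bz, s₀, H₃⟩ := small_order (K := K) hg B (2 * C₁ + 2 * n + 1) (by omega)
    (θ := θ / (C₂ + 1)) (by positivity)
  set τ : ℝ := (totalWeight K : ℝ) with hτ
  have τ0 : 0 ≤ τ := Nat.cast_nonneg _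
  have p₁ : 0 ≤ τ * Bz := by positivity
  have p₂ : 0 ≤ τ * (2 * C₁) := by positivity
  have p₃ : 0 ≤ C₂ * (8 * n + 1) := by positivity
  have p₄ : (0 : ℝ) ≤ g := by positivity
  set C : ℝ := g + 2 + τ * Bz + τ * (2 * C₁) + C₂ * (8 * n + 1) with hC
  refine ⟨C, s₀, by linarith, fun ε w s ν φ₁ φ₂ z z' u u' xp xp' hε hε1 hw hs hν hν' hc i₁ i₂ d₁ d₁'
    n₂ d₂ b₁ b₂ hz x₁ x₂ hne l₁ l₂ => ?_⟩
  have w0 : 0 < w := (mul_pos_iff_of_pos_left hε).1 (by linarith)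
  have w1 : ε * w ≤ w := by nlinarith
  have q1 : (1 : ℝ) ≤ 4 ^ s := one_le_pow₀ (by norm_num)
  have w2 : 0 < ε * (4 ^ s * w) := by positivity
  have t1 : 2 ≤ Real.exp (ε * w) := by linarith [Real.add_one_le_exp (ε * w)]
  obtain ⟨c, c₀, Gl, k1, k2, k3, k4, k5⟩ := H₁ s ν φ₁ φ₂ _ _ i₁ i₂ t1 (Real.one_le_exp w2.le) d₁ d₁'
    n₂ d₂ hν hν' hc
  have t2 : Real.exp (ε * w) ^ (C₁ * 4 ^ s) * Real.exp (ε * (4 ^ s * w)) ^ C₁ =
      Real.exp (2 * C₁ * (ε * (4 ^ s * w))) := by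
    rw [← Real.exp_nat_mul, ← Real.exp_nat_mul, ← Real.exp_add]
    push_cast
    ring_nf
  rw [t2] at k3 k4
  have q2 : 1 ≤ 4 ^ s := Nat.one_le_pow _ _ (by norm_num)
  rcases H₃ ε w s φ₁ φ₂ z z' u u' _ hε (by linarith) hs i₁ i₂ d₁ d₂ b₁ b₂
    ((k3 (false, false)).mono (Real.exp_le_exp.2 (by
      push_cast
      nlinarith [show (0 : ℝ) ≤ n by positivity])))
    (fun μ hμ => by
      obtain ⟨e0, e1, e2, e3⟩ := weight_wt μ
      have f0 := wd_Gc a b a' b' s n c (false, false) 0 μ hμ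
      have f1 := wd_Gc a b a' b' s n c (false, false) 1 μ hμ
      have f2 := wd_Gc a b a' b' s n c (false, false) 2 μ hμ
      have f3 := wd_Gc a b a' b' s n c (false, false) 3 μ hμ
      rw [e0] at f0
      rw [e1] at f1
      rw [e2] at f2
      rw [e3] at f3
      simp only [Matrix.cons_val] at f0 f1 f2 f3
      rw [add_mul, add_mul, one_mul]
      omega) (hne c k1) with ⟨κ₀, m1, m2⟩ | h | h
  · have ex : ∃ κ, PowerSeries.coeff κ
        (aeval (Z1 u z') (Gc a b a' b' s n c (false, false))) ≠ 0 := ⟨κ₀, m2⟩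
    have m3 : ((Nat.find ex : ℕ) : ℝ) ≤ κ₀ := Nat.cast_le.2 (Nat.find_min' ex m2)
    have m4 := H₂ φ₁ φ₂ _ _ w z z' u u' n (Nat.find ex) xp xp' _ Gl _ i₁ t1
      (by rwa [Real.log_exp]) (by linarith) d₁ b₁ b₂ hz (Real.one_le_exp (by positivity)) k4
      (mul_ne_zero (Int.cast_ne_zero.2 k2) (Nat.find_spec ex)) (fun e => by
        rw [k5 _ _ (onV_Z1 b₁ b₂) (aeval_Z1_ne_zero b₁) e, ← map_intCast (PowerSeries.C (R := K)),
          PowerSeries.coeff_C_mul,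
          coeff_Gc b₁ b₂ c x₁ x₂ (fun l hl => not_not.1 (Nat.find_min ex hl)) e]
        ring)
    rw [Real.log_exp] at m4
    simp only [Matrix.cons_val] at m4
    have m5 : C₂ * ((Nat.find ex : ℕ) * w) ≤ θ * (4 ^ s * w) := by
      have e1 : C₂ * (θ / (C₂ + 1)) ≤ θ := by
        rw [← mul_div_assoc, div_le_iff₀ (by positivity)]
        nlinarith
      have e2 := mul_le_mul_of_nonneg_left (mul_le_mul_of_nonneg_right (m3.trans m1) w0.le) hC₂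
      have e3 := mul_le_mul_of_nonneg_right e1 (show 0 ≤ 4 ^ s * w by positivity)
      linarith
    have m6 : ((2 * n * 4 ^ s + ν + 2 * n * 4 ^ s + (2 * n - k) + 2 * n : ℕ) : ℝ) ≤
        (8 * n + 1) * (ε * (4 ^ s * w)) := by
      have e1 : 2 * n * 4 ^ s + ν + 2 * n * 4 ^ s + (2 * n - k) + 2 * n ≤ (8 * n + 1) * 4 ^ s := by
        have := Nat.mul_le_mul_left n q2
        have := Nat.sub_le (2 * n) k
        nlinarith
      refine (Nat.cast_le.2 e1).trans ?_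
      push_cast
      refine mul_le_mul_of_nonneg_left ?_ (by positivity)
      nlinarith
    have m7 := mul_le_mul_of_nonneg_left m6 hC₂
    have m8 : (τ * (2 * C₁) + C₂ * (8 * n + 1)) * (ε * (4 ^ s * w)) ≤ C * (ε * (4 ^ s * w)) :=
      mul_le_mul_of_nonneg_right (by linarith) w2.le
    rw [Nat.cast_sub (by omega : k ≤ 2 * n)] at m4
    push_cast at m4 m7
    linarith
  · have : τ * Bz * (ε * w) ≤ C * (ε * w) :=
      mul_le_mul_of_nonneg_right (by linarith) (by positivity)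
    linarith
  · have : τ * Bz * (ε * (4 ^ s * w)) ≤ C * (ε * (4 ^ s * w)) :=
      mul_le_mul_of_nonneg_right (by linarith) w2.le
    linarith

end Pool.Agent.Lib.MP_651af7_nt.Vj
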