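import Pool.Agent.Lib.MP_651af7_nt.Vj.Nrm

/-! Taylor estimates for `Nrm`. -/

namespace Pool.Agent.Lib.MP_651af7_nt.Vj

open MvPolynomial Finset Pool.Agent.Lib.Common.Subspace

variable {R : Type*} [CommRing R] (n : Nrm R) {σ : Type*}

theorem nrmT_prod_add (z : σ → R) (μ ν : σ →₀ ℕ) :
    ((μ + ν).prod fun s k => z s ^ k) = (μ.prod fun s k => z s ^ k) * ν.prod fun s k => z s ^ k :=
  Finsupp.prod_add_index' (fun _ => pow_zero _) (fun _ _ _ => pow_add _ _ _)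

theorem nrmT_prod_single (z : σ → R) (s : σ) (j : ℕ) :
    ((Finsupp.single s j).prod fun s k => z s ^ k) = z s ^ j :=
  Finsupp.prod_single_index (pow_zero _)

theorem nrmT_mon_le (z : σ → R) {E : ℝ} (μ : σ →₀ ℕ) (hz : ∀ s ∈ μ.support, n.N (z s) ≤ E) :
    n.N (μ.prod fun s k => z s ^ k) ≤ E ^ μ.degree := by
  rw [Finsupp.degree_apply, ← prod_pow_eq_pow_sum]
  exact n.prod_le _ fun s hs => n.pow_le (hz s hs) _

/-- Lipschitz bound for a monomial: induction on `μ` (on the degree), multiplying by one variable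
at a time: `D' = z s * D + m₀ * (z s - z₀ s)`, with `N (z s) ≤ 2 ^ e * E` because `τ ≤ 1 ≤ E`. -/
theorem Nrm.monomial_sub (z z₀ : σ → R) {E τ : ℝ} (hE : 1 ≤ E) (hτ : 0 ≤ τ) (hτ1 : τ ≤ 1)
    (μ : σ →₀ ℕ) (hz : ∀ s ∈ μ.support, n.N (z₀ s) ≤ E ∧ n.N (z s - z₀ s) ≤ τ) :
    n.N ((μ.prod fun s k => z s ^ k) - μ.prod fun s k => z₀ s ^ k) ≤
      (3 ^ μ.degree) ^ n.e * (E ^ μ.degree * τ) := by
  classical
  induction hd : μ.degree generalizing μ with
  | zero =>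
    rw [(Finsupp.degree_eq_zero_iff μ).1 hd]
    simp [n.zero, hτ]
  | succ d ih =>
    have h0 : μ ≠ 0 := by rintro rfl; simp at hd
    obtain ⟨s, hs⟩ := Finsupp.support_nonempty_iff.2 h0
    have hle : Finsupp.single s 1 ≤ μ :=
      Finsupp.single_le_iff.2 (Nat.pos_of_ne_zero (Finsupp.mem_support_iff.1 hs))
    obtain ⟨ν, hν⟩ := exists_add_of_le hle
    have hνd : ν.degree = d := by
      rw [hν, map_add, Finsupp.degree_single] at hd
      omega
    have hsub : ∀ t ∈ ν.support, t ∈ μ.support := by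
      intro t ht
      rw [Finsupp.mem_support_iff] at ht ⊢
      rw [hν, Finsupp.add_apply]
      omega
    have h1 := ih ν (fun t ht => hz t (hsub t ht)) hνd
    have h2 := nrmT_mon_le n z₀ ν (fun t ht => (hz t (hsub t ht)).1)
    rw [hνd] at h2
    have h3 : n.N (z s) ≤ 2 ^ n.e * E := by
      have := n.add_le_two (hz s hs).1 ((hz s hs).2.trans (hτ1.trans hE))
      rwa [add_sub_cancel] at this
    rw [hν, nrmT_prod_add, nrmT_prod_add, nrmT_prod_single, nrmT_prod_single, pow_one, pow_one]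
    set m := ν.prod fun s k => z s ^ k
    set m₀ := ν.prod fun s k => z₀ s ^ k
    have e : z s * m - z₀ s * m₀ = z s * (m - m₀) + m₀ * (z s - z₀ s) := by ring
    have e3 : (3 : ℝ) ^ (d + 1) = 2 * 3 ^ d + 3 ^ d := by ring
    rw [e, e3]
    refine n.add_le ?_ ?_
    · refine (n.mul_le h3 h1).trans (le_of_eq ?_)
      rw [mul_pow]; ring
    · refine (n.mul_le h2 (hz s hs).2).trans ?_
      have h4 : (1 : ℝ) ≤ (3 ^ d) ^ n.e := n.one_le_pow_e (one_le_pow₀ (by norm_num))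
      have h5 : E ^ d ≤ E ^ (d + 1) := pow_le_pow_right₀ hE (Nat.le_succ d)
      calc E ^ d * τ = 1 * (E ^ d * τ) := by ring
        _ ≤ _ := by gcongr

/-- Second order remainder of a power: `R (j + 1) = (c + u) * R j + j * c ^ (j - 1) * u ^ 2`. -/
theorem Nrm.pow_rem (c u : R) {E t : ℝ} (hE : 1 ≤ E) (ht1 : t ≤ 1) (hc : n.N c ≤ E)
    (hu : n.N u ≤ t) (j : ℕ) :
    n.N ((c + u) ^ j - c ^ j - (j : R) * c ^ (j - 1) * u) ≤ (3 ^ j) ^ n.e * (E ^ j * t ^ 2) := by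
  induction j with
  | zero => simp [n.zero, sq_nonneg]
  | succ j ih =>
    have e : (c + u) ^ (j + 1) - c ^ (j + 1) - ((j + 1 : ℕ) : R) * c ^ (j + 1 - 1) * u =
        (c + u) * ((c + u) ^ j - c ^ j - (j : R) * c ^ (j - 1) * u) +
          (j : R) * c ^ (j - 1) * u ^ 2 := by
      rcases j with _ | j
      · simp
      · simp only [Nat.add_sub_cancel]
        push_cast
        ring
    have e3 : (3 : ℝ) ^ (j + 1) = 2 * 3 ^ j + 3 ^ j := by ring
    have h3 : n.N (c + u) ≤ 2 ^ n.e * E := n.add_le_two hc (hu.trans (ht1.trans hE))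
    rw [e, e3]
    refine n.add_le ?_ ?_
    · refine (n.mul_le h3 ih).trans (le_of_eq ?_)
      rw [mul_pow]; ring
    · refine (n.mul_le (n.mul_le (n.natCast_le j) (n.pow_le hc _)) (n.pow_le hu 2)).trans ?_
      have h4 : (j : ℝ) ≤ 3 ^ j := by
        have := (Nat.lt_pow_self (n := j) (show 1 < 3 by norm_num)).le
        exact_mod_cast this
      have h5 : E ^ (j - 1) ≤ E ^ (j + 1) := pow_le_pow_right₀ hE (by omega)
      rw [mul_assoc]
      gcongr

variable [Algebra ℚ R]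

omit [Algebra ℚ R] in
theorem nrmT_mon_rem [DecidableEq σ] {D : ℕ} (t : σ) (z z₀ : σ → R) {E τ t' : ℝ}
    (hE : 1 ≤ E) (hτ : 0 ≤ τ) (hτ1 : τ ≤ 1) (ht1 : t' ≤ 1) (μ : σ →₀ ℕ) (hD : μ.degree ≤ D)
    (hz : ∀ s ∈ μ.support, n.N (z₀ s) ≤ E ∧ (s ≠ t → n.N (z s - z₀ s) ≤ τ))
    (u : R) (hu : n.N u ≤ t') :
    n.N ((μ.prod fun s k => Function.update z t (z₀ t + u) s ^ k) - (μ.prod fun s k => z₀ s ^ k) -
      (μ t : R) * ((μ - Finsupp.single t 1).prod fun s k => z₀ s ^ k) * u) ≤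
      (2 * 3 ^ D) ^ n.e * (E ^ D * max τ (t' ^ 2)) := by
  set ν := μ.erase t with hν
  set j := μ t with hj
  have hμ : μ = ν + Finsupp.single t j := (Finsupp.erase_add_single t μ).symm
  have hμ' : μ - Finsupp.single t 1 = ν + Finsupp.single t (j - 1) := by
    ext s
    by_cases hs : s = t
    · subst hs
      simp [hν, hj]
    · simp [hν, hs, Finsupp.single_eq_of_ne hs]
  have hνs : ∀ s ∈ ν.support, s ∈ μ.support ∧ s ≠ t := by
    intro s hs
    rw [hν, Finsupp.support_erase, mem_erase] at hs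
    exact ⟨hs.2, hs.1⟩
  have hdeg : ν.degree + j ≤ D := by
    rw [hμ, map_add, Finsupp.degree_single] at hD
    exact hD
  have hup : (ν.prod fun s k => Function.update z t (z₀ t + u) s ^ k) =
      ν.prod fun s k => z s ^ k :=
    Finsupp.prod_congr fun s hs => by rw [Function.update_of_ne (hνs s hs).2]
  have h1 := n.monomial_sub z z₀ hE hτ hτ1 ν
    (fun s hs => ⟨(hz s (hνs s hs).1).1, (hz s (hνs s hs).1).2 (hνs s hs).2⟩)
  have h2 := nrmT_mon_le n z₀ ν (fun s hs => (hz s (hνs s hs).1).1)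
  have h3 : n.N ((z₀ t + u) ^ j) ≤ (2 ^ n.e * E) ^ j ∧
      n.N ((z₀ t + u) ^ j - z₀ t ^ j - (j : R) * z₀ t ^ (j - 1) * u) ≤
        (3 ^ j) ^ n.e * (E ^ j * t' ^ 2) := by
    rcases Nat.eq_zero_or_pos j with h0 | h0
    · rw [h0]
      simp [n.zero, n.one, sq_nonneg]
    · have hc := (hz t (Finsupp.mem_support_iff.2 h0.ne')).1
      exact ⟨n.pow_le (n.add_le_two hc (hu.trans (ht1.trans hE))) j,
        n.pow_rem _ _ hE ht1 hc hu j⟩
  rw [hμ']
  conv_lhs => rw [hμ]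
  rw [nrmT_prod_add, nrmT_prod_add, nrmT_prod_add, nrmT_prod_single, nrmT_prod_single,
    nrmT_prod_single, hup, Function.update_self]
  set m := ν.prod fun s k => z s ^ k
  set m₀ := ν.prod fun s k => z₀ s ^ k
  set d := ν.degree
  have e : m * (z₀ t + u) ^ j - m₀ * z₀ t ^ j - (j : R) * (m₀ * z₀ t ^ (j - 1)) * u =
      (m - m₀) * (z₀ t + u) ^ j +
        m₀ * ((z₀ t + u) ^ j - z₀ t ^ j - (j : R) * z₀ t ^ (j - 1) * u) := by ring
  have hED : E ^ (d + j) ≤ E ^ D := pow_le_pow_right₀ hE hdeg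
  rw [e, two_mul]
  refine n.add_le ?_ ?_
  · refine (n.mul_le h1 h3.1).trans ?_
    have h4 : (3 : ℝ) ^ d * 2 ^ j ≤ 3 ^ D := by
      calc (3 : ℝ) ^ d * 2 ^ j ≤ 3 ^ d * 3 ^ j := by gcongr; norm_num
        _ = 3 ^ (d + j) := by ring
        _ ≤ _ := pow_le_pow_right₀ (by norm_num) hdeg
    calc _ = ((3 : ℝ) ^ d * 2 ^ j) ^ n.e * (E ^ (d + j) * τ) := by
          rw [mul_pow, mul_pow, ← pow_mul 2, ← pow_mul 2, mul_comm n.e j]; ring
      _ ≤ _ := by gcongr; exact le_max_left _ _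
  · refine (n.mul_le h2 h3.2).trans ?_
    have h4 : (3 : ℝ) ^ j ≤ 3 ^ D := pow_le_pow_right₀ (by norm_num) (by omega)
    calc _ = ((3 : ℝ) ^ j) ^ n.e * (E ^ (d + j) * t' ^ 2) := by ring
      _ ≤ _ := by gcongr; exact le_max_right _ _

/-- Remainder of the Taylor expansion at `z₀`, first order only in the variable `t`.
For a monomial `μ` with `j = μ t`, `c = z₀ t`, `m = ∏_{s ≠ t} z s ^ μ s`, `m₀` its value at `z₀`, the
remainder is `(m - m₀) * (c + u) ^ j + m₀ * ((c + u) ^ j - c ^ j - j c ^ (j - 1) * u)`; sum with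
`sum_le` (weights `|coeff μ Φ| * (2 * 3 ^ D)`), `pderiv_monomial`. -/
theorem Nrm.taylor_rem [DecidableEq σ] {Φ : MvPolynomial σ ℚ} {T : ℝ} (hΦ : IL Φ T) {D : ℕ}
    (hD : WD (fun _ => 1) Φ D) (t : σ) (z z₀ : σ → R) {E τ t' : ℝ}
    (hE : 1 ≤ E) (hτ : 0 ≤ τ) (hτ1 : τ ≤ 1) (ht1 : t' ≤ 1)
    (hz : ∀ μ ∈ Φ.support, ∀ s ∈ μ.support,
      n.N (z₀ s) ≤ E ∧ (s ≠ t → n.N (z s - z₀ s) ≤ τ))
    (u : R) (hu : n.N u ≤ t') :
    n.N (aeval (Function.update z t (z₀ t + u)) Φ - aeval z₀ Φ - aeval z₀ (pderiv t Φ) * u) ≤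
      (2 * 3 ^ D * T) ^ n.e * (E ^ D * max τ (t' ^ 2)) := by
  have e : aeval (Function.update z t (z₀ t + u)) Φ - aeval z₀ Φ - aeval z₀ (pderiv t Φ) * u =
      ∑ μ ∈ Φ.support, algebraMap ℚ R (coeff μ Φ) *
        ((μ.prod fun s k => Function.update z t (z₀ t + u) s ^ k) - (μ.prod fun s k => z₀ s ^ k) -
          (μ t : R) * ((μ - Finsupp.single t 1).prod fun s k => z₀ s ^ k) * u) := by
    conv_lhs => rw [Φ.as_sum]
    rw [map_sum, map_sum, map_sum, map_sum, sum_mul, ← sum_sub_distrib, ← sum_sub_distrib]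
    refine sum_congr rfl fun μ _ => ?_
    rw [pderiv_monomial, aeval_monomial, aeval_monomial, aeval_monomial, map_mul, map_natCast]
    ring
  have hM : 0 ≤ E ^ D * max τ (t' ^ 2) :=
    mul_nonneg (by positivity) (hτ.trans (le_max_left _ _))
  rw [e]
  refine (n.sum_le _ (m := fun μ => |((coeff μ Φ : ℚ) : ℝ)| * (2 * 3 ^ D)) hM
    (fun μ hμ => ?_)).trans ?_
  · have h1 : n.N (algebraMap ℚ R (coeff μ Φ)) ≤ |((coeff μ Φ : ℚ) : ℝ)| ^ n.e := by
      obtain ⟨c, hc⟩ := hΦ.1 μ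
      rw [hc, map_intCast, Rat.cast_intCast]
      exact n.intCast_le c
    have h2 : μ.degree ≤ D := by
      rw [Finsupp.degree_eq_weight_one]
      exact hD μ hμ
    refine (n.mul_le h1 (nrmT_mon_rem n t z z₀ hE hτ hτ1 ht1 μ h2 (hz μ hμ) u hu)).trans
      (le_of_eq ?_)
    rw [mul_pow _ (2 * 3 ^ D : ℝ), mul_assoc]
  · refine mul_le_mul_of_nonneg_right (n.pow_e_mono (sum_nonneg fun _ _ => by positivity) ?_) hM
    rw [← sum_mul, ← len_eq, mul_comm]
    exact mul_le_mul_of_nonneg_left hΦ.2 (by positivity)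

end Pool.Agent.Lib.MP_651af7_nt.Vj
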