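import Pool.Agent.Lib.MP_651af7_nt.Vj.Fix
import Pool.Agent.Lib.MP_651af7_nt.Vj.NrmT

/-! Size of a formal branch. -/

namespace Pool.Agent.Lib.MP_651af7_nt.Vj

open MvPolynomial Finset Pool.Agent.Lib.Common.Subspace

variable {K : Type*} [Field K] [CharZero K] (L : Loc K) {κ : ℕ} {ρ : ℝ} {σ : Type*}

variable [DecidableEq σ]

/-- Size of the branch: `δ = z t - C (z₀ t)` is a fixed point of `newton`, and
`newton u = - α⁻¹ * (Taylor remainder)`; use `Contr.N_fix_le`, `N_mono`, and `Nrm.taylor_rem` for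
`L.ser l hρ` with base point `fun s => C (constantCoeff (z s))` (`C_aeval`). -/
theorem Loc.hensel_est (hρ : 0 ≤ ρ) {Φ : MvPolynomial σ ℚ} {T : ℝ} (hΦ : IL Φ T) {D : ℕ}
    (hD : WD (fun _ => 1) Φ D) (t : σ) (z : σ → PowerSeries K) (hz0 : aeval z Φ = 0)
    {α : K} (hα : aeval (fun s => PowerSeries.constantCoeff (z s)) (pderiv t Φ) = α) (hα0 : α ≠ 0)
    {E τ t' Q : ℝ} (hE : 1 ≤ E)
    (h₀ : ∀ μ ∈ Φ.support, ∀ s ∈ μ.support, L.v (PowerSeries.constantCoeff (z s)) ≤ E)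
    (hQ : (2 * 3 ^ D * T) ^ L.e * E ^ D * L.v α⁻¹ ≤ Q) (hQ1 : 1 ≤ Q) (hτ : 0 ≤ τ)
    (ht : t' * Q ≤ 1) (hτt : τ * Q ≤ t')
    (hz : ∀ μ ∈ Φ.support, ∀ s ∈ μ.support, s ≠ t →
      L.N κ ρ (z s - PowerSeries.C (PowerSeries.constantCoeff (z s))) ≤ τ) :
    L.N κ ρ (z t - PowerSeries.C (PowerSeries.constantCoeff (z t))) ≤ t' := by
  set c := PowerSeries.constantCoeff (z t) with hc
  have ht0 : 0 ≤ t' := (mul_nonneg hτ (zero_le_one.trans hQ1)).trans hτt
  have ht1 : t' ≤ 1 := (le_mul_of_one_le_right ht0 hQ1).trans ht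
  have hτ1 : τ ≤ 1 := ((le_mul_of_one_le_right hτ hQ1).trans hτt).trans ht1
  have hup : Function.update (fun s => PowerSeries.constantCoeff (z s)) t c =
      fun s => PowerSeries.constantCoeff (z s) := Function.update_eq_self t _
  have h00 : aeval (fun s => PowerSeries.constantCoeff (z s)) Φ = 0 := by
    rw [← constantCoeff_aeval, hz0, map_zero]
  have hF : Contr (newton Φ t z c α) :=
    contr_newton Φ t z c α (by rw [hup, h00]) (by rw [hup, hα]) hα0
  refine hF.N_fix_le L hρ ht0 (fun l hl u _ hu => ?_) (by simp [hc]) ?_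
  · have h1 := (L.ser l hρ).taylor_rem hΦ hD t z
      (fun s => PowerSeries.C (PowerSeries.constantCoeff (z s))) hE hτ hτ1 ht1
      (fun μ hμ s hs => ⟨(L.N_C (κ := l) hρ _).le.trans (h₀ μ hμ s hs),
        fun hst => (L.N_mono hρ _ hl).trans (hz μ hμ s hs hst)⟩) u hu
    rw [← C_aeval, ← C_aeval, h00, hα, map_zero, sub_zero] at h1
    have h2 : newton Φ t z c α u = -(PowerSeries.C α⁻¹ *
        (aeval (Function.update z t (PowerSeries.C c + u)) Φ - PowerSeries.C α * u)) := by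
      have h3 : (PowerSeries.C α⁻¹ * PowerSeries.C α : PowerSeries K) = 1 := by
        rw [← map_mul, inv_mul_cancel₀ hα0, map_one]
      unfold newton
      linear_combination (-u) * h3
    rw [h2, L.N_neg]
    refine (L.N_mul hρ _ _).trans ?_
    rw [L.N_C hρ]
    have h4 : Q * max τ (t' ^ 2) ≤ t' := by
      rcases le_total τ (t' ^ 2) with h | h
      · rw [max_eq_right h]
        nlinarith
      · rw [max_eq_left h]
        linarith
    calc L.v α⁻¹ * L.N l ρ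
          (aeval (Function.update z t (PowerSeries.C c + u)) Φ - PowerSeries.C α * u)
        ≤ L.v α⁻¹ * ((2 * 3 ^ D * T) ^ L.e * (E ^ D * max τ (t' ^ 2))) :=
          mul_le_mul_of_nonneg_left h1 (L.v.nonneg _)
      _ = (2 * 3 ^ D * T) ^ L.e * E ^ D * L.v α⁻¹ * max τ (t' ^ 2) := by ring
      _ ≤ Q * max τ (t' ^ 2) := mul_le_mul_of_nonneg_right hQ (hτ.trans (le_max_left _ _))
      _ ≤ t' := h4
  · unfold newton
    rw [add_sub_cancel, Function.update_eq_self, hz0, mul_zero, sub_zero]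

/-- The curve equation as a polynomial in `y, x, a, b`. -/
noncomputable def henselPhi : MvPolynomial (Fin 4) ℚ := X 0 ^ 2 - X 1 ^ 3 - X 2 * X 1 - X 3

theorem henselPhi_aeval {R : Type*} [CommRing R] [Algebra ℚ R] (z : Fin 4 → R) :
    aeval z henselPhi = z 0 ^ 2 - z 1 ^ 3 - z 2 * z 1 - z 3 := by
  simp [henselPhi]

theorem henselPhi_pderiv {R : Type*} [CommRing R] [Algebra ℚ R] (z : Fin 4 → R) :
    aeval z (pderiv 0 henselPhi) = 2 * z 0 := by
  simp [henselPhi, pderiv_X]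

theorem henselPhi_il : IL henselPhi 4 :=
  (((((il_X 0).pow 2).sub ((il_X 1).pow 3)).sub ((il_X 2).mul (il_X 1))).sub (il_X 3)).mono
    (by norm_num)

theorem henselPhi_wd : WD (fun _ => 1) henselPhi 3 :=
  (((((wd_X _ 0).pow 2).mono (by norm_num)).sub (((wd_X _ 1).pow 3).mono (by norm_num))).sub
    (((wd_X _ 2).mul (wd_X _ 1)).mono (by norm_num))).sub ((wd_X _ 3).mono (by norm_num))

/-- The branch `y` over a series `x`: existence (`hensel_exists` with `σ = Fin 4`, variables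
`y, x, a, b`, `Φ = X 0 ^ 2 - X 1 ^ 3 - X 2 * X 1 - X 3`, or directly `Contr.exists_fix`). -/
theorem exists_sqrt_branch {a b y₀ : K} (x : PowerSeries K)
    (h : y₀ ^ 2 = PowerSeries.constantCoeff x ^ 3 + a * PowerSeries.constantCoeff x + b)
    (hy : y₀ ≠ 0) : ∃ y : PowerSeries K, PowerSeries.constantCoeff y = y₀ ∧
      y ^ 2 = x ^ 3 + PowerSeries.C a * x + PowerSeries.C b := by
  obtain ⟨u, hu, hu'⟩ := hensel_exists henselPhi 0 ![0, x, PowerSeries.C a, PowerSeries.C b] y₀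
    (by
      rw [henselPhi_aeval]
      simp [h]
      ring)
    (by
      rw [henselPhi_pderiv]
      simpa using hy)
  refine ⟨u, hu, ?_⟩
  rw [henselPhi_aeval] at hu'
  simp only [Function.update_self, ne_eq, Fin.reduceEq, not_false_eq_true, Function.update_of_ne,
    Matrix.cons_val] at hu'
  linear_combination hu'

/-- Its size: `hensel_est` for the same `Φ` (`T = 4`, `D = 3`, `α = 2 y₀`). -/
theorem Loc.sqrt_est (hρ : 0 ≤ ρ) {a b : K} {x y : PowerSeries K}
    (h : y ^ 2 = x ^ 3 + PowerSeries.C a * x + PowerSeries.C b)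
    (hy : PowerSeries.constantCoeff y ≠ 0) {E τ t' Q : ℝ} (hE : 1 ≤ E) (ha : L.v a ≤ E)
    (hb : L.v b ≤ E) (hx₀ : L.v (PowerSeries.constantCoeff x) ≤ E)
    (hy₀ : L.v (PowerSeries.constantCoeff y) ≤ E)
    (hQ : 216 ^ L.e * E ^ 3 * L.v (2 * PowerSeries.constantCoeff y)⁻¹ ≤ Q) (hQ1 : 1 ≤ Q)
    (hτ : 0 ≤ τ) (ht : t' * Q ≤ 1) (hτt : τ * Q ≤ t')
    (hx : L.N κ ρ (x - PowerSeries.C (PowerSeries.constantCoeff x)) ≤ τ) :
    L.N κ ρ (y - PowerSeries.C (PowerSeries.constantCoeff y)) ≤ t' := by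
  refine L.hensel_est hρ henselPhi_il henselPhi_wd 0 ![y, x, PowerSeries.C a, PowerSeries.C b]
    ?_ (α := 2 * PowerSeries.constantCoeff y) ?_ (mul_ne_zero two_ne_zero hy) hE ?_ ?_ hQ1 hτ ht
    hτt ?_
  · rw [henselPhi_aeval]
    simp only [Matrix.cons_val]
    linear_combination h
  · rw [henselPhi_pderiv]
    rfl
  · intro μ _ s _
    fin_cases s
    · exact hy₀
    · exact hx₀
    · simpa using ha
    · simpa using hb
  · refine le_trans (le_of_eq ?_) hQ
    norm_num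
  · intro μ _ s _ hs
    have h0 : L.N κ ρ 0 ≤ τ := (L.ser κ hρ).zero.le.trans hτ
    fin_cases s
    · exact absurd rfl hs
    · exact hx
    · simpa using h0
    · simpa using h0

/-- The inverse of a unit: `w * u = 1` with `N (u - u₀) ≤ |u₀| / 2 ^ e` gives
`N w ≤ 2 ^ e / |u₀|` (apply `Contr.N_fix_le` to `F δ = - (u₀⁻¹ (u - u₀)) * (1 + δ)`, whose fixed
point is `δ = u₀ w - 1`, with `t = 1`). -/
theorem Loc.inv_est (hρ : 0 ≤ ρ) {u w : PowerSeries K} (h : w * u = 1)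
    (hu : 2 ^ L.e * L.N κ ρ (u - PowerSeries.C (PowerSeries.constantCoeff u)) ≤
      L.v (PowerSeries.constantCoeff u)) :
    L.N κ ρ w ≤ 2 ^ L.e * L.v (PowerSeries.constantCoeff u)⁻¹ := by
  set c := PowerSeries.constantCoeff u with hc
  have hwc : PowerSeries.constantCoeff w * c = 1 := by
    rw [hc, ← map_mul, h, map_one]
  have hc0 : c ≠ 0 := right_ne_zero_of_mul_eq_one hwc
  have h3 : (PowerSeries.C c⁻¹ * PowerSeries.C c : PowerSeries K) = 1 := by
    rw [← map_mul, inv_mul_cancel₀ hc0, map_one]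
  set r : PowerSeries K := PowerSeries.C c⁻¹ * (u - PowerSeries.C c) with hr
  have hr0 : PowerSeries.constantCoeff r = 0 := by simp [hr, hc]
  have hvc : 0 < L.v c := L.v.pos hc0
  have hNr : L.N κ ρ r * 2 ^ L.e ≤ 1 := by
    have h1 : L.N κ ρ r ≤ (L.v c)⁻¹ * L.N κ ρ (u - PowerSeries.C c) := by
      refine (L.N_mul hρ _ _).trans ?_
      rw [L.N_C hρ, map_inv₀]
    calc L.N κ ρ r * 2 ^ L.e ≤ (L.v c)⁻¹ * L.N κ ρ (u - PowerSeries.C c) * 2 ^ L.e :=
          mul_le_mul_of_nonneg_right h1 (by positivity)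
      _ = (L.v c)⁻¹ * (2 ^ L.e * L.N κ ρ (u - PowerSeries.C c)) := by ring
      _ ≤ (L.v c)⁻¹ * L.v c := mul_le_mul_of_nonneg_left hu (by positivity)
      _ = 1 := inv_mul_cancel₀ hvc.ne'
  have hone : ∀ (l : ℕ) (d : PowerSeries K), L.N l ρ d ≤ 1 → L.N l ρ (1 + d) ≤ 2 ^ L.e := by
    intro l d hd
    have := (L.ser l hρ).add_le_two (L.ser l hρ).one hd
    rw [mul_one] at this
    exact this
  have hF : Contr fun d : PowerSeries K => -(r * (1 + d)) := by
    refine ⟨fun d _ => by simp [hr0], fun l d d' _ _ hd => ?_⟩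
    have e1 : -(r * (1 + d)) - -(r * (1 + d')) = -((d - d') * r) := by ring
    rw [e1, pow_succ]
    exact (mul_dvd_mul hd (PowerSeries.X_dvd_iff.2 hr0)).neg_right
  have hδ : L.N κ ρ (PowerSeries.C c * w - 1) ≤ 1 := by
    refine hF.N_fix_le L hρ zero_le_one (fun l hl d _ hd => ?_) ?_ ?_
    · rw [L.N_neg]
      refine (L.N_mul hρ _ _).trans (le_trans ?_ hNr)
      exact mul_le_mul (L.N_mono hρ _ hl) (hone l d hd) (L.N_nonneg hρ _) (L.N_nonneg hρ _)
    · rw [map_sub, map_mul, PowerSeries.constantCoeff_C, map_one, mul_comm, hwc, sub_self]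
    · rw [hr]
      linear_combination (-(u - PowerSeries.C c) * w) * h3 - h
  have e2 : w = PowerSeries.C c⁻¹ * (1 + (PowerSeries.C c * w - 1)) := by
    linear_combination (-w) * h3
  rw [e2]
  refine (L.N_mul hρ _ _).trans ?_
  rw [L.N_C hρ, mul_comm]
  exact mul_le_mul_of_nonneg_right (hone κ _ hδ) (L.v.nonneg _)

end Pool.Agent.Lib.MP_651af7_nt.Vj
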