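import Pool.Agent.Lib.MP_651af7_nt.Vj.AddSub
import Pool.Agent.Lib.MP_651af7_nt.Vj.Hensel
import Pool.Agent.Lib.MP_651af7_nt.Vj.Exit
import Pool.Agent.Lib.MP_651af7_nt.VjIface

/-! Definitions for the two point argument on moving curves.  The variables `0, 1, 2, 3` are
`x, y, x', y'` of the first pair of points, the variables `4, 5, 6, 7` those of the second pair. -/

namespace Pool.Agent.Lib.MP_651af7_nt.Vj

open MvPolynomial Finset Pool.Agent.Lib.Common.Subspace Pool.Agent.Lib.MP_e97e2b_nt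
  Pool.Agent.Lib.MP_651af7_nt.Iv

/-- Polynomials in the eight coordinates. -/
abbrev P8 := MvPolynomial (Fin 8) ℚ

/-- The basic sections. -/
noncomputable def Gb (a b a' b' : ℤ) (s n : ℕ) (e : Bool × Bool) (i j l : ℕ) : P8 :=
  fac (a : P8) b (X 4) (X 5) (mulP (a : P8) b (X 0) (X 1) s) n e.1 i *
    fac (a' : P8) b' (X 6) (X 7) (mulP (a' : P8) b' (X 2) (X 3) s) n e.2 j * X 0 ^ l

/-- Index set of the unknowns. -/
abbrev VI (n ν : ℕ) := Fin (n + 1) × Fin (n + 1) × Fin ν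

/-- The auxiliary polynomial with coefficients `c`. -/
noncomputable def Gc (a b a' b' : ℤ) (s n : ℕ) {ν : ℕ} (c : VI n ν → ℤ) (e : Bool × Bool) : P8 :=
  ∑ v, c v • Gb a b a' b' s n e v.1 v.2.1 v.2.2

/-- The four weights: `x` has weight one, `y` has weight two. -/
def wt : Fin 4 → Fin 8 → ℕ :=
  ![![1, 2, 0, 0, 0, 0, 0, 0], ![0, 0, 1, 2, 0, 0, 0, 0], ![0, 0, 0, 0, 1, 2, 0, 0],
    ![0, 0, 0, 0, 0, 0, 1, 2]]

/-- The equations of the product of the two curves. -/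
structure OnV {S : Type*} [CommRing S] [Algebra ℚ S] (a b a' b' : ℤ)
    (φ₁ φ₂ : MvPolynomial (Fin 2) ℚ) (z : Fin 8 → S) : Prop where
  e1 : z 1 ^ 2 = z 0 ^ 3 + a * z 0 + b
  e3 : z 3 ^ 2 = z 2 ^ 3 + a' * z 2 + b'
  e5 : z 5 ^ 2 = z 4 ^ 3 + a * z 4 + b
  e7 : z 7 ^ 2 = z 6 ^ 3 + a' * z 6 + b'
  f1 : aeval ![z 0, z 2] φ₁ = 0
  f2 : aeval ![z 4, z 6] φ₂ = 0

/-- The coefficients of the curves are at most `2 ^ g`. -/
def Cf (a b a' b' : ℤ) (g : ℕ) : Prop :=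
  |(a : ℝ)| ≤ 2 ^ g ∧ |(b : ℝ)| ≤ 2 ^ g ∧ |(a' : ℝ)| ≤ 2 ^ g ∧ |(b' : ℝ)| ≤ 2 ^ g

section

variable {K : Type*} [Field K] [CharZero K]

/-- A formal branch of the curve `φ` on the product, through the point `z₀`, with parameter
`x - x₀`. -/
structure Br (a b a' b' : ℤ) (φ : MvPolynomial (Fin 2) ℚ) (z₀ : Fin 4 → K)
    (u : Fin 4 → PowerSeries K) : Prop where
  cc : ∀ i, PowerSeries.constantCoeff (u i) = z₀ i
  par : u 0 = PowerSeries.C (z₀ 0) + PowerSeries.X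
  e1 : u 1 ^ 2 = u 0 ^ 3 + a * u 0 + b
  e3 : u 3 ^ 2 = u 2 ^ 3 + a' * u 2 + b'
  f : aeval ![u 0, u 2] φ = 0
  y1 : z₀ 1 ≠ 0
  y3 : z₀ 3 ≠ 0
  sep : aeval ![z₀ 0, z₀ 2] (pderiv 1 φ) ≠ 0

/-- Both branches, in two independent parameters. -/
noncomputable def Z2 (u u' : Fin 4 → PowerSeries K) : Fin 8 → MvPowerSeries (Fin 2) K :=
  ![(u 0).toMvPowerSeries 0, (u 1).toMvPowerSeries 0, (u 2).toMvPowerSeries 0,
    (u 3).toMvPowerSeries 0, (u' 0).toMvPowerSeries 1, (u' 1).toMvPowerSeries 1,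
    (u' 2).toMvPowerSeries 1, (u' 3).toMvPowerSeries 1]

/-- The first branch and the second point. -/
noncomputable def Z1 (u : Fin 4 → PowerSeries K) (z : Fin 4 → K) : Fin 8 → PowerSeries K :=
  ![u 0, u 1, u 2, u 3, PowerSeries.C (z 0), PowerSeries.C (z 1), PowerSeries.C (z 2),
    PowerSeries.C (z 3)]

end

/-- The four coordinates of a pair of points. -/
def crd {K : Type} [Field K] {A B A' B' : K} (X : Pt A B × Pt A' B') : Fin 4 → K :=
  ![xc X.1, yc X.1, xc X.2, yc X.2]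

end Pool.Agent.Lib.MP_651af7_nt.Vj
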