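import Pool.Agent.Lib.MP_651af7_nt.Vj.CvBr

/-! Size of the formal branches. -/

namespace Pool.Agent.Lib.MP_651af7_nt.Vj

open MvPolynomial Finset Pool.Agent.Lib.Common.Subspace

variable {K : Type*} [Field K] [CharZero K] {a b a' b' : ℤ} {g : ℕ}

omit [CharZero K] in
theorem cvEst_int (L : Loc K) {c : ℤ} {A : ℝ} (h : |(c : ℝ)| ≤ A) : L.v (c : K) ≤ A ^ L.e :=
  (L.nv.intCast_le c).trans (pow_le_pow_left₀ (abs_nonneg _) h _)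

omit [CharZero K] in
theorem cvEst_y (L : Loc K) {c d : ℤ} {x y : K} (h : y ^ 2 = x ^ 3 + c * x + d) {A M : ℝ}
    (hA : 1 ≤ A) (hM : 1 ≤ M) (hc : L.v (c : K) ≤ A) (hd : L.v (d : K) ≤ A) (hx : L.v x ≤ M) :
    L.v y ≤ 3 ^ L.e * A * M ^ 2 :=
  L.nv.y_le h (L.v.map_pow y 2) hA hM hc hd hx

theorem cvEst_wd {φ : MvPolynomial (Fin 2) ℚ} {B : ℕ} (h : ∀ i, degreeOf i φ ≤ B) :
    WD (fun _ => 1) φ (2 * B) := by
  intro μ hμ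
  have h0 := (monomial_le_degreeOf 0 hμ).trans (h 0)
  have h1 := (monomial_le_degreeOf 1 hμ).trans (h 1)
  rw [Finsupp.weight_apply, Finsupp.sum_fintype _ _ (by simp), Fin.sum_univ_two]
  simp only [smul_eq_mul, mul_one]
  omega

theorem cvEst_five {m₀ m₁ m₂ m₃ m₄ t : ℝ} (h₀ : 1 ≤ m₀) (h₁ : 1 ≤ m₁) (h₂ : 1 ≤ m₂) (h₃ : 1 ≤ m₃)
    (h₄ : 1 ≤ m₄) (ht : 1 ≤ t) : t ≤ t * (m₀ * m₁ * m₂ * m₃ * m₄) ∧
      m₀ ≤ t * (m₀ * m₁ * m₂ * m₃ * m₄) ∧ m₁ ≤ t * (m₀ * m₁ * m₂ * m₃ * m₄) ∧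
      m₂ ≤ t * (m₀ * m₁ * m₂ * m₃ * m₄) ∧ m₃ ≤ t * (m₀ * m₁ * m₂ * m₃ * m₄) ∧
      m₄ ≤ t * (m₀ * m₁ * m₂ * m₃ * m₄) := by
  refine ⟨?_, ?_, ?_, ?_, ?_, ?_⟩
  · calc t = t * (1 * 1 * 1 * 1 * 1) := by ring
      _ ≤ _ := by gcongr
  · calc m₀ = 1 * (m₀ * 1 * 1 * 1 * 1) := by ring
      _ ≤ _ := by gcongr
  · calc m₁ = 1 * (1 * m₁ * 1 * 1 * 1) := by ring
      _ ≤ _ := by gcongr
  · calc m₂ = 1 * (1 * 1 * m₂ * 1 * 1) := by ring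
      _ ≤ _ := by gcongr
  · calc m₃ = 1 * (1 * 1 * 1 * m₃ * 1) := by ring
      _ ≤ _ := by gcongr
  · calc m₄ = 1 * (1 * 1 * 1 * 1 * m₄) := by ring
      _ ≤ _ := by gcongr

/-- The estimate in terms of a single size `S`. -/
theorem cvEst_core (hg : Cf a b a' b' g) {B : ℕ} {φ : MvPolynomial (Fin 2) ℚ} {T : ℝ}
    (hφ : IL φ T) (hT : 2 ≤ T) (hB : ∀ i, degreeOf i φ ≤ B) {z : Fin 4 → K}
    {u : Fin 4 → PowerSeries K} (h : Br a b a' b' φ z u) (L : Loc K) (κ : ℕ) {S : ℝ}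
    (hS : T ^ L.e ≤ S) (h0 : L.v (z 0) ≤ S) (h2 : L.v (z 2) ≤ S) (h1 : L.v (2 * z 1)⁻¹ ≤ S)
    (h3 : L.v (2 * z 3)⁻¹ ≤ S) (hα : L.v (aeval ![z 0, z 2] (pderiv 1 φ))⁻¹ ≤ S) (i : Fin 4) :
    L.N κ ((S ^ ((2 * B + 3) * (g + 4) + 4 * B + 9))⁻¹ ^ 3) (u i - PowerSeries.C (z i)) ≤ 1 := by
  have hT1 : 1 ≤ T := one_le_two.trans hT
  have hS1 : 1 ≤ S := (one_le_pow₀ hT1).trans hS
  have hS0 : 0 ≤ S := zero_le_one.trans hS1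
  have hc : ∀ (c : ℝ) (j : ℕ), 0 ≤ c → c ≤ T ^ j → c ^ L.e ≤ S ^ j := fun c j hc0 hcj => by
    refine (pow_le_pow_left₀ hc0 hcj _).trans ?_
    rw [← pow_mul, mul_comm, pow_mul]
    exact pow_le_pow_left₀ (by positivity) hS _
  have h2j : ∀ j : ℕ, (2 : ℝ) ^ j ≤ T ^ j := fun j => pow_le_pow_left₀ zero_le_two hT j
  have hA : ∀ c : ℤ, |(c : ℝ)| ≤ 2 ^ g → L.v (c : K) ≤ S ^ g := fun c hcg =>
    (cvEst_int L hcg).trans (hc _ _ (by positivity) (h2j g))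
  have hSg : 1 ≤ S ^ g := one_le_pow₀ hS1
  have hy : ∀ {c d : ℤ} {x y : K}, y ^ 2 = x ^ 3 + c * x + d → |(c : ℝ)| ≤ 2 ^ g →
      |(d : ℝ)| ≤ 2 ^ g → L.v x ≤ S → L.v y ≤ S ^ (g + 4) := fun e hc' hd' hx => by
    refine (cvEst_y L e hSg hS1 (hA _ hc') (hA _ hd') hx).trans ?_
    have h4 : (3 : ℝ) ^ L.e ≤ S ^ 2 := hc 3 2 (by norm_num) (le_trans (by norm_num) (h2j 2))
    calc 3 ^ L.e * S ^ g * S ^ 2 ≤ S ^ 2 * S ^ g * S ^ 2 := by gcongr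
      _ = S ^ (g + 4) := by ring
  have hE1 : 1 ≤ S ^ (g + 4) := one_le_pow₀ hS1
  have hSE : S ≤ S ^ (g + 4) := le_self_pow₀ hS1 (by omega)
  have hgE : S ^ g ≤ S ^ (g + 4) := pow_le_pow_right₀ hS1 (by omega)
  set k := (2 * B + 3) * (g + 4) + 4 * B + 9 with hk
  set Q := S ^ k with hQ
  have hQ1 : 1 ≤ Q := one_le_pow₀ hS1
  have hQ0 : 0 < Q := zero_lt_one.trans_le hQ1
  have hq0 : 0 ≤ Q⁻¹ := inv_nonneg.2 hQ0.le
  have hq1 : Q⁻¹ ≤ 1 := inv_le_one_of_one_le₀ hQ1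
  have hqQ : Q⁻¹ * Q = 1 := inv_mul_cancel₀ hQ0.ne'
  have hρ : 0 ≤ Q⁻¹ ^ 3 := pow_nonneg hq0 3
  have hq3 : Q⁻¹ ^ 3 * Q = Q⁻¹ ^ 2 := by
    rw [pow_succ, mul_assoc, hqQ, mul_one]
  have hq2 : Q⁻¹ ^ 2 * Q = Q⁻¹ := by
    rw [pow_two, mul_assoc, hqQ, mul_one]
  have hq21 : Q⁻¹ ^ 2 ≤ Q⁻¹ := pow_le_of_le_one hq0 hq1 (by norm_num)
  have hsq : ∀ w : K, L.v w ≤ S → 216 ^ L.e * (S ^ (g + 4)) ^ 3 * L.v w ≤ Q := fun w hw => by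
    have h5 := L.v.nonneg w
    have h4 : (216 : ℝ) ^ L.e ≤ S ^ 8 := hc 216 8 (by norm_num) (le_trans (by norm_num) (h2j 8))
    calc 216 ^ L.e * (S ^ (g + 4)) ^ 3 * L.v w ≤ S ^ 8 * (S ^ (g + 4)) ^ 3 * S := by gcongr
      _ = S ^ (3 * (g + 4) + 9) := by ring
      _ ≤ Q := pow_le_pow_right₀ hS1 (by rw [hk]; nlinarith [Nat.zero_le (B * g)])
  obtain ⟨b1, b3, -⟩ := h.base
  have n0 : L.N κ (Q⁻¹ ^ 3) (u 0 - PowerSeries.C (z 0)) ≤ Q⁻¹ ^ 3 := by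
    rw [h.par, add_sub_cancel_left]
    exact L.N_X hρ
  have n2 : L.N κ (Q⁻¹ ^ 3) (u 2 - PowerSeries.C (z 2)) ≤ Q⁻¹ ^ 2 := by
    have e0 : (fun s => PowerSeries.constantCoeff (![u 0, u 2] s)) = ![z 0, z 2] := by
      funext s
      fin_cases s
      · exact h.cc 0
      · exact h.cc 2
    have := L.hensel_est (κ := κ) hρ hφ (cvEst_wd hB) 1 ![u 0, u 2] h.f
      (α := aeval ![z 0, z 2] (pderiv 1 φ)) (by rw [e0]) h.sep (τ := Q⁻¹ ^ 3) (t' := Q⁻¹ ^ 2)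
      (Q := Q) hE1 (fun μ _ s _ => ?_) ?_ hQ1 hρ (hq2.le.trans hq1) hq3.le (fun μ _ s _ hs => ?_)
    · rw [← h.cc 2]
      exact this
    · rw [congrFun e0 s]
      fin_cases s
      · exact h0.trans hSE
      · exact h2.trans hSE
    · have h4 : (2 * 3 ^ (2 * B) * T) ^ L.e ≤ S ^ (4 * B + 2) := by
        refine hc _ _ (by positivity) ?_
        have h5 : (3 : ℝ) ^ (2 * B) ≤ T ^ (4 * B) := by
          rw [show 4 * B = 2 * (2 * B) by ring, pow_mul T]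
          exact pow_le_pow_left₀ (by norm_num) (le_trans (by norm_num) (h2j 2)) _
        calc 2 * 3 ^ (2 * B) * T ≤ T * T ^ (4 * B) * T := by gcongr
          _ = T ^ (4 * B + 2) := by ring
      calc (2 * 3 ^ (2 * B) * T) ^ L.e * (S ^ (g + 4)) ^ (2 * B) *
            L.v (aeval ![z 0, z 2] (pderiv 1 φ))⁻¹
          ≤ S ^ (4 * B + 2) * (S ^ (g + 4)) ^ (2 * B) * S := by gcongr
        _ = S ^ (2 * B * (g + 4) + 4 * B + 3) := by ring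
        _ ≤ Q := pow_le_pow_right₀ hS1 (by rw [hk]; nlinarith [Nat.zero_le g])
    · fin_cases s
      · rw [← h.cc 0] at n0
        exact n0
      · exact absurd rfl hs
  have n1 : L.N κ (Q⁻¹ ^ 3) (u 1 - PowerSeries.C (z 1)) ≤ Q⁻¹ := by
    have := L.sqrt_est (κ := κ) hρ (a := (a : K)) (b := (b : K)) (x := u 0) (y := u 1)
      (by rw [map_intCast, map_intCast]; exact h.e1) (by rw [h.cc]; exact h.y1)
      (τ := Q⁻¹ ^ 3) (t' := Q⁻¹) (Q := Q) hE1 ((hA _ hg.1).trans hgE) ((hA _ hg.2.1).trans hgE)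
      (by rw [h.cc]; exact h0.trans hSE) (by rw [h.cc]; exact hy b1 hg.1 hg.2.1 h0)
      (by rw [h.cc]; exact hsq _ h1) hQ1 hρ hqQ.le (hq3.le.trans hq21) (by rw [h.cc]; exact n0)
    rwa [h.cc] at this
  have n3 : L.N κ (Q⁻¹ ^ 3) (u 3 - PowerSeries.C (z 3)) ≤ Q⁻¹ := by
    have := L.sqrt_est (κ := κ) hρ (a := (a' : K)) (b := (b' : K)) (x := u 2) (y := u 3)
      (by rw [map_intCast, map_intCast]; exact h.e3) (by rw [h.cc]; exact h.y3)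
      (τ := Q⁻¹ ^ 2) (t' := Q⁻¹) (Q := Q) hE1 ((hA _ hg.2.2.1).trans hgE)
      ((hA _ hg.2.2.2).trans hgE)
      (by rw [h.cc]; exact h2.trans hSE) (by rw [h.cc]; exact hy b3 hg.2.2.1 hg.2.2.2 h2)
      (by rw [h.cc]; exact hsq _ h3) hQ1 (pow_nonneg hq0 2) hqQ.le hq2.le (by rw [h.cc]; exact n2)
    rwa [h.cc] at this
  fin_cases i
  · exact n0.trans (pow_le_one₀ hq0 hq1)
  · exact n1.trans hq1
  · exact n2.trans (pow_le_one₀ hq0 hq1)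
  · exact n3.trans hq1

/-- With `M = max (v (z 0)) 1`, `M' = max (v (z 2)) 1`, `E = (3 * 2 ^ g) ^ e * M ^ 2 * M' ^ 2`
(a bound for all coordinates and coefficients, `Nrm.y_le`, `Nrm.intCast_le` for `L.nv`) put
`Q = (432 * 3 ^ (2 B) * T) ^ e * E ^ (2 B + 3) *` (the last three maxima), `ρ = 1 / Q ^ 3`.
Then `N (u 0 - C) = N X ≤ ρ`; `sqrt_est` with `τ = ρ`, `t' = 1 / Q`; `hensel_est` with `D = 2 B`,
`τ = ρ`, `t' = 1 / Q ^ 2`; `sqrt_est` with `τ = 1 / Q ^ 2`, `t' = 1 / Q`. -/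
theorem br_est (hg : Cf a b a' b' g) (B : ℕ) : ∃ C : ℕ, ∀ (φ : MvPolynomial (Fin 2) ℚ) (T : ℝ),
    IL φ T → 2 ≤ T → (∀ i, degreeOf i φ ≤ B) → ∀ (z : Fin 4 → K) (u : Fin 4 → PowerSeries K),
    Br a b a' b' φ z u → ∀ (L : Loc K) (κ : ℕ), ∃ ρ : ℝ, 0 < ρ ∧
      ρ⁻¹ ≤ (T ^ C) ^ L.e * (max (L.v (z 0)) 1 * max (L.v (z 2)) 1 * max (L.v (2 * z 1)⁻¹) 1 *
        max (L.v (2 * z 3)⁻¹) 1 * max (L.v (aeval ![z 0, z 2] (pderiv 1 φ))⁻¹) 1) ^ C ∧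
      ∀ i, L.N κ ρ (u i - PowerSeries.C (z i)) ≤ 1 := by
  refine ⟨((2 * B + 3) * (g + 4) + 4 * B + 9) * 3, fun φ T hφ hT hB z u h L κ => ?_⟩
  have hT1 : 1 ≤ T ^ L.e := one_le_pow₀ (one_le_two.trans hT)
  obtain ⟨s, s0, s1, s2, s3, s4⟩ := cvEst_five (le_max_right (L.v (z 0)) 1)
    (le_max_right (L.v (z 2)) 1) (le_max_right (L.v (2 * z 1)⁻¹) 1)
    (le_max_right (L.v (2 * z 3)⁻¹) 1)
    (le_max_right (L.v (aeval ![z 0, z 2] (pderiv 1 φ))⁻¹) 1) hT1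
  refine ⟨_, ?_, ?_, cvEst_core hg hφ hT hB h L κ s ((le_max_left _ _).trans s0)
    ((le_max_left _ _).trans s1) ((le_max_left _ _).trans s2) ((le_max_left _ _).trans s3)
    ((le_max_left _ _).trans s4)⟩
  · have := zero_lt_one.trans_le (hT1.trans s)
    positivity
  · rw [inv_pow, inv_inv, ← pow_mul, mul_pow, ← pow_mul T, ← pow_mul T, mul_comm L.e]

/-- `Nrm.aeval_wd` for `L.ser κ _` with the weights `wt` and `E j = (6 * 2 ^ g) ^ e * M j`,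
`M = ![max (v (z 0)) 1, max (v (z 2)) 1, max (v (z' 0)) 1, max (v (z' 2)) 1]`; `coeff_le`. -/
theorem coeff_Z1_le (hg : Cf a b a' b' g) {φ₁ φ₂ : MvPolynomial (Fin 2) ℚ} {z z' : Fin 4 → K}
    {u u' : Fin 4 → PowerSeries K} (h : Br a b a' b' φ₁ z u) (h' : Br a b a' b' φ₂ z' u')
    (L : Loc K) (κ : ℕ) {ρ : ℝ} (hρ : 0 < ρ)
    (hu : ∀ i, L.N κ ρ (u i - PowerSeries.C (z i)) ≤ 1) {p : P8} {T : ℝ} (hp : IL p T)
    (D : Fin 4 → ℕ) (hD : ∀ t, WD (wt t) p (D t)) :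
    L.v (PowerSeries.coeff κ (aeval (Z1 u z') p)) ≤
      (T * (6 * 2 ^ g) ^ (D 0 + D 1 + D 2 + D 3)) ^ L.e *
        (max (L.v (z 0)) 1 ^ D 0 * max (L.v (z 2)) 1 ^ D 1 * max (L.v (z' 0)) 1 ^ D 2 *
          max (L.v (z' 2)) 1 ^ D 3) * ρ⁻¹ ^ κ := by
  obtain ⟨b1, b3, -⟩ := h.base
  obtain ⟨b5, b7, -⟩ := h'.base
  set c : ℝ := (6 * 2 ^ g) ^ L.e with hc
  have hg1 : (1 : ℝ) ≤ 2 ^ g := one_le_pow₀ one_le_two
  have hA1 : (1 : ℝ) ≤ (2 ^ g) ^ L.e := one_le_pow₀ hg1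
  have h31 : (1 : ℝ) ≤ 3 ^ L.e := one_le_pow₀ (by norm_num)
  have h21 : (1 : ℝ) ≤ 2 ^ L.e := one_le_pow₀ (by norm_num)
  have hc' : c = 2 ^ L.e * (3 ^ L.e * (2 ^ g) ^ L.e) := by
    rw [hc, ← mul_pow, ← mul_pow, ← mul_assoc]
    norm_num
  have h32 : (1 : ℝ) ≤ 3 ^ L.e * (2 ^ g) ^ L.e := one_le_mul_of_one_le_of_one_le h31 hA1
  have hc1 : 1 ≤ c := by
    rw [hc']
    exact one_le_mul_of_one_le_of_one_le h21 h32
  have hc2 : 2 ^ L.e ≤ c := by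
    rw [hc']
    exact le_mul_of_one_le_right (by positivity) h32
  have hadd : ∀ (f : PowerSeries K) (x : K) (M : ℝ), 1 ≤ M → L.v x ≤ M →
      L.N κ ρ (f - PowerSeries.C x) ≤ 1 → L.N κ ρ f ≤ 2 ^ L.e * M := fun f x M hM hx hf => by
    have := (L.ser κ hρ.le).add_le_two (u := f - PowerSeries.C x) (u' := PowerSeries.C x)
      (hf.trans hM) ((L.N_C hρ.le x).le.trans hx)
    rwa [sub_add_cancel] at this
  have hC0 : ∀ x : K, L.N κ ρ (PowerSeries.C x - PowerSeries.C x) ≤ 1 := fun x => by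
    rw [sub_self]
    exact (L.ser κ hρ.le).zero.le.trans zero_le_one
  have hX : ∀ (f : PowerSeries K) (x : K), L.N κ ρ (f - PowerSeries.C x) ≤ 1 →
      L.N κ ρ f ≤ c * max (L.v x) 1 := fun f x hf =>
    (hadd f x _ (le_max_right _ _) (le_max_left _ _) hf).trans
      (mul_le_mul_of_nonneg_right hc2 (by positivity))
  have hY : ∀ (f : PowerSeries K) {x y : K} {r t : ℤ}, y ^ 2 = x ^ 3 + r * x + t →
      |(r : ℝ)| ≤ 2 ^ g → |(t : ℝ)| ≤ 2 ^ g → L.N κ ρ (f - PowerSeries.C y) ≤ 1 →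
      L.N κ ρ f ≤ (c * max (L.v x) 1) ^ 2 := fun f x y r t e hr ht hf => by
    have hM : 1 ≤ max (L.v x) 1 := le_max_right _ _
    have h1 := cvEst_y L e hA1 hM (cvEst_int L hr) (cvEst_int L ht) (le_max_left _ _)
    refine (hadd f y _ (one_le_mul_of_one_le_of_one_le h32 (one_le_pow₀ hM)) h1 hf).trans ?_
    rw [← mul_assoc, ← hc', mul_pow]
    exact mul_le_mul_of_nonneg_right (le_self_pow₀ hc1 two_ne_zero) (by positivity)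
  have key := (L.ser κ hρ.le).aeval_wd wt D
    ![c * max (L.v (z 0)) 1, c * max (L.v (z 2)) 1, c * max (L.v (z' 0)) 1,
      c * max (L.v (z' 2)) 1] (fun j => ?_) hp hD (Z1 u z') (fun s => ?_)
  · have h1 := (L.coeff_le hρ.le (aeval (Z1 u z') p) (le_refl κ)).trans key
    rw [inv_pow, le_mul_inv_iff₀ (pow_pos hρ κ)]
    refine h1.trans (le_of_eq ?_)
    rw [Fin.prod_univ_four, mul_pow T, ← pow_mul, mul_comm _ L.e, pow_mul, ← hc]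
    simp only [Matrix.cons_val, Loc.ser]
    ring
  · fin_cases j <;> exact one_le_mul_of_one_le_of_one_le hc1 (le_max_right _ _)
  · rw [Fin.prod_univ_four]
    fin_cases s
    · simpa [wt, Z1, Loc.ser] using hX _ _ (hu 0)
    · simpa [wt, Z1, Loc.ser] using hY _ b1 hg.1 hg.2.1 (hu 1)
    · simpa [wt, Z1, Loc.ser] using hX _ _ (hu 2)
    · simpa [wt, Z1, Loc.ser] using hY _ b3 hg.2.2.1 hg.2.2.2 (hu 3)
    · simpa [wt, Z1, Loc.ser] using hX _ _ (hC0 (z' 0))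
    · simpa [wt, Z1, Loc.ser] using hY _ b5 hg.1 hg.2.1 (hC0 (z' 1))
    · simpa [wt, Z1, Loc.ser] using hX _ _ (hC0 (z' 2))
    · simpa [wt, Z1, Loc.ser] using hY _ b7 hg.2.2.1 hg.2.2.2 (hC0 (z' 3))

end Pool.Agent.Lib.MP_651af7_nt.Vj
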