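import Pool.Agent.Lib.MP_651af7_nt.Vj.CvBr
import Pool.Agent.Lib.MP_651af7_nt.IvMain

/-! The auxiliary polynomial does not vanish on the product of the two branches. -/

namespace Pool.Agent.Lib.MP_651af7_nt.Vj

open MvPolynomial Finset Pool.Agent.Lib.Common.Subspace Pool.Agent.Lib.MP_e97e2b_nt
  Pool.Agent.Lib.MP_651af7_nt.Iv

variable {K : Type} [Field K] [NumberField K] {a b a' b' : ℤ}

/-- `aeval` of a polynomial at `C x + X 0`, `C x' + X 1` is the coercion of its translate, and the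
translation is invertible. -/
theorem algInd_param (x x' : K) : AlgebraicIndependent K
    ![algebraMap (MvPowerSeries (Fin 2) K) (FractionRing (MvPowerSeries (Fin 2) K))
        (MvPowerSeries.C x + MvPowerSeries.X 0),
      algebraMap (MvPowerSeries (Fin 2) K) (FractionRing (MvPowerSeries (Fin 2) K))
        (MvPowerSeries.C x' + MvPowerSeries.X 1)] := by
  rw [algebraicIndependent_iff]
  intro p hp
  let f : MvPolynomial (Fin 2) K →ₐ[K] FractionRing (MvPowerSeries (Fin 2) K) :=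
    (IsScalarTower.toAlgHom K (MvPowerSeries (Fin 2) K) _).comp (coeToMvPowerSeries.algHom K)
  have hf : Function.Injective f := fun q q' h => by
    have h1 : coeToMvPowerSeries.algHom K q = coeToMvPowerSeries.algHom K q' :=
      IsFractionRing.injective (MvPowerSeries (Fin 2) K) (FractionRing (MvPowerSeries (Fin 2) K)) h
    simpa [coeToMvPowerSeries.algHom_apply] using h1
  have h1 : f (aeval ![C x + X 0, C x' + X 1] p) = 0 := by
    rw [← hp, comp_aeval_apply]
    congr 2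
    funext i
    fin_cases i <;> simp [f, coeToMvPowerSeries.algHom_apply]
  have h2 : aeval ![C x + X 0, C x' + X 1] p = (0 : MvPolynomial (Fin 2) K) :=
    hf (by rw [h1, map_zero])
  have h3 : (aeval ![X 0 - C x, X 1 - C x'] : MvPolynomial (Fin 2) K →ₐ[K] MvPolynomial (Fin 2) K).comp
      (aeval ![C x + X 0, C x' + X 1]) = AlgHom.id K _ := by
    ext1 i
    fin_cases i <;> simp
  have h4 := AlgHom.congr_fun h3 p
  rw [AlgHom.comp_apply, h2, map_zero] at h4
  exact h4.symm

omit [NumberField K] in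
theorem kill_toMv_CvInd (q : PowerSeries K) :
    MvPowerSeries.killCompl (Function.Embedding.punit (1 : Fin 2)) (q.toMvPowerSeries (0 : Fin 2)) =
      PowerSeries.C (PowerSeries.constantCoeff q) := by
  conv_lhs => rw [PowerSeries.eq_X_mul_shift_add_const q]
  rw [map_add, map_mul, map_add, map_mul, PowerSeries.toMvPowerSeries_X,
    PowerSeries.toMvPowerSeries_C, MvPowerSeries.killCompl_X_eq_zero (by
      rintro ⟨_, h⟩
      exact absurd (show (1 : Fin 2) = 0 from h) (by decide)), zero_mul, zero_add, MvPowerSeries.killCompl_C]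
  rfl

/-- Compare the coefficients of `X 1` (or kill the parameter `0`): `coeff 1 p * q₀ = 0`. -/
theorem mul_sub_ne_zero {p q r : PowerSeries K} (hp : PowerSeries.coeff 1 p ≠ 0)
    (hq : PowerSeries.constantCoeff q ≠ 0) :
    (p.toMvPowerSeries (1 : Fin 2) * q.toMvPowerSeries (0 : Fin 2) - r.toMvPowerSeries (0 : Fin 2)) ≠
      0 := by
  intro h
  have h1 := congrArg (MvPowerSeries.killCompl (Function.Embedding.punit (1 : Fin 2))) h
  have h2 : MvPowerSeries.killCompl (Function.Embedding.punit (1 : Fin 2))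
      (p.toMvPowerSeries (1 : Fin 2)) = p :=
    MvPowerSeries.killCompl_rename_app (e := Function.Embedding.punit (1 : Fin 2)) p
  rw [map_sub, map_mul, map_zero, kill_toMv_CvInd, kill_toMv_CvInd, h2] at h1
  have h3 : p * PowerSeries.C (PowerSeries.constantCoeff q) -
      PowerSeries.C (PowerSeries.constantCoeff r) = (0 : PowerSeries K) := h1
  have h4 := congrArg (PowerSeries.coeff 1) h3
  rw [map_sub, PowerSeries.coeff_mul_C, PowerSeries.coeff_C, if_neg one_ne_zero, sub_zero,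
    map_zero] at h4
  exact mul_ne_zero hp hq h4

theorem map_aeval_CvInd {σ S T : Type*} [CommRing S] [CommRing T] [Algebra ℚ S] [Algebra ℚ T]
    (f : S →+* T) (z : σ → S) (p : MvPolynomial σ ℚ) :
    f (aeval z p) = aeval (fun i => f (z i)) p :=
  comp_aeval_apply z f.toRatAlgHom p

theorem vec2_CvInd {S T : Type*} (f : S → T) (x y : S) : (fun i => f (![x, y] i)) = ![f x, f y] := by
  funext i
  fin_cases i <;> rfl

theorem coeff_one_aeval_CvInd (v : Fin 2 → PowerSeries K) (φ : MvPolynomial (Fin 2) ℚ) :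
    PowerSeries.coeff 1 (aeval v φ) =
      aeval (fun i => PowerSeries.constantCoeff (v i)) (pderiv 0 φ) * PowerSeries.coeff 1 (v 0) +
      aeval (fun i => PowerSeries.constantCoeff (v i)) (pderiv 1 φ) * PowerSeries.coeff 1 (v 1) := by
  induction φ using MvPolynomial.induction_on with
  | C c =>
    rw [aeval_C, IsScalarTower.algebraMap_apply ℚ K (PowerSeries K)]
    simp
  | add p q hp hq =>
    simp only [map_add, hp, hq]
    ring
  | mul_X p i hp =>
    rw [map_mul, PowerSeries.coeff_one_mul, hp, map_aeval_CvInd PowerSeries.constantCoeff v p,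
      aeval_X]
    fin_cases i <;> simp [pderiv_X] <;> ring

/-- If `coeff 1 (u 2) = 0` then the coefficient of `X` in `φ (u 0, u 2) = 0` is the
derivative in the first variable (`aeval_update_add` twice). -/
theorem Br.coeff_one_ne_zero {φ : MvPolynomial (Fin 2) ℚ} {z : Fin 4 → K}
    {u : Fin 4 → PowerSeries K} (h : Br a b a' b' φ z u)
    (hs : aeval ![z 0, z 2] (pderiv 0 φ) ≠ 0) : PowerSeries.coeff 1 (u 2) ≠ 0 := by
  intro h0
  have h1 := coeff_one_aeval_CvInd ![u 0, u 2] φ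
  have e : (fun i => PowerSeries.constantCoeff (![u 0, u 2] i)) = ![z 0, z 2] := by
    rw [vec2_CvInd, h.cc, h.cc]
  have e1 : PowerSeries.coeff 1 (u 0) = 1 := by
    rw [h.par]
    simp
  rw [h.f, map_zero, e] at h1
  simp only [Matrix.cons_val_zero, Matrix.cons_val_one, h0, e1, mul_one, mul_zero, add_zero] at h1
  exact hs h1.symm

theorem fac_eq_CvInd {F : Type} [Field F] [CharZero F] {A B x y x' y' : F} (h : NS A B x y)
    (h' : NS A B x' y') (s : ℕ) (hB : (mulP A B x y s).2.1 ≠ 0)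
    (hD : aD x' (mulP A B x y s) ≠ 0) {n i : ℕ} (hi : i ≤ n) :
    fac A B x' y' (mulP A B x y s) n false i =
      xc (pt x' y' h' - 2 ^ s • pt x y h) ^ i * aD x' (mulP A B x y s) ^ n := by
  obtain ⟨-, h1, e⟩ := mulP_pt h s (smul_pt_ne_zero h s hB)
  obtain ⟨y'', h'', e'⟩ := sub_pt h' hB h1 hD
  rw [e, e', xc_pt]
  exact fac_false (div_mul_cancel₀ _ hD).symm hi

theorem den_ne_CvInd {F : Type} [Field F] (f : MvPowerSeries (Fin 2) K →+* F)
    (hf : Function.Injective f) (a b : ℤ) (x y p : PowerSeries K) (s : ℕ)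
    (hp : PowerSeries.coeff 1 p ≠ 0)
    (hB : (mulP (a : K) b (PowerSeries.constantCoeff x) (PowerSeries.constantCoeff y) s).2.1 ≠ 0) :
    (mulP (a : F) b (f (x.toMvPowerSeries 0)) (f (y.toMvPowerSeries 0)) s).2.1 ≠ 0 ∧
      aD (f (p.toMvPowerSeries 1))
        (mulP (a : F) b (f (x.toMvPowerSeries 0)) (f (y.toMvPowerSeries 0)) s) ≠ 0 := by
  have e0 := map3_mulP (PowerSeries.constantCoeff (R := K)) a b x y s
  have e1 := map3_mulP (f.comp (PowerSeries.toMvPowerSeries (R := K) (0 : Fin 2)).toRingHom)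
    a b x y s
  rw [map_intCast, map_intCast] at e0 e1
  rw [← e0] at hB
  have e2 : mulP (a : F) b (f (x.toMvPowerSeries 0)) (f (y.toMvPowerSeries 0)) s =
      (f ((mulP (a : PowerSeries K) b x y s).1.toMvPowerSeries 0),
        f ((mulP (a : PowerSeries K) b x y s).2.1.toMvPowerSeries 0),
        f ((mulP (a : PowerSeries K) b x y s).2.2.toMvPowerSeries 0)) := e1.symm
  have hB' : PowerSeries.constantCoeff (mulP (a : PowerSeries K) b x y s).2.1 ≠ 0 := hB
  rw [e2]
  refine ⟨fun h => hB' ?_, pow_ne_zero _ fun h => mul_sub_ne_zero hp hB'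
    (r := (mulP (a : PowerSeries K) b x y s).1) (hf ?_)⟩
  · rw [PowerSeries.toMvPowerSeries_injective (0 : Fin 2)
      ((hf (h.trans (map_zero f).symm)).trans (map_zero _).symm), map_zero]
  · rw [map_sub, map_mul, map_zero]
    exact h

/-- Apply `indepV` to `L = FractionRing (MvPowerSeries (Fin 2) K)` and the points with coordinates
the images of `Z2 u u'` (`ns_of_eq`, `onV_Z2`).  In the first case take the constant coefficient.
In the second case: the denominators `B` of `mulP` are nonzero (constant coefficient, `map3_mulP`),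
`smul_pt_ne_zero`, `mulP_pt`, `aD ≠ 0` (`mul_sub_ne_zero`; `mulP` of the first four coordinates is
the image under `toMvPowerSeries 0`), `sub_pt`, `aeval_Gb`, `fac_false` give
`Gc = aD ^ n * aD' ^ n * ∑ c v * xc z₁ ^ i * xc z₂ ^ j * xc P₁ ^ l`; restrict the linear independence
along the injective map `VI n ν → ℕ × ℕ × Fin ν`. -/
theorem indep_series (hD : 4 * a ^ 3 + 27 * b ^ 2 ≠ 0) (hD' : 4 * a' ^ 3 + 27 * b' ^ 2 ≠ 0) (B : ℕ)
    (φ₁ : MvPolynomial (Fin 2) ℚ) (hi₁ : Irreducible φ₁)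
    (hB₁ : ∀ i, 1 ≤ degreeOf i φ₁ ∧ degreeOf i φ₁ ≤ B) :
    ∃ (r₀ : ℕ) (Θ : MvPolynomial (Fin 2) K), Θ ≠ 0 ∧
      ∀ (φ₂ : MvPolynomial (Fin 2) ℚ) (z z' : Fin 4 → K) (u u' : Fin 4 → PowerSeries K)
        (s ν n : ℕ), Irreducible φ₂ → degreeOf 1 φ₂ ≤ B → NoTop φ₂ → Br a b a' b' φ₁ z u →
        Br a b a' b' φ₂ z' u' → aeval ![z' 0, z' 2] (pderiv 0 φ₂) ≠ 0 →
        (mulP (a : K) b (z 0) (z 1) s).2.1 ≠ 0 → (mulP (a' : K) b' (z 2) (z 3) s).2.1 ≠ 0 →
        r₀ ≤ 2 ^ s → 5000 * B ^ 2 * ν ≤ 4 ^ s →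
        aeval ![z' 0, z' 2] Θ = 0 ∨ ∀ c : VI n ν → ℤ, c ≠ 0 →
          aeval (Z2 u u') (Gc a b a' b' s n c (false, false)) ≠ 0 := by
  have hDK : 4 * (a : K) ^ 3 + 27 * (b : K) ^ 2 ≠ 0 := by exact_mod_cast hD
  have hDK' : 4 * (a' : K) ^ 3 + 27 * (b' : K) ^ 2 ≠ 0 := by exact_mod_cast hD'
  obtain ⟨r₀, Θ, hΘ, H⟩ := indepV (a : K) b a' b' hDK hDK' B φ₁ hi₁ hB₁
  refine ⟨r₀, Θ, hΘ, ?_⟩
  intro φ₂ z z' u u' s ν n hi₂ hb₂ hnt h h' hsep hB hB' hr hν
  obtain ⟨L, _, _, _, ι', hι, hI⟩ : ∃ (L : Type) (_ : Field L) (_ : CharZero L) (_ : Algebra K L)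
      (ι : MvPowerSeries (Fin 2) K →ₐ[K] L), Function.Injective ι ∧ ∀ x x' : K,
        AlgebraicIndependent K ![ι (MvPowerSeries.C x + MvPowerSeries.X 0),
          ι (MvPowerSeries.C x' + MvPowerSeries.X 1)] :=
    ⟨FractionRing (MvPowerSeries (Fin 2) K), inferInstance,
      charZero_of_injective_algebraMap (algebraMap K _).injective, inferInstance,
      IsScalarTower.toAlgHom K _ _, IsFractionRing.injective (MvPowerSeries (Fin 2) K) _,
      algInd_param⟩
  let ι : MvPowerSeries (Fin 2) K →+* L := ι'.toRingHom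
  have hV := onV_Z2 h h'
  have hDL : 4 * algebraMap K L a ^ 3 + 27 * algebraMap K L b ^ 2 ≠ 0 := by
    rw [map_intCast, map_intCast]
    exact_mod_cast hD
  have hDL' : 4 * algebraMap K L a' ^ 3 + 27 * algebraMap K L b' ^ 2 ≠ 0 := by
    rw [map_intCast, map_intCast]
    exact_mod_cast hD'
  have ns : ∀ {A B : ℤ} {x y : MvPowerSeries (Fin 2) K},
      4 * algebraMap K L A ^ 3 + 27 * algebraMap K L B ^ 2 ≠ 0 → y ^ 2 = x ^ 3 + A * x + B →
      NS (algebraMap K L A) (algebraMap K L B) (ι x) (ι y) := fun hd he =>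
    ns_of_eq two_ne_zero hd (by simpa using congrArg ι he)
  have n1 := ns hDL hV.e1
  have n3 := ns hDL' hV.e3
  have n5 := ns hDL hV.e5
  have n7 := ns hDL' hV.e7
  have f1 : aeval ![ι (Z2 u u' 0), ι (Z2 u u' 2)] φ₁ = 0 := by
    have := congrArg ι hV.f1
    rwa [map_aeval_CvInd, map_zero, vec2_CvInd ι] at this
  have f2 : aeval ![ι (Z2 u u' 4), ι (Z2 u u' 6)] φ₂ = 0 := by
    have := congrArg ι hV.f2
    rwa [map_aeval_CvInd, map_zero, vec2_CvInd ι] at this
  have hind : AlgebraicIndependent K ![ι (Z2 u u' 0), ι (Z2 u u' 4)] := by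
    have e0 : Z2 u u' 0 = MvPowerSeries.C (z 0) + MvPowerSeries.X 0 := by
      change (u 0).toMvPowerSeries 0 = _
      rw [h.par, map_add, PowerSeries.toMvPowerSeries_C, PowerSeries.toMvPowerSeries_X]
    have e4 : Z2 u u' 4 = MvPowerSeries.C (z' 0) + MvPowerSeries.X 1 := by
      change (u' 0).toMvPowerSeries 1 = _
      rw [h'.par, map_add, PowerSeries.toMvPowerSeries_C, PowerSeries.toMvPowerSeries_X]
    rw [e0, e4]
    exact hI _ _
  refine (H L (pt _ _ n1) (pt _ _ n5) (pt _ _ n3) (pt _ _ n7) φ₂ s ν hi₂ hb₂ hnt f1 f2 hind hr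
    hν).imp (fun k => ?_) fun k c hc h0 => hc ?_
  · let g : PowerSeries K →ₐ[K] L := ι'.comp (PowerSeries.toMvPowerSeries (1 : Fin 2))
    have hg : Function.Injective g := hι.comp (PowerSeries.toMvPowerSeries_injective (1 : Fin 2))
    have k1 : aeval ![u' 0, u' 2] Θ = 0 := hg (by
      rw [map_zero, comp_aeval_apply, vec2_CvInd g]
      exact k)
    let c0 : PowerSeries K →ₐ[K] K :=
      { PowerSeries.constantCoeff with commutes' := fun r => by simp }
    have k2 := congrArg c0 k1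
    rw [map_zero, comp_aeval_apply, vec2_CvInd c0] at k2
    rw [← h'.cc 0, ← h'.cc 2]
    exact k2
  · have c1 : PowerSeries.coeff 1 (u' 0) ≠ 0 := by
      rw [h'.par]
      simp
    obtain ⟨d1, d2⟩ := den_ne_CvInd ι hι a b (u 0) (u 1) (u' 0) s c1 (by rwa [h.cc, h.cc])
    obtain ⟨d3, d4⟩ := den_ne_CvInd ι hι a' b' (u 2) (u 3) (u' 2) s (h'.coeff_one_ne_zero hsep)
      (by rwa [h.cc, h.cc])
    rw [← map_intCast (algebraMap K L) a, ← map_intCast (algebraMap K L) b] at d1 d2
    rw [← map_intCast (algebraMap K L) a', ← map_intCast (algebraMap K L) b'] at d3 d4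
    have k1 := Fintype.linearIndependent_iff.1
      (k.comp (fun v : VI n ν => ((v.1 : ℕ), (v.2.1 : ℕ), v.2.2)) (by
        rintro ⟨i, j, l⟩ ⟨i', j', l'⟩ e
        simp only [Prod.mk.injEq] at e
        rw [Fin.ext e.1, Fin.ext e.2.1, e.2.2])) (fun v => (c v : K)) (by
      have k2 := congrArg ι h0
      rw [map_aeval_CvInd, map_zero, Gc, map_sum] at k2
      refine mul_left_cancel₀ (mul_ne_zero (pow_ne_zero n d2) (pow_ne_zero n d4)) ?_
      rw [mul_zero, ← k2, Finset.mul_sum]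
      refine Finset.sum_congr rfl fun v _ => ?_
      rw [map_zsmul, aeval_Gb, ← map_intCast (algebraMap K L) a, ← map_intCast (algebraMap K L) b,
        ← map_intCast (algebraMap K L) a', ← map_intCast (algebraMap K L) b',
        fac_eq_CvInd n1 n5 s d1 d2 (Nat.lt_succ_iff.1 v.1.2),
        fac_eq_CvInd n3 n7 s d3 d4 (Nat.lt_succ_iff.1 v.2.1.2), Int.cast_smul_eq_zsmul,
        zsmul_eq_mul, zsmul_eq_mul]
      simp only [Function.comp_apply, xc_pt]
      change _ = _ * (_ * aD (ι ((u' 0).toMvPowerSeries 1)) (mulP _ _ (ι ((u 0).toMvPowerSeries 0))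
        (ι ((u 1).toMvPowerSeries 0)) s) ^ n * (_ * aD (ι ((u' 2).toMvPowerSeries 1))
        (mulP _ _ (ι ((u 2).toMvPowerSeries 0)) (ι ((u 3).toMvPowerSeries 0)) s) ^ n) * _)
      ring)
    funext v
    exact_mod_cast k1 v

end Pool.Agent.Lib.MP_651af7_nt.Vj
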