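import Pool.Agent.Lib.MP_651af7_nt.Vj.CvIneq
import Pool.Agent.Lib.MP_651af7_nt.MWCell

/-! Points of large height. -/

namespace Pool.Agent.Lib.MP_651af7_nt.Vj

open MvPolynomial Finset Height Pool.Agent.Lib.Common.Subspace Pool.Agent.Lib.MP_e97e2b_nt
  Pool.Agent.Lib.MP_651af7_nt.Iv

variable {K : Type} [Field K] [NumberField K] {A B A' B' : K}

theorem gg_eq_hE (x x' : K) : gg x x' = hE x x' := (hE_eq x x').symm

/-- `ht_euclid`, `Pool.Agent.MP_651af7_nt.MW.one_smul_est`, `ht_par`; `ht 0 = 0`; if `yc P = 0` and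
`P ≠ 0` then `2 • P = 0` (`add_neg_case`). -/
theorem ht_facts (hD : 4 * A ^ 3 + 27 * B ^ 2 ≠ 0) : ∃ C : ℝ, 0 ≤ C ∧
    (∀ (P : Pt A B) (s : ℕ), 4 ^ s * ht P - C * 4 ^ s ≤ ht (2 ^ s • P)) ∧
    (∀ P Q : Pt A B, 2 * ht P + 2 * ht Q - ht (P - Q) - C ≤ ht (P + Q)) ∧
    ∀ P : Pt A B, C < ht P → P ≠ 0 ∧ yc P ≠ 0 ∧ ∀ s : ℕ, 2 ^ s • P ≠ 0 := by
  obtain ⟨r, φ, C, hC⟩ := ht_euclid hD
  have hC0 : 0 ≤ C := (abs_nonneg _).trans (hC 0)
  have h0 : ht (0 : Pt A B) = 0 := logHeight₁_zero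
  have h1 : ∀ (P : Pt A B) (s : ℕ), 4 ^ s * ht P - 6 * C * 4 ^ s ≤ ht (2 ^ s • P) := by
    intro P s
    have h := (abs_le.1 (Pool.Agent.MP_651af7_nt.MW.one_smul_est hC (2 ^ s) P)).1
    have e : (((2 ^ s : ℕ) : ℝ)) ^ 2 = 4 ^ s := by
      push_cast
      rw [← pow_mul, mul_comm, pow_mul]
      norm_num
    rw [e] at h
    have h4 : (1 : ℝ) ≤ 4 ^ s := one_le_pow₀ (by norm_num)
    nlinarith
  refine ⟨6 * C, by positivity, h1, fun P Q => ?_, fun P hP => ?_⟩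
  · have h := (abs_le.1 (Pool.Agent.MP_651af7_nt.MW.one_par_est hC P Q)).1
    linarith
  · have h2 : ∀ s : ℕ, 2 ^ s • P ≠ 0 := by
      intro s e
      have h := h1 P s
      rw [e, h0] at h
      have h4 : (0 : ℝ) < 4 ^ s := by positivity
      nlinarith
    have hP0 : P ≠ 0 := by simpa using h2 0
    refine ⟨hP0, fun hy => h2 1 ?_, h2⟩
    rcases P.cases with rfl | ⟨x, y, h, rfl⟩
    · exact absurd rfl hP0
    · rw [pow_one, two_nsmul]
      rw [yc_pt] at hy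
      exact add_neg_case h h rfl (by rw [hy, neg_zero])

theorem eq_pt {P : Pt A B} (h : P ≠ 0) : ∃ h' : NS A B (xc P) (yc P), P = pt (xc P) (yc P) h' := by
  rcases P.cases with rfl | ⟨x, y, h', rfl⟩
  · exact absurd rfl h
  · exact ⟨h', rfl⟩

/-- `mulP_pt`, `add_pt`. -/
theorem sumData_pt {P Q : Pt A B} {s : ℕ} (hP : P ≠ 0) (hQ : Q ≠ 0) (hs : 2 ^ s • P ≠ 0)
    (h : Q + 2 ^ s • P ≠ 0) : (mulP A B (xc P) (yc P) s).2.1 ≠ 0 ∧
      SumData A B (xc Q) (yc Q) (mulP A B (xc P) (yc P) s) (xc (Q + 2 ^ s • P)) := by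
  rcases P.cases with rfl | ⟨x, y, h₁, rfl⟩
  · exact absurd rfl hP
  rcases Q.cases with rfl | ⟨x₂, y₂, h₂, rfl⟩
  · exact absurd rfl hQ
  obtain ⟨hB, h', e⟩ := mulP_pt h₁ s hs
  rcases (pt x₂ y₂ h₂ + 2 ^ s • pt x y h₁).cases with e0 | ⟨x₃, y₃, h₃, e₃⟩
  · exact absurd e0 h
  refine ⟨hB, ?_⟩
  rw [e₃]
  rw [e] at e₃
  exact add_pt h₂ hB h' e₃

/-- `height_le_of_sing` for `rename (Equiv.swap 0 1) φ` (`renameEquiv`, `pderiv_rename`,
`degreeOf_rename_of_injective`, `IL.rename`). -/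
theorem height_le_of_sing' {φ : MvPolynomial (Fin 2) ℚ} (hi : Irreducible φ) {T : ℝ} (hφ : IL φ T)
    {D : ℕ} (hB : ∀ i, degreeOf i φ ≤ D) (h1 : 1 ≤ degreeOf 0 φ) {x x' : K}
    (h0 : aeval ![x, x'] φ = 0) (hs : aeval ![x, x'] (pderiv 0 φ) = 0) :
    logHeight₁ x' ≤ totalWeight K * (2 * D * Real.log ((D + 1) * T)) := by
  have hinj : Function.Injective (Equiv.swap (0 : Fin 2) 1) := (Equiv.swap 0 1).injective
  have hc : (![x', x] : Fin 2 → K) ∘ (Equiv.swap (0 : Fin 2) 1) = ![x, x'] := by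
    funext i
    fin_cases i <;> simp
  have hd : ∀ i, degreeOf (Equiv.swap (0 : Fin 2) 1 i) (rename (Equiv.swap (0 : Fin 2) 1) φ) =
      degreeOf i φ := fun i => degreeOf_rename_of_injective hinj i
  have e1 : Equiv.swap (0 : Fin 2) 1 0 = 1 := Equiv.swap_apply_left _ _
  refine height_le_of_sing (φ := rename (Equiv.swap (0 : Fin 2) 1) φ) (x := x') (x' := x)
    ((MulEquiv.irreducible_iff (renameEquiv ℚ (Equiv.swap (0 : Fin 2) 1))).2 hi)
    (hφ.rename _) (fun i => ?_) ?_ ?_ ?_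
  · obtain ⟨j, rfl⟩ := (Equiv.swap (0 : Fin 2) 1).surjective i
    rw [hd]
    exact hB j
  · have h2 := hd 0
    rw [e1] at h2
    rw [h2]
    exact h1
  · rw [aeval_rename, hc, h0]
  · have h2 := pderiv_rename hinj (0 : Fin 2) φ
    rw [e1] at h2
    rw [h2, aeval_rename, hc, hs]

/-- A bad special point of large height is in general position on its curve: otherwise
`η * H ≤ hE ≤ logHeight₁` would be at most `totalWeight * 2 D * (D + ε H)`
(`height_le_of_degreeOf_eq_zero`, `height_le_of_sing`, `height_le_of_sing'`, `hE_le_of_top`,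
`log (D + 1) ≤ D`). -/
theorem special_facts (D : ℕ) {η : ℝ} (hη : 0 < η) : ∃ ε₀ H₀ : ℝ, 0 < ε₀ ∧
    ∀ (ε H : ℝ) (x x' : K) (φ : MvPolynomial (Fin 2) ℚ), 0 < ε → ε ≤ ε₀ → H₀ ≤ H →
      η * H ≤ hE x x' → Irreducible φ → IL φ (Real.exp (ε * H)) → (∀ i, degreeOf i φ ≤ D) →
      aeval ![x, x'] φ = 0 →
      (∀ i, 1 ≤ degreeOf i φ) ∧ (∀ i, aeval ![x, x'] (pderiv i φ) ≠ 0) ∧ NoTop φ := by
  have hw : (0 : ℝ) ≤ totalWeight K := Nat.cast_nonneg _
  have hD : (0 : ℝ) ≤ D := Nat.cast_nonneg _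
  set w : ℝ := ((totalWeight K : ℕ) : ℝ) with hwdef
  have hM : 0 < w * (2 * D + 1) + 1 := by positivity
  refine ⟨η / (2 * (w * (2 * D + 1) + 1)), 2 * ((w * (2 * D + 1) + 1) * D + 1) / η,
    by positivity, fun ε H x x' φ hε hε₀ hH hE' hi hφ hB h0 => ?_⟩
  have hH0 : 0 ≤ H := le_trans (by positivity) hH
  rw [div_le_iff₀ hη] at hH
  rw [le_div_iff₀ (by positivity)] at hε₀
  have hεH : 0 ≤ ε * H := mul_nonneg hε.le hH0
  have key : (w * (2 * D + 1) + 1) * (D + ε * H) < η * H := by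
    have := mul_le_mul_of_nonneg_right hε₀ hH0
    nlinarith
  have b1 : w * Real.log (Real.exp (ε * H)) < η * H := by
    rw [Real.log_exp]
    refine lt_of_le_of_lt ?_ key
    have := mul_nonneg hw hD
    have := mul_nonneg (mul_nonneg hw hD) hD
    have := mul_nonneg (mul_nonneg hw hD) hεH
    nlinarith
  have b2 : w * (2 * D * Real.log ((D + 1) * Real.exp (ε * H))) < η * H := by
    rw [Real.log_mul (by positivity) (Real.exp_ne_zero _), Real.log_exp]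
    have hl : Real.log (D + 1) ≤ D := by
      have := Real.log_le_sub_one_of_pos (x := (D : ℝ) + 1) (by positivity)
      linarith
    refine lt_of_le_of_lt ?_ key
    have := mul_le_mul_of_nonneg_left hl (mul_nonneg hw hD)
    have := mul_nonneg hw hD
    have := mul_nonneg hw hεH
    nlinarith
  have l1 := hE'.trans (hE_le_left x x')
  have l2 := hE'.trans (hE_le_right x x')
  have hdeg : ∀ i, 1 ≤ degreeOf i φ := by
    intro i
    by_contra hc
    rcases height_le_of_degreeOf_eq_zero hi.ne_zero hφ h0 (i := i) (by omega) with h | h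
    · linarith
    · linarith
  refine ⟨hdeg, fun i hs => ?_, fun m hm => ?_⟩
  · fin_cases i
    · linarith [height_le_of_sing' hi hφ hB (hdeg 0) h0 hs]
    · linarith [height_le_of_sing hi hφ hB (hdeg 1) h0 hs]
  · by_contra hc
    push Not at hc
    linarith [hE_le_of_top hφ hm hc h0]

end Pool.Agent.Lib.MP_651af7_nt.Vj
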