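import Pool.Agent.Lib.MP_651af7_nt.Vj.Wd
import Pool.Agent.Lib.MP_e97e2b_nt.Short

/-! The doubling polynomials. -/

namespace Pool.Agent.Lib.MP_651af7_nt.Vj

open MvPolynomial Finset Pool.Agent.Lib.Common.Subspace Pool.Agent.Lib.MP_e97e2b_nt

section ring

variable {R S : Type*} [CommRing R] [CommRing S]

/-- A ring homomorphism on triples. -/
def map3 (f : R →+* S) (p : R × R × R) : S × S × S := (f p.1, f p.2.1, f p.2.2)

theorem mulP_succ (a b x y : R) (s : ℕ) : mulP a b x y (s + 1) = dbl a b (mulP a b x y s) :=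
  Function.iterate_succ_apply' _ _ _

theorem map3_dbl (f : R →+* S) (a b : R) (p : R × R × R) :
    map3 f (dbl a b p) = dbl (f a) (f b) (map3 f p) := by
  simp only [map3, dbl, map_sub, map_add, map_mul, map_pow, map_ofNat]

theorem map3_mulP (f : R →+* S) (a b x y : R) (s : ℕ) :
    map3 f (mulP a b x y s) = mulP (f a) (f b) (f x) (f y) s := by
  induction s with
  | zero => simp [mulP, map3]
  | succ s ih => rw [mulP_succ, mulP_succ, map3_dbl, ih]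

/-- `linear_combination 4 * g ^ 2 * h`, `g` the sextic factor. -/
theorem OnC.dbl {a b : R} {p : R × R × R} (h : OnC a b p) : OnC a b (dbl a b p) := by
  obtain ⟨A, B, Y⟩ := p
  simp only [OnC, Vj.dbl] at h ⊢
  linear_combination 4 * (A ^ 6 + 5 * a * A ^ 4 * B ^ 2 + 20 * b * A ^ 3 * B ^ 3
      - 5 * a ^ 2 * A ^ 2 * B ^ 4 - 4 * a * b * A * B ^ 5 - (8 * b ^ 2 + a ^ 3) * B ^ 6) ^ 2 * h

theorem onC_mulP {a b x y : R} (h : y ^ 2 = x ^ 3 + a * x + b) (s : ℕ) :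
    OnC a b (mulP a b x y s) := by
  induction s with
  | zero =>
    simp only [mulP, Function.iterate_zero, id, OnC]
    linear_combination h
  | succ s ih => rw [mulP_succ]; exact ih.dbl

end ring

section poly

variable {σ : Type*} {a b x y : MvPolynomial σ ℚ}

theorem wd_dbl {w : σ → ℕ} {c W : ℕ} (ha : WD w a c) (hb : WD w b c)
    {p : MvPolynomial σ ℚ × MvPolynomial σ ℚ × MvPolynomial σ ℚ} (h1 : WD w p.1 W)
    (h2 : WD w p.2.1 W) (h3 : WD w p.2.2 (2 * W)) :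
    WD w (dbl a b p).1 (4 * W + 2 * c) ∧ WD w (dbl a b p).2.1 (4 * W + 2 * c) ∧
      WD w (dbl a b p).2.2 (2 * (4 * W + 2 * c)) := by
  refine ⟨?_, ?_, ?_⟩
  · refine ((((h1.pow 4).mono (by omega)).sub ?_).sub ?_).add ?_
    · exact ((((wd_ofNat w 2).mul ha).mul (h1.pow 2)).mul (h2.pow 2)).mono (by omega)
    · exact ((((wd_ofNat w 8).mul hb).mul h1).mul (h2.pow 3)).mono (by omega)
    · exact ((ha.pow 2).mul (h2.pow 4)).mono (by omega)
  · have k : WD w (p.1 ^ 3 + a * p.1 * p.2.1 ^ 2 + b * p.2.1 ^ 3) (3 * W + c) :=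
      (((h1.pow 3).mono (by omega)).add (((ha.mul h1).mul (h2.pow 2)).mono (by omega))).add
        ((hb.mul (h2.pow 3)).mono (by omega))
    exact (((wd_ofNat w 4).mul h2).mul k).mono (by omega)
  · have k : WD w (p.1 ^ 6 + 5 * a * p.1 ^ 4 * p.2.1 ^ 2 + 20 * b * p.1 ^ 3 * p.2.1 ^ 3
      - 5 * a ^ 2 * p.1 ^ 2 * p.2.1 ^ 4 - 4 * a * b * p.1 * p.2.1 ^ 5
      - (8 * b ^ 2 + a ^ 3) * p.2.1 ^ 6) (6 * W + 3 * c) := by
      refine ((((((h1.pow 6).mono (by omega)).add ?_).add ?_).sub ?_).sub ?_).sub ?_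
      · exact ((((wd_ofNat w 5).mul ha).mul (h1.pow 4)).mul (h2.pow 2)).mono (by omega)
      · exact ((((wd_ofNat w 20).mul hb).mul (h1.pow 3)).mul (h2.pow 3)).mono (by omega)
      · exact ((((wd_ofNat w 5).mul (ha.pow 2)).mul (h1.pow 2)).mul (h2.pow 4)).mono (by omega)
      · exact (((((wd_ofNat w 4).mul ha).mul hb).mul h1).mul (h2.pow 5)).mono (by omega)
      · have k' : WD w (8 * b ^ 2 + a ^ 3) (3 * c) :=
          (((wd_ofNat w 8).mul (hb.pow 2)).mono (by omega)).add (ha.pow 3)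
        exact (k'.mul (h2.pow 6)).mono (by omega)
    exact (((wd_ofNat w 2).mul h3).mul k).mono (by omega)

theorem il_dbl {Λ T : ℝ} (hΛ : 1 ≤ Λ) (ha : IL a Λ) (hb : IL b Λ)
    {p : MvPolynomial σ ℚ × MvPolynomial σ ℚ × MvPolynomial σ ℚ} (h1 : IL p.1 T)
    (h2 : IL p.2.1 T) (h3 : IL p.2.2 (T ^ 2)) :
    IL (dbl a b p).1 (12 * Λ ^ 2 * T ^ 4) ∧ IL (dbl a b p).2.1 (12 * Λ ^ 2 * T ^ 4) ∧
      IL (dbl a b p).2.2 ((12 * Λ ^ 2 * T ^ 4) ^ 2) := by
  have hT := h1.nonneg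
  have hΛ0 : 0 ≤ Λ := by linarith
  have l2 : Λ ≤ Λ ^ 2 := by nlinarith
  have l3 : Λ ^ 2 ≤ Λ ^ 3 := by nlinarith
  have l4 : Λ ^ 3 ≤ Λ ^ 4 := by nlinarith
  have t4 : 0 ≤ T ^ 4 := by positivity
  have t8 : 0 ≤ T ^ 8 := by positivity
  refine ⟨?_, ?_, ?_⟩
  · refine ((((h1.pow 4).sub ((((il_ofNat 2).mul ha).mul (h1.pow 2)).mul (h2.pow 2))).sub
      ((((il_ofNat 8).mul hb).mul h1).mul (h2.pow 3))).add ((ha.pow 2).mul (h2.pow 4))).mono ?_
    have : (1 + 10 * Λ + Λ ^ 2) * T ^ 4 ≤ (12 * Λ ^ 2) * T ^ 4 :=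
      mul_le_mul_of_nonneg_right (by linarith) t4
    linarith
  · refine (((il_ofNat 4).mul h2).mul (((h1.pow 3).add ((ha.mul h1).mul (h2.pow 2))).add
      (hb.mul (h2.pow 3)))).mono ?_
    have : (4 + 8 * Λ) * T ^ 4 ≤ (12 * Λ ^ 2) * T ^ 4 :=
      mul_le_mul_of_nonneg_right (by linarith) t4
    linarith
  · refine (((il_ofNat 2).mul h3).mul ((((((h1.pow 6).add
      ((((il_ofNat 5).mul ha).mul (h1.pow 4)).mul (h2.pow 2))).add
      ((((il_ofNat 20).mul hb).mul (h1.pow 3)).mul (h2.pow 3))).sub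
      ((((il_ofNat 5).mul (ha.pow 2)).mul (h1.pow 2)).mul (h2.pow 4))).sub
      (((((il_ofNat 4).mul ha).mul hb).mul h1).mul (h2.pow 5))).sub
      ((((il_ofNat 8).mul (hb.pow 2)).add (ha.pow 3)).mul (h2.pow 6)))).mono ?_
    have : (2 + 50 * Λ + 34 * Λ ^ 2 + 2 * Λ ^ 3) * T ^ 8 ≤ (144 * Λ ^ 4) * T ^ 8 :=
      mul_le_mul_of_nonneg_right (by linarith) t8
    linarith

/-- Invariant: bounds `W, W, 2 W` with `W + c ≤ 4 ^ s * (u + c)`; one step gives `4 W + 2 c`. -/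
theorem wd_mulP {w : σ → ℕ} {c u : ℕ} (ha : WD w a c) (hb : WD w b c) (hx : WD w x u)
    (hy : WD w y (2 * u)) (s : ℕ) :
    WD w (mulP a b x y s).1 (4 ^ s * (u + c)) ∧ WD w (mulP a b x y s).2.1 (4 ^ s * (u + c)) ∧
      WD w (mulP a b x y s).2.2 (2 * (4 ^ s * (u + c))) := by
  have key : ∃ W : ℕ, W + c ≤ 4 ^ s * (u + c) ∧ WD w (mulP a b x y s).1 W ∧
      WD w (mulP a b x y s).2.1 W ∧ WD w (mulP a b x y s).2.2 (2 * W) := by
    induction s with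
    | zero => exact ⟨u, by simp, hx, (wd_one w).mono (Nat.zero_le _), hy⟩
    | succ s ih =>
      obtain ⟨W, hW, h1, h2, h3⟩ := ih
      obtain ⟨k1, k2, k3⟩ := wd_dbl ha hb h1 h2 h3
      refine ⟨4 * W + 2 * c, ?_, ?_, ?_, ?_⟩
      · have : 4 ^ (s + 1) * (u + c) = 4 * (4 ^ s * (u + c)) := by ring
        omega
      · rw [mulP_succ]; exact k1
      · rw [mulP_succ]; exact k2
      · rw [mulP_succ]; exact k3
  obtain ⟨W, hW, h1, h2, h3⟩ := key
  exact ⟨h1.mono (by omega), h2.mono (by omega), h3.mono (by omega)⟩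

/-- Invariant: bounds `T, T, T ^ 2` with `3 Λ T ≤ (3 Λ) ^ 4 ^ s`; one step gives `12 Λ ^ 2 T ^ 4`. -/
theorem il_mulP {Λ : ℝ} (hΛ : 1 ≤ Λ) (ha : IL a Λ) (hb : IL b Λ) (hx : IL x 1) (hy : IL y 1)
    (s : ℕ) :
    IL (mulP a b x y s).1 ((3 * Λ) ^ 4 ^ s) ∧ IL (mulP a b x y s).2.1 ((3 * Λ) ^ 4 ^ s) ∧
      IL (mulP a b x y s).2.2 (((3 * Λ) ^ 4 ^ s) ^ 2) := by
  have key : ∃ T : ℝ, 0 ≤ T ∧ 3 * Λ * T ≤ (3 * Λ) ^ 4 ^ s ∧ IL (mulP a b x y s).1 T ∧
      IL (mulP a b x y s).2.1 T ∧ IL (mulP a b x y s).2.2 (T ^ 2) := by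
    induction s with
    | zero => exact ⟨1, zero_le_one, by simp, hx, il_one, by simpa [mulP] using hy⟩
    | succ s ih =>
      obtain ⟨T, hT, hW, h1, h2, h3⟩ := ih
      obtain ⟨k1, k2, k3⟩ := il_dbl hΛ ha hb h1 h2 h3
      refine ⟨12 * Λ ^ 2 * T ^ 4, by positivity, ?_, ?_, ?_, ?_⟩
      · have e : (3 * Λ) ^ 4 ^ (s + 1) = ((3 * Λ) ^ 4 ^ s) ^ 4 := by
          rw [pow_succ, pow_mul]
        rw [e]
        have h0 : 0 ≤ 3 * Λ * T := by positivity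
        refine le_trans ?_ (pow_le_pow_left₀ h0 hW 4)
        have h4 : 0 ≤ Λ ^ 3 * T ^ 4 := by positivity
        have h5 : Λ ^ 3 * T ^ 4 ≤ Λ * (Λ ^ 3 * T ^ 4) := le_mul_of_one_le_left h4 hΛ
        nlinarith
      · rw [mulP_succ]; exact k1
      · rw [mulP_succ]; exact k2
      · rw [mulP_succ]; exact k3
  obtain ⟨T, hT, hW, h1, h2, h3⟩ := key
  have hT' : T ≤ (3 * Λ) ^ 4 ^ s := le_trans (by nlinarith) hW
  exact ⟨h1.mono hT', h2.mono hT', h3.mono (pow_le_pow_left₀ hT hT' 2)⟩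

end poly

variable {F : Type} [Field F] [CharZero F] {a b : F}

/-- One doubling (`add_char` with `l = (3 x ^ 2 + a) / (2 y)`; `B' = 4 Y ^ 2` by `OnC`). -/
theorem dbl_pt {p : F × F × F} (hB : p.2.1 ≠ 0) (h : NS a b (p.1 / p.2.1) (p.2.2 / p.2.1 ^ 2))
    (h2 : pt _ _ h + pt _ _ h ≠ 0) :
    (dbl a b p).2.1 ≠ 0 ∧ ∃ h', pt _ _ h + pt _ _ h =
      pt ((dbl a b p).1 / (dbl a b p).2.1) ((dbl a b p).2.2 / (dbl a b p).2.1 ^ 2) h' := by
  obtain ⟨A, B, Y⟩ := p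
  simp only at hB h h2 ⊢
  have hne : ¬(A / B = A / B ∧ Y / B ^ 2 = -(Y / B ^ 2)) := fun e =>
    h2 (add_neg_case h h e.1 e.2)
  obtain ⟨x, hx⟩ : ∃ x, x = A / B := ⟨_, rfl⟩
  obtain ⟨y, hy⟩ : ∃ y, y = Y / B ^ 2 := ⟨_, rfl⟩
  have hA : A = x * B := by rw [hx]; field_simp
  have hY : Y = y * B ^ 2 := by rw [hy]; field_simp
  have hy0 : y ≠ 0 := by
    intro e
    apply hne
    rw [← hy, e]; simp
  have hb : b = y ^ 2 - x ^ 3 - a * x := by
    have := h.1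
    rw [← hx, ← hy] at this
    linear_combination -this
  have hB' : (dbl a b (A, B, Y)).2.1 = 4 * B ^ 4 * y ^ 2 := by
    simp only [dbl]
    rw [hA, hb]; ring
  have hB0 : (dbl a b (A, B, Y)).2.1 ≠ 0 := by
    rw [hB']
    exact mul_ne_zero (mul_ne_zero (by norm_num) (pow_ne_zero _ hB)) (pow_ne_zero _ hy0)
  obtain ⟨h3, e⟩ := add_char h h hne (l := (3 * x ^ 2 + a) / (2 * y)) (by simp) (by
    rw [← hx, ← hy]; field_simp; ring)
  have e1 : ((3 * x ^ 2 + a) / (2 * y)) ^ 2 - A / B - A / B =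
      (dbl a b (A, B, Y)).1 / (dbl a b (A, B, Y)).2.1 := by
    rw [hB', ← hx]
    simp only [dbl]
    rw [hA, hb]
    field_simp
    ring
  have e2 : -((3 * x ^ 2 + a) / (2 * y) *
      (((3 * x ^ 2 + a) / (2 * y)) ^ 2 - A / B - A / B - A / B) + Y / B ^ 2) =
      (dbl a b (A, B, Y)).2.2 / (dbl a b (A, B, Y)).2.1 ^ 2 := by
    rw [hB', ← hx, ← hy]
    simp only [dbl]
    rw [hA, hY, hb]
    field_simp
    ring
  refine ⟨hB0, by rw [← e1, ← e2]; exact h3, e.trans ?_⟩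
  exact pt_inj.2 ⟨e1, e2⟩

theorem mulP_pt {x y : F} (h : NS a b x y) (s : ℕ) (h2 : 2 ^ s • pt x y h ≠ 0) :
    (mulP a b x y s).2.1 ≠ 0 ∧ ∃ h', 2 ^ s • pt x y h =
      pt ((mulP a b x y s).1 / (mulP a b x y s).2.1)
        ((mulP a b x y s).2.2 / (mulP a b x y s).2.1 ^ 2) h' := by
  induction s with
  | zero =>
    refine ⟨by simp [mulP], by simpa [mulP] using h, ?_⟩
    rw [pow_zero, one_smul, pt_inj]
    simp [mulP]
  | succ s ih =>
    have e : 2 ^ (s + 1) • pt x y h = 2 ^ s • pt x y h + 2 ^ s • pt x y h := by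
      rw [pow_succ, mul_comm, mul_smul, two_smul]
    have h3 : 2 ^ s • pt x y h ≠ 0 := by
      intro h0
      apply h2
      rw [e, h0, add_zero]
    obtain ⟨hB, h', e'⟩ := ih h3
    rw [e, e'] at h2
    rw [e, e', mulP_succ]
    exact dbl_pt hB h' h2

/-- Converse: if the denominator does not vanish, the multiple is not the origin
(`B (s + 1) = 4 * B s * (..) = 4 * Y s ^ 2`, induction). -/
theorem smul_pt_ne_zero {x y : F} (h : NS a b x y) (s : ℕ) (hB : (mulP a b x y s).2.1 ≠ 0) :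
    2 ^ s • pt x y h ≠ 0 := by
  induction s with
  | zero => rw [pow_zero, one_smul]; exact pt_ne_zero _
  | succ s ih =>
    have e : 2 ^ (s + 1) • pt x y h = 2 ^ s • pt x y h + 2 ^ s • pt x y h := by
      rw [pow_succ, mul_comm, mul_smul, two_smul]
    rw [mulP_succ] at hB
    have hB1 : (mulP a b x y s).2.1 ≠ 0 := by
      intro h0
      apply hB
      simp only [dbl]
      rw [h0]; ring
    have hY : (mulP a b x y s).2.2 ≠ 0 := by
      intro h0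
      apply hB
      have hc := onC_mulP h.1 s
      simp only [OnC] at hc
      simp only [dbl]
      rw [h0] at hc
      linear_combination (-4) * hc
    obtain ⟨-, h', e'⟩ := mulP_pt h s (ih hB1)
    rw [e, e']
    intro h0
    rw [add_eq_zero_iff_eq_neg, neg_pt, pt_inj] at h0
    have h4 : (mulP a b x y s).2.2 / (mulP a b x y s).2.1 ^ 2 = 0 := by
      linear_combination (1 / 2 : F) * h0.2
    exact div_ne_zero hY (pow_ne_zero _ hB1) h4

end Pool.Agent.Lib.MP_651af7_nt.Vj
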