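import Pool.Agent.Lib.Common.Subspace.Norm

/-! Common definitions for the gcd inequality on a product of two elliptic curves. -/

namespace Pool.Agent.Lib.MP_651af7_nt.Vj

open MvPolynomial Finset Height Pool.Agent.Lib.Common.Subspace

/-- Every monomial of `p` has `w`-weight at most `D`. -/
def WD {σ : Type*} (w : σ → ℕ) (p : MvPolynomial σ ℚ) (D : ℕ) : Prop :=
  ∀ μ ∈ p.support, Finsupp.weight w μ ≤ D

/-- Integer coefficients and length at most `T`. -/
def IL {σ : Type*} (p : MvPolynomial σ ℚ) (T : ℝ) : Prop := IsInt p ∧ len p ≤ T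

/-- A submultiplicative size function with the triangle inequality in a form common to the
archimedean type `e = 1` and the ultrametric type `e = 0`. -/
structure Nrm (R : Type*) [CommRing R] where
  N : R → ℝ
  e : ℕ
  e_le : e ≤ 1
  nonneg : ∀ u, 0 ≤ N u
  zero : N 0 = 0
  one : N 1 ≤ 1
  neg : ∀ u, N (-u) = N u
  mul : ∀ u u', N (u * u') ≤ N u * N u'
  add : ∀ (u u' : R) (m m' M : ℝ), N u ≤ m ^ e * M → N u' ≤ m' ^ e * M →
    N (u + u') ≤ (m + m') ^ e * M

/-- An absolute value with its type: `e = 1` is always allowed, `e = 0` only in the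
ultrametric case. -/
structure Loc (K : Type*) [Field K] where
  v : AbsoluteValue K ℝ
  e : ℕ
  h : e = 1 ∨ (e = 0 ∧ IsNonarchimedean v)

/-- Norm of the coefficients of index at most `κ` for the radius `ρ`: the maximum in the
ultrametric case, the sum otherwise. -/
noncomputable def Loc.N {K : Type*} [Field K] (L : Loc K) (κ : ℕ) (ρ : ℝ) (u : PowerSeries K) : ℝ :=
  if L.e = 0 then
    (range (κ + 1)).sup' nonempty_range_add_one (fun l => L.v (PowerSeries.coeff l u) * ρ ^ l)
  else ∑ l ∈ range (κ + 1), L.v (PowerSeries.coeff l u) * ρ ^ l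

section glob

variable {K : Type*} [Field K] [AdmissibleAbsValues K]

/-- Sum of a local term over all places. -/
noncomputable def gsum (f : AbsoluteValue K ℝ → ℝ) : ℝ :=
  (AdmissibleAbsValues.archAbsVal.map f).sum +
    ∑ᶠ v : AdmissibleAbsValues.nonarchAbsVal (K := K), f v.val

/-- A local term that vanishes at almost all places. -/
def FinS (f : AbsoluteValue K ℝ → ℝ) : Prop :=
  (Function.support fun v : AdmissibleAbsValues.nonarchAbsVal (K := K) => f v.val).Finite

/-- The logarithmic gcd of the poles: the sum over all places of `log max (1, min (|x|, |x'|))`. -/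
noncomputable def hE (x x' : K) : ℝ := gsum (fun v => Real.log (max (min (v x) (v x')) 1))

end glob

section curve

variable {R : Type*} [CommRing R]

/-- Doubling on triples `(A, B, Y)` standing for the point `(A / B, Y / B ^ 2)`. -/
def dbl (a b : R) (p : R × R × R) : R × R × R :=
  (p.1 ^ 4 - 2 * a * p.1 ^ 2 * p.2.1 ^ 2 - 8 * b * p.1 * p.2.1 ^ 3 + a ^ 2 * p.2.1 ^ 4,
    4 * p.2.1 * (p.1 ^ 3 + a * p.1 * p.2.1 ^ 2 + b * p.2.1 ^ 3),
    2 * p.2.2 * (p.1 ^ 6 + 5 * a * p.1 ^ 4 * p.2.1 ^ 2 + 20 * b * p.1 ^ 3 * p.2.1 ^ 3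
      - 5 * a ^ 2 * p.1 ^ 2 * p.2.1 ^ 4 - 4 * a * b * p.1 * p.2.1 ^ 5
      - (8 * b ^ 2 + a ^ 3) * p.2.1 ^ 6))

/-- The triple of `2 ^ s` times the point `(x, y)`. -/
def mulP (a b x y : R) (s : ℕ) : R × R × R := (dbl a b)^[s] (x, 1, y)

/-- The homogeneous curve equation for a triple. -/
def OnC (a b : R) (p : R × R × R) : Prop :=
  p.2.2 ^ 2 = p.1 ^ 3 * p.2.1 + a * p.1 * p.2.1 ^ 3 + b * p.2.1 ^ 4

/-- `(x U - x V) ^ 2`, for `U = (x, y)` and `V` the triple `p`. -/
def aD (x : R) (p : R × R × R) : R := (x * p.2.1 - p.1) ^ 2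

/-- The symmetric part of the addition formula. -/
def aS (a b x : R) (p : R × R × R) : R :=
  x * p.1 * (x * p.2.1 + p.1) + a * (x * p.2.1 + p.1) * p.2.1 + 2 * b * p.2.1 ^ 2

/-- `x (U - V) * (x U - x V) ^ 2`. -/
def aM (a b x y : R) (p : R × R × R) : R := aS a b x p + 2 * y * p.2.2

/-- `x (U + V) * (x U - x V) ^ 2`. -/
def aP (a b x y : R) (p : R × R × R) : R := aS a b x p - 2 * y * p.2.2

/-- `x (U + V) * x (U - V) * (x U - x V) ^ 2`. -/
def aT (a b x : R) (p : R × R × R) : R :=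
  (x * p.1 - a * p.2.1) ^ 2 - 4 * b * (x * p.2.1 + p.1) * p.2.1

/-- `x (U - V) ^ i * (x U - x V) ^ (2 n)`, times `x (U + V) ^ n` when `c` is true. -/
def fac (a b x y : R) (p : R × R × R) (n : ℕ) (c : Bool) (i : ℕ) : R :=
  if c then aT a b x p ^ i * aP a b x y p ^ (n - i) else aM a b x y p ^ i * aD x p ^ (n - i)

end curve

end Pool.Agent.Lib.MP_651af7_nt.Vj
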