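import Pool.Agent.Lib.MP_651af7_nt.Vj.Ser

/-! Fixed points of contractions of power series, and existence of formal branches. -/

namespace Pool.Agent.Lib.MP_651af7_nt.Vj

open MvPolynomial Finset

variable {K : Type*} [Field K] {σ : Type*}

/-- A map of power series without constant term that gains one order. -/
def Contr (F : PowerSeries K → PowerSeries K) : Prop :=
  (∀ u, PowerSeries.constantCoeff u = 0 → PowerSeries.constantCoeff (F u) = 0) ∧
    ∀ (l : ℕ) (u u' : PowerSeries K), PowerSeries.constantCoeff u = 0 →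
      PowerSeries.constantCoeff u' = 0 → PowerSeries.X ^ l ∣ u - u' →
      PowerSeries.X ^ (l + 1) ∣ F u - F u'

theorem fix_coeff_eq {n : ℕ} {u u' : PowerSeries K} (h : PowerSeries.X ^ n ∣ u - u') {l : ℕ}
    (hl : l < n) : PowerSeries.coeff l u = PowerSeries.coeff l u' := by
  have := PowerSeries.X_pow_dvd_iff.1 h l hl
  rwa [map_sub, sub_eq_zero] at this

theorem fix_dvd_of_coeff {n : ℕ} {u u' : PowerSeries K}
    (h : ∀ l < n, PowerSeries.coeff l u = PowerSeries.coeff l u') :
    PowerSeries.X ^ n ∣ u - u' :=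
  PowerSeries.X_pow_dvd_iff.2 fun l hl => by rw [map_sub, h l hl, sub_self]

/-- Iterate from `0`; `δ = mk fun l => coeff l (F^[l + 1] 0)`; `PowerSeries.X_pow_dvd_iff`. -/
theorem Contr.exists_fix {F : PowerSeries K → PowerSeries K} (hF : Contr F) :
    ∃ δ, PowerSeries.constantCoeff δ = 0 ∧ F δ = δ := by
  have h0 : ∀ n, PowerSeries.constantCoeff (F^[n] 0) = 0 := fun n => by
    induction n with
    | zero => simp
    | succ n ih => rw [Function.iterate_succ_apply']; exact hF.1 _ ih
  have h1 : ∀ n, PowerSeries.X ^ n ∣ F^[n + 1] 0 - F^[n] 0 := fun n => by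
    induction n with
    | zero => simp
    | succ n ih =>
      have := hF.2 n _ _ (h0 _) (h0 _) ih
      rwa [← Function.iterate_succ_apply' F (n + 1), ← Function.iterate_succ_apply' F n] at this
  have h2 : ∀ n m, n ≤ m → PowerSeries.X ^ n ∣ F^[m] 0 - F^[n] 0 := fun n m hnm => by
    induction m, hnm using Nat.le_induction with
    | base => simp
    | succ m hm ih =>
      have := dvd_add ((pow_dvd_pow _ hm).trans (h1 m)) ih
      rwa [sub_add_sub_cancel] at this
  set δ : PowerSeries K := PowerSeries.mk fun l => PowerSeries.coeff l (F^[l + 1] 0) with hδ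
  have h3 : ∀ l, PowerSeries.coeff l δ = PowerSeries.coeff l (F^[l + 1] 0) := fun l => by
    rw [hδ, PowerSeries.coeff_mk]
  have h4 : PowerSeries.constantCoeff δ = 0 := by
    rw [← PowerSeries.coeff_zero_eq_constantCoeff_apply, h3,
      PowerSeries.coeff_zero_eq_constantCoeff_apply, h0]
  have h5 : ∀ n, PowerSeries.X ^ n ∣ δ - F^[n] 0 := fun n => fix_dvd_of_coeff fun l hl => by
    rw [h3]
    exact (fix_coeff_eq (h2 (l + 1) n hl) (Nat.lt_succ_self l)).symm
  refine ⟨δ, h4, PowerSeries.ext fun l => ?_⟩
  rw [h3, fix_coeff_eq (hF.2 l _ _ h4 (h0 l) (h5 l)) (Nat.lt_succ_self l),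
    Function.iterate_succ_apply']

/-- Induction on `l ≤ κ` for `N l ρ δ ≤ t`: with `δ'` the truncation of `δ` to the coefficients of
index `≤ l`, `N (l + 1) ρ δ = N (l + 1) ρ (F δ')` and `N (l + 1) ρ δ' = N l ρ δ`. -/
theorem Contr.N_fix_le (L : Loc K) {κ : ℕ} {ρ : ℝ} (hρ : 0 ≤ ρ)
    {F : PowerSeries K → PowerSeries K} (hF : Contr F) {t : ℝ} (ht : 0 ≤ t)
    (h : ∀ l ≤ κ, ∀ u, PowerSeries.constantCoeff u = 0 → L.N l ρ u ≤ t → L.N l ρ (F u) ≤ t)
    {δ : PowerSeries K} (h0 : PowerSeries.constantCoeff δ = 0) (hδ : F δ = δ) :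
    L.N κ ρ δ ≤ t := by
  have key : ∀ l ≤ κ, L.N l ρ δ ≤ t := by
    intro l
    induction l with
    | zero =>
      intro _
      rw [L.N_zero_left, h0, L.v.map_zero]
      exact ht
    | succ l ih =>
      intro hl
      set δ' : PowerSeries K :=
        PowerSeries.mk fun i => if i ≤ l then PowerSeries.coeff i δ else 0 with hδ'
      have h1 : ∀ i ≤ l, PowerSeries.coeff i δ' = PowerSeries.coeff i δ := fun i hi => by
        rw [hδ', PowerSeries.coeff_mk, if_pos hi]
      have h2 : PowerSeries.coeff (l + 1) δ' = 0 := by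
        rw [hδ', PowerSeries.coeff_mk, if_neg (by omega)]
      have h3 : PowerSeries.constantCoeff δ' = 0 := by
        rw [← PowerSeries.coeff_zero_eq_constantCoeff_apply, h1 0 (Nat.zero_le l),
          PowerSeries.coeff_zero_eq_constantCoeff_apply, h0]
      have h4 : PowerSeries.X ^ (l + 1 + 1) ∣ F δ - F δ' :=
        hF.2 _ _ _ h0 h3 (fix_dvd_of_coeff fun i hi => (h1 i (by omega)).symm)
      rw [hδ] at h4
      rw [L.N_congr (u' := F δ') fun i hi => fix_coeff_eq h4 (by omega)]
      refine h _ hl _ h3 ?_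
      rw [L.N_succ_of_coeff_eq_zero hρ h2, L.N_congr h1]
      exact ih (by omega)
  exact key κ le_rfl

variable [CharZero K] [DecidableEq σ]

/-- First order Taylor expansion in the variable `t` (induction on `Φ`; true over any commutative
`ℚ`-algebra). -/
theorem aeval_update_add {R : Type*} [CommRing R] [Algebra ℚ R] (Φ : MvPolynomial σ ℚ) (t : σ)
    (z : σ → R) (c y : R) : ∃ k : R, aeval (Function.update z t (c + y)) Φ =
      aeval (Function.update z t c) Φ + aeval (Function.update z t c) (pderiv t Φ) * y +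
        k * y ^ 2 := by
  induction Φ using MvPolynomial.induction_on with
  | C a => exact ⟨0, by simp⟩
  | add p q hp hq =>
    obtain ⟨k, hk⟩ := hp
    obtain ⟨k', hk'⟩ := hq
    refine ⟨k + k', ?_⟩
    simp only [map_add, hk, hk']
    ring
  | mul_X p s hp =>
    obtain ⟨k, hk⟩ := hp
    by_cases hs : s = t
    · subst hs
      refine ⟨aeval (Function.update z s c) (pderiv s p) + k * (c + y), ?_⟩
      simp only [pderiv_mul, pderiv_X_self, map_add, map_mul, aeval_X, Function.update_self, hk,
        mul_one]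
      ring
    · refine ⟨k * z s, ?_⟩
      simp only [pderiv_mul, pderiv_X_of_ne hs, map_mul, aeval_X, Function.update_of_ne hs, hk,
        mul_zero, add_zero]
      ring

/-- The Newton map with frozen derivative. -/
noncomputable def newton (Φ : MvPolynomial σ ℚ) (t : σ) (z : σ → PowerSeries K) (c α : K)
    (u : PowerSeries K) : PowerSeries K :=
  u - PowerSeries.C α⁻¹ * aeval (Function.update z t (PowerSeries.C c + u)) Φ

theorem fix_const_aeval (Φ : MvPolynomial σ ℚ) (t : σ) (z : σ → PowerSeries K) (c : K)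
    {u : PowerSeries K} (hu : PowerSeries.constantCoeff u = 0) :
    PowerSeries.constantCoeff (aeval (Function.update z t (PowerSeries.C c + u)) Φ) =
      aeval (Function.update (fun s => PowerSeries.constantCoeff (z s)) t c) Φ := by
  rw [constantCoeff_aeval]
  congr 2
  funext s
  by_cases hs : s = t
  · subst hs
    simp [hu]
  · simp [Function.update_of_ne hs]

/-- `F u - F u' = (u - u') * (1 - α⁻¹ * (Φ_t (c + u') + k (u - u')))` and the second factor has no
constant term (`constantCoeff_aeval`; if `l = 0` use that `u - u'` has no constant term). -/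
theorem contr_newton (Φ : MvPolynomial σ ℚ) (t : σ) (z : σ → PowerSeries K) (c α : K)
    (h0 : aeval (Function.update (fun s => PowerSeries.constantCoeff (z s)) t c) Φ = 0)
    (hα : aeval (Function.update (fun s => PowerSeries.constantCoeff (z s)) t c) (pderiv t Φ) = α)
    (hα0 : α ≠ 0) : Contr (newton Φ t z c α) := by
  refine ⟨fun u hu => ?_, fun l u u' hu hu' h => ?_⟩
  · rw [newton, map_sub, map_mul, fix_const_aeval Φ t z c hu, hu, h0, mul_zero, sub_zero]
  · obtain ⟨k, hk⟩ := aeval_update_add Φ t z (PowerSeries.C c + u') (u - u')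
    rw [show PowerSeries.C c + u' + (u - u') = PowerSeries.C c + u by ring] at hk
    have h1 : newton Φ t z c α u - newton Φ t z c α u' = (u - u') * (1 - PowerSeries.C α⁻¹ *
        (aeval (Function.update z t (PowerSeries.C c + u')) (pderiv t Φ) + k * (u - u'))) := by
      rw [newton, newton, hk]
      ring
    rw [h1, pow_succ]
    refine mul_dvd_mul h (PowerSeries.X_dvd_iff.2 ?_)
    rw [map_sub, map_mul, map_add, map_mul, map_sub, fix_const_aeval _ t z c hu', hu, hu', hα]
    simp [hα0]

/-- Existence of the branch through a simple root. -/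
theorem hensel_exists (Φ : MvPolynomial σ ℚ) (t : σ) (z : σ → PowerSeries K) (c : K)
    (h0 : aeval (Function.update (fun s => PowerSeries.constantCoeff (z s)) t c) Φ = 0)
    (hα : aeval (Function.update (fun s => PowerSeries.constantCoeff (z s)) t c) (pderiv t Φ) ≠ 0) :
    ∃ u : PowerSeries K, PowerSeries.constantCoeff u = c ∧
      aeval (Function.update z t u) Φ = 0 := by
  obtain ⟨δ, h1, h2⟩ := (contr_newton Φ t z c _ h0 rfl hα).exists_fix
  refine ⟨PowerSeries.C c + δ, by simp [h1], ?_⟩
  rw [newton, sub_eq_self, mul_eq_zero] at h2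
  refine h2.resolve_left fun h3 => inv_ne_zero hα ?_
  simpa using congrArg PowerSeries.constantCoeff h3

end Pool.Agent.Lib.MP_651af7_nt.Vj
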