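import Pool.Agent.Lib.MP_651af7_nt.Vj.Wd

/-! Consequences of the axioms of `Nrm`. -/

namespace Pool.Agent.Lib.MP_651af7_nt.Vj

open MvPolynomial Finset Pool.Agent.Lib.Common.Subspace

variable {R : Type*} [CommRing R] (n : Nrm R) {σ : Type*}

theorem Nrm.pow_e_mono {m m' : ℝ} (h0 : 0 ≤ m) (h : m ≤ m') : m ^ n.e ≤ m' ^ n.e :=
  pow_le_pow_left₀ h0 h _

theorem Nrm.one_le_pow_e {m : ℝ} (h : 1 ≤ m) : 1 ≤ m ^ n.e := one_le_pow₀ h

theorem Nrm.mul_le {u u' : R} {M M' : ℝ} (h : n.N u ≤ M) (h' : n.N u' ≤ M') :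
    n.N (u * u') ≤ M * M' :=
  (n.mul u u').trans (mul_le_mul h h' (n.nonneg _) ((n.nonneg _).trans h))

theorem Nrm.pow_le {u : R} {M : ℝ} (h : n.N u ≤ M) (k : ℕ) : n.N (u ^ k) ≤ M ^ k := by
  induction k with
  | zero => simpa using n.one
  | succ k ih =>
    rw [pow_succ, pow_succ]
    exact n.mul_le ih h

theorem Nrm.prod_le {I : Type*} (s : Finset I) {f : I → R} {M : I → ℝ}
    (h : ∀ i ∈ s, n.N (f i) ≤ M i) : n.N (∏ i ∈ s, f i) ≤ ∏ i ∈ s, M i := by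
  classical
  induction s using Finset.induction_on with
  | empty => simpa using n.one
  | insert a s ha ih =>
    rw [prod_insert ha, prod_insert ha]
    exact n.mul_le (h a (mem_insert_self a s)) (ih fun i hi => h i (mem_insert_of_mem hi))

theorem Nrm.add_le {u u' : R} {m m' M : ℝ} (h : n.N u ≤ m ^ n.e * M) (h' : n.N u' ≤ m' ^ n.e * M) :
    n.N (u + u') ≤ (m + m') ^ n.e * M := n.add u u' m m' M h h'

theorem Nrm.sub_le {u u' : R} {m m' M : ℝ} (h : n.N u ≤ m ^ n.e * M) (h' : n.N u' ≤ m' ^ n.e * M) :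
    n.N (u - u') ≤ (m + m') ^ n.e * M := by
  rw [sub_eq_add_neg]
  exact n.add_le h (by rwa [n.neg])

theorem Nrm.add_le_two {u u' : R} {M : ℝ} (h : n.N u ≤ M) (h' : n.N u' ≤ M) :
    n.N (u + u') ≤ 2 ^ n.e * M := by
  have := n.add_le (m := 1) (m' := 1) (M := M) (u := u) (u' := u') (by simpa using h)
    (by simpa using h')
  rwa [one_add_one_eq_two] at this

/-- The plain triangle inequality (`e = 0`: take `M` the sum; `e = 1`: take `M = 1`). -/
theorem Nrm.add_le_add (u u' : R) : n.N (u + u') ≤ n.N u + n.N u' := by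
  rcases Nat.le_one_iff_eq_zero_or_eq_one.1 n.e_le with he | he
  · have := n.add_le (m := 1) (m' := 1) (M := n.N u + n.N u') (u := u) (u' := u')
      (by simpa using n.nonneg u') (by simpa using n.nonneg u)
    simpa [he] using this
  · have := n.add_le (m := n.N u) (m' := n.N u') (M := 1) (u := u) (u' := u')
      (by simp [he]) (by simp [he])
    simpa [he] using this

theorem Nrm.sum_le {I : Type*} (s : Finset I) {f : I → R} {m : I → ℝ} {M : ℝ} (hM : 0 ≤ M)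
    (h : ∀ i ∈ s, n.N (f i) ≤ m i ^ n.e * M) :
    n.N (∑ i ∈ s, f i) ≤ (∑ i ∈ s, m i) ^ n.e * M := by
  classical
  induction s using Finset.induction_on with
  | empty =>
    rw [sum_empty, sum_empty, n.zero]
    positivity
  | insert a s ha ih =>
    rw [sum_insert ha, sum_insert ha]
    exact n.add_le (h a (mem_insert_self a s)) (ih fun i hi => h i (mem_insert_of_mem hi))

theorem Nrm.natCast_le (k : ℕ) : n.N (k : R) ≤ (k : ℝ) ^ n.e := by
  have := n.sum_le (range k) (f := fun _ => (1 : R)) (m := fun _ => (1 : ℝ)) zero_le_one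
    fun _ _ => by simpa using n.one
  simpa using this

theorem Nrm.intCast_le (z : ℤ) : n.N (z : R) ≤ |(z : ℝ)| ^ n.e := by
  obtain ⟨k, rfl | rfl⟩ := Int.eq_nat_or_neg z
  · simpa using n.natCast_le k
  · rw [Int.cast_neg, n.neg]
    simpa using n.natCast_le k

private theorem le_of_sq_le_sq_nrm {a b : ℝ} (h : a ^ 2 ≤ b ^ 2) (hb : 0 ≤ b) : a ≤ b :=
  le_of_sq_le_sq h hb

/-- The second coordinate of a point, for a multiplicative size:
`|y| ^ 2 ≤ 3 ^ e * A * M ^ 3`. -/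
theorem Nrm.y_le {a b x y : R} (h : y ^ 2 = x ^ 3 + a * x + b) (hy : n.N (y ^ 2) = n.N y ^ 2)
    {A M : ℝ} (hA : 1 ≤ A) (hM : 1 ≤ M) (ha : n.N a ≤ A) (hb : n.N b ≤ A) (hx : n.N x ≤ M) :
    n.N y ≤ 3 ^ n.e * A * M ^ 2 := by
  have hM0 : 0 ≤ M := zero_le_one.trans hM
  have hA0 : 0 ≤ A := zero_le_one.trans hA
  have hM3 : 1 ≤ M ^ 3 := one_le_pow₀ hM
  have hMM : M ≤ M ^ 3 := le_self_pow₀ hM (by norm_num)
  have h1 : n.N (x ^ 3) ≤ 1 ^ n.e * (A * M ^ 3) := by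
    rw [one_pow, one_mul]
    exact (n.pow_le hx 3).trans (le_mul_of_one_le_left (by positivity) hA)
  have h2 : n.N (a * x) ≤ 1 ^ n.e * (A * M ^ 3) := by
    rw [one_pow, one_mul]
    exact n.mul_le ha (hx.trans hMM)
  have h3 : n.N b ≤ 1 ^ n.e * (A * M ^ 3) := by
    rw [one_pow, one_mul]
    exact hb.trans (le_mul_of_one_le_right hA0 hM3)
  have h4 := n.add_le (n.add_le h1 h2) h3
  rw [← h, hy, show (1 + 1 + 1 : ℝ) = 3 by norm_num] at h4
  have h5 : (1 : ℝ) ≤ 3 ^ n.e := n.one_le_pow_e (by norm_num)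
  refine le_of_sq_le_sq_nrm (h4.trans ?_) (by positivity)
  have h6 : 1 ≤ 3 ^ n.e * A * M := one_le_mul_of_one_le_of_one_le
    (one_le_mul_of_one_le_of_one_le h5 hA) hM
  calc 3 ^ n.e * (A * M ^ 3) = (3 ^ n.e * (A * M ^ 3)) * 1 := (mul_one _).symm
    _ ≤ (3 ^ n.e * (A * M ^ 3)) * (3 ^ n.e * A * M) := by gcongr
    _ = _ := by ring

variable [Algebra ℚ R]

/-- `aeval z p = ∑ μ, coeff μ p * ∏ z s ^ μ s`; `sum_le` with `m μ = |coeff μ p|`, `len_eq`. -/
theorem Nrm.aeval_le {p : MvPolynomial σ ℚ} {T : ℝ} (hp : IL p T) (z : σ → R) {M : ℝ}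
    (hM : 0 ≤ M) (h : ∀ μ ∈ p.support, n.N (μ.prod fun s k => z s ^ k) ≤ M) :
    n.N (aeval z p) ≤ T ^ n.e * M := by
  rw [aeval_def, eval₂_eq]
  refine (n.sum_le p.support (m := fun μ => |((coeff μ p : ℚ) : ℝ)|) hM fun μ hμ => ?_).trans ?_
  · refine n.mul_le ?_ (h μ hμ)
    obtain ⟨c, hc⟩ := hp.1 μ
    rw [hc, map_intCast, Rat.cast_intCast]
    exact n.intCast_le c
  · rw [← len_eq]
    exact mul_le_mul_of_nonneg_right (n.pow_e_mono (len_nonneg p) hp.2) hM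

/-- The exponent of `E j` in the bound for a monomial `μ` is `weight (w j) μ ≤ D j`. -/
theorem Nrm.aeval_wd {J : Type*} [Fintype J] (w : J → σ → ℕ) (D : J → ℕ) (E : J → ℝ)
    (hE : ∀ j, 1 ≤ E j) {p : MvPolynomial σ ℚ} {T : ℝ} (hp : IL p T)
    (hw : ∀ j, WD (w j) p (D j)) (z : σ → R) (hz : ∀ s, n.N (z s) ≤ ∏ j, E j ^ w j s) :
    n.N (aeval z p) ≤ T ^ n.e * ∏ j, E j ^ D j := by
  refine n.aeval_le hp z (prod_nonneg fun j _ => pow_nonneg (zero_le_one.trans (hE j)) _)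
    fun μ hμ => ?_
  refine (n.prod_le μ.support fun s _ => n.pow_le (hz s) (μ s)).trans ?_
  simp only [← prod_pow, ← pow_mul]
  rw [prod_comm]
  refine prod_le_prod (fun j _ => prod_nonneg fun s _ => pow_nonneg (zero_le_one.trans (hE j)) _)
    fun j _ => ?_
  rw [prod_pow_eq_pow_sum]
  refine pow_le_pow_right₀ (hE j) (le_of_eq_of_le ?_ (hw j μ hμ))
  rw [Finsupp.weight_apply, Finsupp.sum]
  exact sum_congr rfl fun s _ => by rw [smul_eq_mul, mul_comm]

end Pool.Agent.Lib.MP_651af7_nt.Vj
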