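import Pool.Agent.Lib.MP_651af7_nt.Vj.Nrm

/-! The two instances of `Nrm`: an absolute value, and the norm on power series.
Each proof splits on `L.h` and unfolds `Loc.N`. -/

namespace Pool.Agent.Lib.MP_651af7_nt.Vj

open Finset

variable {K : Type*} [Field K] (L : Loc K) {κ : ℕ} {ρ : ℝ}

theorem Loc.e_le : L.e ≤ 1 := by
  rcases L.h with h | h
  · exact h.le
  · rw [h.1]
    exact Nat.zero_le 1

theorem Loc.v_add_le (x y : K) (m m' M : ℝ) (h : L.v x ≤ m ^ L.e * M)
    (h' : L.v y ≤ m' ^ L.e * M) : L.v (x + y) ≤ (m + m') ^ L.e * M := by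
  rcases L.h with he | ⟨he, hn⟩
  · simp only [he, pow_one] at h h' ⊢
    rw [add_mul]
    exact (L.v.add_le x y).trans (add_le_add h h')
  · simp only [he, pow_zero] at h h' ⊢
    exact (hn x y).trans (max_le h h')

/-- The absolute value itself. -/
def Loc.nv : Nrm K where
  N := L.v
  e := L.e
  e_le := L.e_le
  nonneg := L.v.nonneg
  zero := L.v.map_zero
  one := L.v.map_one.le
  neg := L.v.map_neg
  mul := fun u u' => (L.v.map_mul u u').le
  add := L.v_add_le

theorem Loc.ser_N_one (he : L.e = 1) (u : PowerSeries K) :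
    L.N κ ρ u = ∑ l ∈ range (κ + 1), L.v (PowerSeries.coeff l u) * ρ ^ l := by
  rw [Loc.N, if_neg (by omega)]

theorem Loc.ser_N_zero (he : L.e = 0) (u : PowerSeries K) :
    L.N κ ρ u = (range (κ + 1)).sup' nonempty_range_add_one
      (fun l => L.v (PowerSeries.coeff l u) * ρ ^ l) := by
  rw [Loc.N, if_pos he]

theorem Loc.ser_le_N_zero (he : L.e = 0) (u : PowerSeries K) {l : ℕ} (hl : l ≤ κ) :
    L.v (PowerSeries.coeff l u) * ρ ^ l ≤ L.N κ ρ u := by
  rw [L.ser_N_zero he]
  exact le_sup' (fun l => L.v (PowerSeries.coeff l u) * ρ ^ l) (mem_range.2 (by omega))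

theorem Loc.ser_N_zero_le (he : L.e = 0) {u : PowerSeries K} {M : ℝ}
    (h : ∀ l ≤ κ, L.v (PowerSeries.coeff l u) * ρ ^ l ≤ M) : L.N κ ρ u ≤ M := by
  rw [L.ser_N_zero he]
  exact sup'_le _ _ fun l hl => h l (by have := mem_range.1 hl; omega)

theorem Loc.N_nonneg (hρ : 0 ≤ ρ) (u : PowerSeries K) : 0 ≤ L.N κ ρ u := by
  rcases L.h with he | ⟨he, -⟩
  · rw [L.ser_N_one he]
    exact sum_nonneg fun l _ => mul_nonneg (L.v.nonneg _) (pow_nonneg hρ _)
  · exact (mul_nonneg (L.v.nonneg _) (pow_nonneg hρ _)).trans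
      (L.ser_le_N_zero he u (Nat.zero_le κ))

theorem Loc.coeff_le (hρ : 0 ≤ ρ) (u : PowerSeries K) {l : ℕ} (hl : l ≤ κ) :
    L.v (PowerSeries.coeff l u) * ρ ^ l ≤ L.N κ ρ u := by
  rcases L.h with he | ⟨he, -⟩
  · rw [L.ser_N_one he]
    exact single_le_sum (f := fun l => L.v (PowerSeries.coeff l u) * ρ ^ l)
      (fun l _ => mul_nonneg (L.v.nonneg _) (pow_nonneg hρ _)) (mem_range.2 (by omega))
  · exact L.ser_le_N_zero he u hl

theorem Loc.N_congr {u u' : PowerSeries K}
    (h : ∀ l ≤ κ, PowerSeries.coeff l u = PowerSeries.coeff l u') : L.N κ ρ u = L.N κ ρ u' := by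
  rcases L.h with he | ⟨he, -⟩
  · rw [L.ser_N_one he, L.ser_N_one he]
    exact sum_congr rfl fun l hl => by rw [h l (by have := mem_range.1 hl; omega)]
  · refine le_antisymm (L.ser_N_zero_le he fun l hl => ?_) (L.ser_N_zero_le he fun l hl => ?_)
    · rw [h l hl]
      exact L.ser_le_N_zero he _ hl
    · rw [← h l hl]
      exact L.ser_le_N_zero he _ hl

theorem Loc.N_mono (hρ : 0 ≤ ρ) (u : PowerSeries K) {κ' : ℕ} (h : κ ≤ κ') :
    L.N κ ρ u ≤ L.N κ' ρ u := by
  rcases L.h with he | ⟨he, -⟩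
  · rw [L.ser_N_one he, L.ser_N_one he]
    exact sum_le_sum_of_subset_of_nonneg (range_mono (by omega))
      fun l _ _ => mul_nonneg (L.v.nonneg _) (pow_nonneg hρ _)
  · exact L.ser_N_zero_le he fun l hl => L.ser_le_N_zero he u (hl.trans h)

theorem Loc.N_succ_of_coeff_eq_zero (hρ : 0 ≤ ρ) {u : PowerSeries K}
    (h : PowerSeries.coeff (κ + 1) u = 0) : L.N (κ + 1) ρ u = L.N κ ρ u := by
  rcases L.h with he | ⟨he, -⟩
  · rw [L.ser_N_one he, L.ser_N_one he, sum_range_succ _ (κ + 1), h, L.v.map_zero, zero_mul,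
      add_zero]
  · refine le_antisymm (L.ser_N_zero_le he fun l hl => ?_) (L.N_mono hρ u (Nat.le_succ κ))
    rcases Nat.lt_or_eq_of_le hl with hl | rfl
    · exact L.ser_le_N_zero he u (by omega)
    · rw [h, L.v.map_zero, zero_mul]
      exact L.N_nonneg hρ u

theorem Loc.N_zero_left (u : PowerSeries K) : L.N 0 ρ u = L.v (PowerSeries.constantCoeff u) := by
  rcases L.h with he | ⟨he, -⟩
  · rw [L.ser_N_one he]
    simp
  · refine le_antisymm (L.ser_N_zero_le he fun l hl => ?_) ?_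
    · rw [Nat.le_zero.1 hl]
      simp
    · simpa using L.ser_le_N_zero (κ := 0) (ρ := ρ) he u le_rfl

theorem Loc.N_C (hρ : 0 ≤ ρ) (a : K) : L.N κ ρ (PowerSeries.C a) = L.v a := by
  induction κ with
  | zero => rw [L.N_zero_left, PowerSeries.constantCoeff_C]
  | succ κ ih => rw [L.N_succ_of_coeff_eq_zero hρ PowerSeries.coeff_succ_C, ih]

theorem Loc.N_X (hρ : 0 ≤ ρ) : L.N κ ρ PowerSeries.X ≤ ρ := by
  rcases L.h with he | ⟨he, -⟩
  · rw [L.ser_N_one he]
    have h1 : ∀ l, L.v (PowerSeries.coeff l (PowerSeries.X : PowerSeries K)) * ρ ^ l =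
        if l = 1 then ρ else 0 := fun l => by
      rw [PowerSeries.coeff_X]
      split_ifs with h
      · simp [h]
      · simp
    simp only [h1, sum_ite_eq']
    split_ifs
    exacts [le_rfl, hρ]
  · refine L.ser_N_zero_le he fun l _ => ?_
    rw [PowerSeries.coeff_X]
    split_ifs with h
    · simp [h]
    · simpa using hρ

theorem Loc.N_neg (u : PowerSeries K) : L.N κ ρ (-u) = L.N κ ρ u := by
  simp only [Loc.N, map_neg, AbsoluteValue.map_neg]

/-- `PowerSeries.coeff_mul`; for `e = 1` embed the pairs `(i, j)` with `i + j ≤ κ` in the square. -/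
theorem Loc.N_mul (hρ : 0 ≤ ρ) (u u' : PowerSeries K) :
    L.N κ ρ (u * u') ≤ L.N κ ρ u * L.N κ ρ u' := by
  rcases L.h with he | ⟨he, hn⟩
  · rw [L.ser_N_one he, L.ser_N_one he, L.ser_N_one he, sum_mul_sum, ← sum_product']
    set f : ℕ × ℕ → ℝ := fun p => L.v (PowerSeries.coeff p.1 u) * ρ ^ p.1 *
      (L.v (PowerSeries.coeff p.2 u') * ρ ^ p.2) with hf
    have hf0 : ∀ p, 0 ≤ f p := fun p => mul_nonneg (mul_nonneg (L.v.nonneg _) (pow_nonneg hρ _))
      (mul_nonneg (L.v.nonneg _) (pow_nonneg hρ _))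
    have h1 : ∀ l, L.v (PowerSeries.coeff l (u * u')) * ρ ^ l ≤ ∑ p ∈ antidiagonal l, f p := by
      intro l
      rw [PowerSeries.coeff_mul]
      refine (mul_le_mul_of_nonneg_right (L.v.sum_le _ _) (pow_nonneg hρ _)).trans ?_
      rw [sum_mul]
      refine sum_le_sum fun p hp => le_of_eq ?_
      rw [hf, ← mem_antidiagonal.1 hp, map_mul, pow_add]
      ring
    refine (sum_le_sum fun l _ => h1 l).trans ?_
    rw [← sum_biUnion]
    · refine sum_le_sum_of_subset_of_nonneg (fun p hp => ?_) fun p _ _ => hf0 p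
      obtain ⟨l, hl, hp⟩ := mem_biUnion.1 hp
      have h2 := mem_range.1 hl
      have h3 := mem_antidiagonal.1 hp
      exact mem_product.2 ⟨mem_range.2 (by omega), mem_range.2 (by omega)⟩
    · intro l _ l' _ hll
      refine disjoint_left.2 fun p hp hp' => hll ?_
      rw [← mem_antidiagonal.1 hp, ← mem_antidiagonal.1 hp']
  · refine L.ser_N_zero_le he fun l hl => ?_
    rw [PowerSeries.coeff_mul, mul_comm]
    refine Finset.sum_induction _ (fun x => ρ ^ l * L.v x ≤ L.N κ ρ u * L.N κ ρ u')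
      (fun x y hx hy => ?_) ?_ fun p hp => ?_
    · refine (mul_le_mul_of_nonneg_left (hn x y) (pow_nonneg hρ _)).trans ?_
      rw [mul_max_of_nonneg _ _ (pow_nonneg hρ _)]
      exact max_le hx hy
    · rw [L.v.map_zero, mul_zero]
      exact mul_nonneg (L.N_nonneg hρ _) (L.N_nonneg hρ _)
    · have h3 := mem_antidiagonal.1 hp
      refine le_trans (le_of_eq ?_) (mul_le_mul (L.coeff_le hρ u (l := p.1) (by omega))
        (L.coeff_le hρ u' (l := p.2) (by omega))
        (mul_nonneg (L.v.nonneg _) (pow_nonneg hρ _)) (L.N_nonneg hρ _))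
      rw [← h3, map_mul, pow_add]
      ring

theorem Loc.N_add_le (hρ : 0 ≤ ρ) (u u' : PowerSeries K) (m m' M : ℝ)
    (h : L.N κ ρ u ≤ m ^ L.e * M) (h' : L.N κ ρ u' ≤ m' ^ L.e * M) :
    L.N κ ρ (u + u') ≤ (m + m') ^ L.e * M := by
  rcases L.h with he | ⟨he, hn⟩
  · simp only [he, pow_one] at h h' ⊢
    rw [add_mul]
    refine le_trans ?_ (add_le_add h h')
    rw [L.ser_N_one he, L.ser_N_one he, L.ser_N_one he, ← sum_add_distrib]
    refine sum_le_sum fun l _ => ?_
    rw [map_add, ← add_mul]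
    exact mul_le_mul_of_nonneg_right (L.v.add_le _ _) (pow_nonneg hρ _)
  · simp only [he, pow_zero] at h h' ⊢
    refine L.ser_N_zero_le he fun l hl => ?_
    rw [map_add]
    refine (mul_le_mul_of_nonneg_right (hn _ _) (pow_nonneg hρ _)).trans ?_
    rw [max_mul_of_nonneg _ _ (pow_nonneg hρ _)]
    exact max_le ((L.coeff_le hρ u hl).trans h) ((L.coeff_le hρ u' hl).trans h')

/-- The norm on power series. -/
noncomputable def Loc.ser (κ : ℕ) {ρ : ℝ} (hρ : 0 ≤ ρ) : Nrm (PowerSeries K) where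
  N := L.N κ ρ
  e := L.e
  e_le := L.e_le
  nonneg := L.N_nonneg hρ
  zero := by simpa using L.N_C (κ := κ) hρ 0
  one := by simpa using (L.N_C (κ := κ) hρ 1).le
  neg := L.N_neg
  mul := L.N_mul hρ
  add := L.N_add_le hρ

theorem constantCoeff_aeval [CharZero K] {σ : Type*} (z : σ → PowerSeries K)
    (p : MvPolynomial σ ℚ) : PowerSeries.constantCoeff (MvPolynomial.aeval z p) =
      MvPolynomial.aeval (fun s => PowerSeries.constantCoeff (z s)) p := by
  induction p using MvPolynomial.induction_on with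
  | C a => simp
  | add p q hp hq => simp only [map_add, hp, hq]
  | mul_X p s hp => simp only [map_mul, hp, MvPolynomial.aeval_X]

theorem C_aeval [CharZero K] {σ : Type*} (z : σ → K) (p : MvPolynomial σ ℚ) :
    PowerSeries.C (MvPolynomial.aeval z p) =
      MvPolynomial.aeval (fun s => (PowerSeries.C (z s) : PowerSeries K)) p := by
  induction p using MvPolynomial.induction_on with
  | C a =>
    rw [MvPolynomial.aeval_C, MvPolynomial.aeval_C, PowerSeries.algebraMap_apply]
  | add p q hp hq => simp only [map_add, hp, hq]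
  | mul_X p s hp => simp only [map_mul, hp, MvPolynomial.aeval_X]

end Pool.Agent.Lib.MP_651af7_nt.Vj
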